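import Mathlib
import Pool.Agent.P.MP_ede858_pr.Defs

-- part Pool.Agent.P.MP_ede858_pr.CM
section

/-! Completely monotone functions on `(2, ∞)` are log-convex. -/

set_option autoImplicit false

open Set Filter Topology Polynomial
open scoped ContDiff

namespace Pool.Agent.P.MP_ede858_pr

def CM (g : ℝ → ℝ) : Prop :=
  ∃ d : ℕ → ℝ → ℝ, (∀ x, 2 < x → d 0 x = g x) ∧
    (∀ n x, 2 < x → HasDerivAt (d n) (-d (n + 1) x) x) ∧ ∀ n x, 2 < x → 0 ≤ d n x

theorem CM_of_iteratedDeriv {g : ℝ → ℝ} (h1 : ContDiffOn ℝ ∞ g (Ioi 2))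
    (h2 : ∀ (n : ℕ) (w : ℝ), 2 < w → 0 ≤ (-1) ^ n * iteratedDeriv n g w) : CM g := by
  refine ⟨fun n x => (-1) ^ n * iteratedDeriv n g x, fun x _ => by simp, fun n x hx => ?_, h2⟩
  have h3 : ContDiffAt ℝ ∞ g x := h1.contDiffAt (Ioi_mem_nhds hx)
  have h4 : DifferentiableAt ℝ (iteratedDeriv n g) x := by
    have h5 := h1.differentiableOn_iteratedDerivWithin (m := n)
      (by exact_mod_cast ENat.natCast_lt_top n) (uniqueDiffOn_Ioi 2)
    have h6 := (h5 x hx).differentiableAt (Ioi_mem_nhds hx)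
    refine h6.congr_of_eventuallyEq ?_
    filter_upwards [Ioi_mem_nhds hx] with y hy
    exact (iteratedDerivWithin_of_isOpen isOpen_Ioi hy).symm
  have h7 := h4.hasDerivAt.const_mul ((-1 : ℝ) ^ n)
  refine h7.congr_deriv ?_
  simp only
  rw [iteratedDeriv_succ, pow_succ]; ring

theorem CM.nonneg {g : ℝ → ℝ} (h : CM g) {x : ℝ} (hx : 2 < x) : 0 ≤ g x := by
  obtain ⟨d, h0, -, h2⟩ := h
  rw [← h0 x hx]; exact h2 0 x hx

theorem CM.shift {g : ℝ → ℝ} (h : CM g) {s : ℝ} (hs : 0 < s) : CM (fun x => g (x + s)) := by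
  obtain ⟨d, h0, h1, h2⟩ := h
  refine ⟨fun n x => d n (x + s), fun x hx => h0 _ (by linarith), fun n x hx => ?_,
    fun n x hx => h2 n _ (by linarith)⟩
  exact (h1 n (x + s) (by linarith)).comp_add_const x s

theorem CM.diff {g : ℝ → ℝ} (h : CM g) {s : ℝ} (hs : 0 < s) : CM (fun x => g x - g (x + s)) := by
  obtain ⟨d, h0, h1, h2⟩ := h
  refine ⟨fun n x => d n x - d n (x + s), fun x hx => by
    simp only
    rw [h0 _ hx, h0 _ (by linarith)], fun n x hx => ?_, fun n x hx => ?_⟩
  · have := (h1 n x hx).sub ((h1 n (x + s) (by linarith)).comp_add_const x s)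
    refine this.congr_deriv ?_
    simp only
    ring
  · have hanti : AntitoneOn (d n) (Ioi 2) := by
      apply antitoneOn_of_deriv_nonpos (convex_Ioi 2)
      · exact fun y hy => (h1 n y hy).continuousAt.continuousWithinAt
      · rw [interior_Ioi]
        exact fun y hy => (h1 n y hy).differentiableAt.differentiableWithinAt
      · rw [interior_Ioi]
        intro y hy
        rw [(h1 n y hy).deriv]
        have := h2 (n + 1) y hy
        linarith
    have := hanti (show x ∈ Ioi 2 from hx) (show x + s ∈ Ioi 2 from by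
      show 2 < x + s
      linarith) (by linarith)
    linarith

/-- the shift operator -/
def shiftL (s : ℝ) : Module.End ℝ (ℝ → ℝ) where
  toFun g := fun x => g (x + s)
  map_add' _ _ := rfl
  map_smul' _ _ := rfl

theorem CM.pow_shift {s : ℝ} (hs : 0 < s) (i : ℕ) : ∀ {g : ℝ → ℝ}, CM g →
    CM ((shiftL s ^ i) g) := by
  induction i with
  | zero => intro g h; exact h
  | succ i ih => intro g h; rw [pow_succ]; exact ih (h.shift hs)

theorem CM.pow_diff {s : ℝ} (hs : 0 < s) (i : ℕ) : ∀ {g : ℝ → ℝ}, CM g →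
    CM (((1 - shiftL s) ^ i) g) := by
  induction i with
  | zero => intro g h; exact h
  | succ i ih => intro g h; rw [pow_succ]; exact ih (h.diff hs)

theorem CM.quad {g : ℝ → ℝ} (h : CM g) {s x : ℝ} (hs : 0 < s) (hx : 2 < x) (N : ℕ) (t : ℝ) :
    0 ≤ (N * (N - 1) : ℝ) * g (x + s + s) + N * g (x + s) - 2 * (N * t) * (N * g (x + s)) +
      (N * t) ^ 2 * g x := by
  let Lf : ℝ[X] →ₗ[ℝ] ℝ :=
    { toFun := fun p => (aeval (shiftL s) p) g x
      map_add' := fun p q => by simp
      map_smul' := fun c p => by simp }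
  have hB : ∀ ν, 0 ≤ Lf (bernsteinPolynomial ℝ N ν) := by
    intro ν
    have h1 := ((h.pow_diff hs (N - ν)).pow_shift hs ν).nonneg hx
    have e : Lf (bernsteinPolynomial ℝ N ν) =
        (N.choose ν : ℝ) * ((shiftL s ^ ν) (((1 - shiftL s) ^ (N - ν)) g)) x := by
      simp [Lf, bernsteinPolynomial]
    rw [e]
    positivity
  have s0 := congrArg Lf (bernsteinPolynomial.sum ℝ N)
  have s1 := congrArg Lf (bernsteinPolynomial.sum_smul ℝ N)
  have s2 := congrArg Lf (bernsteinPolynomial.sum_mul_smul ℝ N)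
  have l0 : Lf 1 = g x := by simp [Lf]
  have l1 : Lf X = g (x + s) := by simp [Lf, shiftL]
  have l2 : Lf (X ^ 2) = g (x + s + s) := by
    simp [Lf, pow_two, shiftL]
  rw [map_sum, l0] at s0
  simp only [map_sum, map_nsmul] at s1 s2
  simp only [l1, l2, nsmul_eq_mul] at s1 s2
  have c1 : ∀ ν : ℕ, ((ν * (ν - 1) : ℕ) : ℝ) = ν * (ν - 1) := by
    intro ν
    cases ν with
    | zero => simp
    | succ ν => simp
  simp only [c1] at s2
  rw [← s0, ← s1, ← s2, Finset.mul_sum, Finset.mul_sum, ← Finset.sum_add_distrib,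
    ← Finset.sum_sub_distrib, ← Finset.sum_add_distrib]
  apply Finset.sum_nonneg
  intro ν _
  have := mul_nonneg (sq_nonneg ((ν : ℝ) - N * t)) (hB ν)
  nlinarith

theorem CM.quad' {g : ℝ → ℝ} (h : CM g) {s x : ℝ} (hs : 0 < s) (hx : 2 < x) (t : ℝ) :
    0 ≤ g (x + s + s) - 2 * t * g (x + s) + t ^ 2 * g x := by
  by_contra hcon
  push Not at hcon
  set Q := g (x + s + s) - 2 * t * g (x + s) + t ^ 2 * g x with hQ
  obtain ⟨N, hN⟩ := exists_nat_gt (|g (x + s) - g (x + s + s)| / (-Q))
  have hN0 : (0 : ℝ) < N := lt_of_le_of_lt (div_nonneg (abs_nonneg _) (by linarith)) hN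
  rw [div_lt_iff₀ (by linarith)] at hN
  have h1 := h.quad hs hx N t
  have h2 : (N * (N - 1) : ℝ) * g (x + s + s) + N * g (x + s) - 2 * (N * t) * (N * g (x + s)) +
      (N * t) ^ 2 * g x = N * (N * Q + (g (x + s) - g (x + s + s))) := by rw [hQ]; ring
  rw [h2] at h1
  have h3 := le_abs_self (g (x + s) - g (x + s + s))
  have h4 : N * Q + (g (x + s) - g (x + s + s)) < 0 := by linarith
  nlinarith

theorem CM.log_mid {g : ℝ → ℝ} (h : CM g) (hpos : ∀ x, 2 < x → 0 < g x) {s x : ℝ} (hs : 0 < s)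
    (hx : 2 < x) : Real.log (g (x + s)) - Real.log (g x) ≤
      Real.log (g (x + s + s)) - Real.log (g (x + s)) := by
  have p0 := hpos x hx
  have p1 := hpos (x + s) (by linarith)
  have p2 := hpos (x + s + s) (by linarith)
  have h1 := h.quad' hs hx (g (x + s) / g x)
  have h2 : g (x + s) * g (x + s) ≤ g (x + s + s) * g x := by
    have e : g (x + s + s) - 2 * (g (x + s) / g x) * g (x + s) + (g (x + s) / g x) ^ 2 * g x =
        (g (x + s + s) * g x - g (x + s) * g (x + s)) / g x := by field_simp; ring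
    rw [e] at h1
    have := (div_nonneg_iff.1 h1)
    rcases this with h3 | h3
    · linarith [h3.1]
    · linarith [h3.2]
  have h3 := Real.log_le_log (by positivity) h2
  rw [Real.log_mul p1.ne' p1.ne', Real.log_mul p2.ne' p0.ne'] at h3
  linarith

theorem CM.log_deriv_mono {g : ℝ → ℝ} (h : CM g) (hpos : ∀ x, 2 < x → 0 < g x) {x y p q : ℝ}
    (hx : 2 < x) (hxy : x < y) (hp : HasDerivAt (fun w => Real.log (g w)) p x)
    (hq : HasDerivAt (fun w => Real.log (g w)) q y) : p ≤ q := by
  have key : ∀ s, 0 < s → ∀ M : ℕ, Real.log (g (x + s)) - Real.log (g x) ≤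
      Real.log (g (x + M * s + s)) - Real.log (g (x + M * s)) := by
    intro s hs M
    induction M with
    | zero => simp
    | succ M ih =>
      have h1 := h.log_mid hpos hs (x := x + M * s) (by
        have : (0 : ℝ) ≤ M * s := by positivity
        linarith)
      have e : x + ((M + 1 : ℕ) : ℝ) * s = x + M * s + s := by push_cast; ring
      rw [e]
      linarith
  have hseq : Tendsto (fun M : ℕ => (y - x) / ((M : ℝ) + 1)) atTop (𝓝[>] 0) := by
    apply tendsto_nhdsWithin_iff.2
    constructor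
    · have := tendsto_one_div_add_atTop_nhds_zero_nat (𝕜 := ℝ).const_mul (y - x)
      simpa [div_eq_mul_inv] using this
    · refine Eventually.of_forall (fun M => ?_)
      show 0 < (y - x) / ((M : ℝ) + 1)
      apply div_pos (by linarith) (by positivity)
  refine le_of_tendsto_of_tendsto' (hp.tendsto_slope_zero_right.comp hseq)
    (hq.tendsto_slope_zero_right.comp hseq) (fun M => ?_)
  have hs : 0 < (y - x) / ((M : ℝ) + 1) := div_pos (by linarith) (by positivity)
  have h1 := key _ hs (M + 1)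
  have e : x + ((M + 1 : ℕ) : ℝ) * ((y - x) / ((M : ℝ) + 1)) = y := by
    push_cast; field_simp; ring
  rw [e] at h1
  simp only [Function.comp, smul_eq_mul]
  exact mul_le_mul_of_nonneg_left h1 (inv_nonneg.2 hs.le)

end Pool.Agent.P.MP_ede858_pr
end

-- part Pool.Agent.P.MP_ede858_pr.Riccati
section

/-! The Riccati equation argument. -/

set_option autoImplicit false

open Set Filter Topology

namespace Pool.Agent.P.MP_ede858_pr

theorem eta_tendsto {η : ℝ → ℝ} {q m : ℝ} (hm : -1 / 2 < m)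
    (hd : ∀ t, 0 < t → HasDerivAt η ((q - η t ^ 2 - 2 * t * η t + η t) / t) t)
    (hlow : ∀ t, 0 < t → m - t ≤ η t) : Tendsto η atTop (𝓝 0) := by
  rw [Metric.tendsto_atTop]
  intro ε hε
  obtain ⟨T0, hT0⟩ := exists_nat_gt (8 * q ^ 2 / ε ^ 2)
  set T : ℝ := T0 + 3 with hT
  have hT00 : (0 : ℝ) ≤ T0 := Nat.cast_nonneg _
  have hε2 : 0 < ε ^ 2 := by positivity
  rw [div_lt_iff₀ hε2] at hT0
  let F : ℝ → ℝ := fun t => Real.exp (t / 2) * (η t ^ 2 - ε ^ 2 / 2)
  have hF : ∀ t, 0 < t → HasDerivAt F (Real.exp (t / 2) * (1 / 2) * (η t ^ 2 - ε ^ 2 / 2) +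
      Real.exp (t / 2) * (2 * η t * ((q - η t ^ 2 - 2 * t * η t + η t) / t))) t := by
    intro t ht
    have h1 : HasDerivAt (fun t : ℝ => Real.exp (t / 2)) (Real.exp (t / 2) * (1 / 2)) t :=
      ((hasDerivAt_id t).div_const 2).exp
    have h2 := ((hd t ht).pow 2).sub_const (ε ^ 2 / 2)
    refine (h1.mul h2).congr_deriv ?_
    simp
  have hanti : AntitoneOn F (Ici T) := by
    apply antitoneOn_of_deriv_nonpos (convex_Ici T)
    · exact fun y hy => (hF y (by have : T ≤ y := hy; linarith)).continuousAt.continuousWithinAt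
    · rw [interior_Ici]
      exact fun y hy => (hF y (by
        have : T < y := hy
        linarith)).differentiableAt.differentiableWithinAt
    · rw [interior_Ici]
      intro y hy
      have hy' : T < y := hy
      have hy0 : 0 < y := by linarith
      rw [(hF y hy0).deriv]
      have he := Real.exp_pos (y / 2)
      have hl := hlow y hy0
      have key : 1 / 2 * (η y ^ 2 - ε ^ 2 / 2) +
          2 * η y * ((q - η y ^ 2 - 2 * y * η y + η y) / y) ≤ 0 := by
        have e : 1 / 2 * (η y ^ 2 - ε ^ 2 / 2) +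
            2 * η y * ((q - η y ^ 2 - 2 * y * η y + η y) / y) =
            (y / 2 * (η y ^ 2 - ε ^ 2 / 2) +
              2 * η y * (q - η y ^ 2 - 2 * y * η y + η y)) / y := by
          field_simp
        rw [e]
        apply div_nonpos_of_nonpos_of_nonneg _ hy0.le
        have g1 : y / 2 ≤ η y + 2 * y - 1 := by linarith
        have g2 : η y ^ 2 * (y / 2) ≤ η y ^ 2 * (η y + 2 * y - 1) :=
          mul_le_mul_of_nonneg_left g1 (sq_nonneg _)
        have g3 : 2 * η y * q ≤ η y ^ 2 + q ^ 2 := by nlinarith [sq_nonneg (η y - q)]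
        have g4 : η y ^ 2 * 1 ≤ η y ^ 2 * (y / 2) :=
          mul_le_mul_of_nonneg_left (by linarith) (sq_nonneg _)
        have g5 : T0 * ε ^ 2 ≤ y * ε ^ 2 := mul_le_mul_of_nonneg_right (by linarith) hε2.le
        nlinarith [sq_nonneg q]
      nlinarith
  have hlim : Tendsto (fun t : ℝ => |F T| * Real.exp (-(t / 2))) atTop (𝓝 0) := by
    have h1 : Tendsto (fun t : ℝ => Real.exp (-(t / 2))) atTop (𝓝 0) :=
      Real.tendsto_exp_neg_atTop_nhds_zero.comp (tendsto_id.atTop_div_const (by norm_num))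
    simpa using h1.const_mul |F T|
  obtain ⟨N, hN⟩ := eventually_atTop.1 (hlim.eventually (gt_mem_nhds (half_pos hε2)))
  refine ⟨max N T, fun t ht => ?_⟩
  have h1 := hN t (le_trans (le_max_left _ _) ht)
  have h2 : F t ≤ F T := hanti (show T ∈ Ici T from le_refl T) (le_trans (le_max_right _ _) ht)
    (le_trans (le_max_right _ _) ht)
  have h3 : η t ^ 2 - ε ^ 2 / 2 = F t * Real.exp (-(t / 2)) := by
    simp only [F]
    rw [Real.exp_neg]
    field_simp
  have h4 : F t * Real.exp (-(t / 2)) ≤ |F T| * Real.exp (-(t / 2)) :=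
    mul_le_mul_of_nonneg_right (h2.trans (le_abs_self _)) (Real.exp_pos _).le
  rw [Real.dist_eq, sub_zero]
  apply abs_lt_of_sq_lt_sq _ hε.le
  linarith

theorem sigma_not_mono {σ : ℝ → ℝ} {q : ℝ}
    (hd : ∀ t, 0 < t → HasDerivAt σ (q + 2 * σ t / t - σ t ^ 2 / t ^ 2 - 2 * σ t) t)
    (hmono : MonotoneOn σ (Ioi 0)) {t0 : ℝ} (ht0 : 0 < t0) (hpos : 0 < σ t0) : False := by
  by_cases hA : ∃ t1, 0 < t1 ∧ q / 2 < σ t1
  · obtain ⟨t1, ht1, h1⟩ := hA
    set t2 := max t0 t1 with ht2
    have ht2' : 0 < t2 := lt_of_lt_of_le ht0 (le_max_left _ _)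
    have s1 : σ t0 ≤ σ t2 := hmono ht0 ht2' (le_max_left _ _)
    have s2 : σ t1 ≤ σ t2 := hmono ht1 ht2' (le_max_right _ _)
    set s := σ t2 with hs
    have hs0 : 0 < s := by linarith
    have hsq : 0 < 2 * s - q := by linarith
    set T := t2 + 1 + 2 * s / (2 * s - q) with hT
    have hT1 : 0 < 2 * s / (2 * s - q) := by positivity
    have hanti : StrictAntiOn σ (Ici T) := by
      apply strictAntiOn_of_deriv_neg (convex_Ici T)
      · exact fun y hy => (hd y (by
          have : T ≤ y := hy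
          linarith)).continuousAt.continuousWithinAt
      · rw [interior_Ici]
        intro y hy
        have hy' : T < y := hy
        have hy0 : 0 < y := by linarith
        rw [(hd y hy0).deriv]
        have g1 : s ≤ σ y := hmono ht2' hy0 (by linarith)
        have g2 : 2 * s / (2 * s - q) < y := by linarith
        rw [div_lt_iff₀ hsq] at g2
        have g3 : 0 ≤ σ y ^ 2 / y ^ 2 := by positivity
        have g4 : q + 2 * σ y / y - 2 * σ y = (q * y + 2 * σ y - 2 * σ y * y) / y := by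
          field_simp
        have g5 : (q * y + 2 * σ y - 2 * σ y * y) / y < 0 := by
          apply div_neg_of_neg_of_pos _ hy0
          have : 0 ≤ (σ y - s) * (y - 1) := mul_nonneg (by linarith) (by linarith)
          nlinarith
        linarith
    have h3 := hanti (show T ∈ Ici T from le_refl T) (show T + 1 ∈ Ici T from by
      show T ≤ T + 1
      linarith) (by linarith)
    have h4 := hmono (show T ∈ Ioi 0 from by
      show 0 < T
      linarith) (show T + 1 ∈ Ioi 0 from by
      show 0 < T + 1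
      linarith) (by linarith)
    linarith
  · push Not at hA
    have hq : 0 < q := by have := hA t0 ht0; linarith
    set s := σ t0 with hs
    set T := t0 + q with hT
    have hG : ∀ t, 0 < t → HasDerivAt (fun t => σ t - s * Real.log t)
        (q + 2 * σ t / t - σ t ^ 2 / t ^ 2 - 2 * σ t - s * t⁻¹) t := fun t ht =>
      (hd t ht).sub ((Real.hasDerivAt_log ht.ne').const_mul s)
    have hm2 : MonotoneOn (fun t => σ t - s * Real.log t) (Ici T) := by
      apply monotoneOn_of_deriv_nonneg (convex_Ici T)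
      · exact fun y hy => (hG y (by
          have : T ≤ y := hy
          linarith)).continuousAt.continuousWithinAt
      · rw [interior_Ici]
        exact fun y hy => (hG y (by
          have : T < y := hy
          linarith)).differentiableAt.differentiableWithinAt
      · rw [interior_Ici]
        intro y hy
        have hy' : T < y := hy
        have hy0 : 0 < y := by linarith
        rw [(hG y hy0).deriv]
        have g1 : s ≤ σ y := hmono ht0 hy0 (by linarith)
        have g2 := hA y hy0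
        have g4 : 2 * σ y / y - σ y ^ 2 / y ^ 2 - s * y⁻¹ =
            (2 * σ y * y - σ y ^ 2 - s * y) / y ^ 2 := by
          field_simp
        have g5 : 0 ≤ (2 * σ y * y - σ y ^ 2 - s * y) / y ^ 2 := by
          apply div_nonneg _ (by positivity)
          have : 0 ≤ (σ y - s) * y := mul_nonneg (by linarith) hy0.le
          have : 0 ≤ σ y * (y - σ y) := mul_nonneg (by linarith) (by linarith)
          nlinarith
        linarith
    have hT0 : 0 < T := by linarith
    set y := T * Real.exp (q / s) with hy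
    have hexp : 1 ≤ Real.exp (q / s) := Real.one_le_exp (by positivity)
    have hyT : T ≤ y := by nlinarith
    have h3 := hm2 (show T ∈ Ici T from le_refl T) (show y ∈ Ici T from hyT) hyT
    have h4 : Real.log y = Real.log T + q / s := by
      rw [hy, Real.log_mul hT0.ne' (Real.exp_pos _).ne', Real.log_exp]
    simp only at h3
    rw [h4] at h3
    have h5 : s * (q / s) = q := by field_simp
    have h6 := hA y (by linarith)
    have h7 : s ≤ σ T := hmono ht0 hT0 (by linarith)
    nlinarith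

end Pool.Agent.P.MP_ede858_pr
end

-- part Pool.Agent.P.MP_ede858_pr.Main
section

set_option autoImplicit false

open Set Filter Topology

namespace Pool.Agent.P.MP_ede858_pr

noncomputable def co (μ : ℝ) (k : ℕ) : ℝ := 1 / ((k.factorial : ℝ) * Real.Gamma ((k : ℝ) + μ + 1))

noncomputable def SS (μ y : ℝ) : ℝ := ∑' k : ℕ, co μ k * y ^ k

theorem gamma_pos {μ : ℝ} (hμ : -1 < μ) (k : ℕ) : 0 < Real.Gamma ((k : ℝ) + μ + 1) :=
  Real.Gamma_pos_of_pos (by have : (0 : ℝ) ≤ k := Nat.cast_nonneg k; linarith)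

theorem co_pos {μ : ℝ} (hμ : -1 < μ) (k : ℕ) : 0 < co μ k := by
  have := gamma_pos hμ k
  unfold co
  positivity

theorem gamma_succ {μ : ℝ} (hμ : -1 < μ) (k : ℕ) :
    Real.Gamma (((k + 1 : ℕ) : ℝ) + μ + 1) = ((k : ℝ) + μ + 1) * Real.Gamma ((k : ℝ) + μ + 1) := by
  have : (0 : ℝ) ≤ k := Nat.cast_nonneg k
  rw [← Real.Gamma_add_one (by linarith)]
  congr 1
  push_cast; ring

theorem gamma_low {μ : ℝ} (hμ : -1 < μ) : ∃ m, 0 < m ∧ ∀ k : ℕ, m ≤ Real.Gamma ((k : ℝ) + μ + 1) := by
  refine ⟨min (Real.Gamma (((0 : ℕ) : ℝ) + μ + 1)) (Real.Gamma (((1 : ℕ) : ℝ) + μ + 1)),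
    lt_min (gamma_pos hμ 0) (gamma_pos hμ 1), fun k => ?_⟩
  cases k with
  | zero => exact min_le_left _ _
  | succ k =>
    refine le_trans (min_le_right _ _) ?_
    induction k with
    | zero => exact le_rfl
    | succ k ih =>
      rw [gamma_succ hμ (k + 1)]
      have h1 := gamma_pos hμ (k + 1)
      have h2 : (1 : ℝ) ≤ ((k + 1 : ℕ) : ℝ) + μ + 1 := by
        have : (0 : ℝ) ≤ k := Nat.cast_nonneg k
        push_cast; linarith
      nlinarith

theorem summable_abs {μ : ℝ} (hμ : -1 < μ) {y : ℝ} (hy : 0 ≤ y) :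
    Summable (fun k => co μ k * y ^ k) := by
  obtain ⟨m, hm, h⟩ := gamma_low hμ
  refine Summable.of_nonneg_of_le (fun k => mul_nonneg (co_pos hμ k).le (by positivity))
    (fun k => ?_) ((Real.summable_pow_div_factorial y).mul_left (1 / m))
  have h1 : co μ k ≤ 1 / m * (1 / k.factorial) := by
    unfold co
    rw [one_div_mul_one_div, mul_comm m]
    apply one_div_le_one_div_of_le (by positivity)
    exact mul_le_mul_of_nonneg_left (h k) (by positivity)
  calc co μ k * y ^ k ≤ 1 / m * (1 / k.factorial) * y ^ k :=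
        mul_le_mul_of_nonneg_right h1 (by positivity)
    _ = _ := by ring

theorem summable_SS {μ : ℝ} (hμ : -1 < μ) (y : ℝ) : Summable (fun k => co μ k * y ^ k) := by
  refine Summable.of_norm_bounded (summable_abs hμ (abs_nonneg y)) (fun k => ?_)
  rw [Real.norm_eq_abs, abs_mul, abs_pow, abs_of_pos (co_pos hμ k)]

theorem co_succ {μ : ℝ} (hμ : -1 < μ) (k : ℕ) : co μ (k + 1) * ((k : ℝ) + 1) = co (μ + 1) k := by
  unfold co
  have e : (((k + 1 : ℕ) : ℝ) + μ + 1) = (k : ℝ) + (μ + 1) + 1 := by push_cast; ring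
  have := gamma_pos (show -1 < μ + 1 by linarith) k
  rw [e, Nat.factorial_succ]
  push_cast
  field_simp

theorem co_shift {μ : ℝ} (hμ : -1 < μ) (k : ℕ) : co μ k = ((k : ℝ) + μ + 1) * co (μ + 1) k := by
  unfold co
  have e : (k : ℝ) + (μ + 1) + 1 = (((k + 1 : ℕ) : ℝ) + μ + 1) := by push_cast; ring
  have := gamma_pos hμ k
  have h2 : (0 : ℝ) < (k : ℝ) + μ + 1 := by
    have : (0 : ℝ) ≤ k := Nat.cast_nonneg k
    linarith
  rw [e, gamma_succ hμ]
  field_simp

theorem SS_eq {μ : ℝ} (hμ : -1 < μ) (y : ℝ) :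
    SS μ y = co μ 0 + ∑' k : ℕ, co μ (k + 1) * y ^ (k + 1) := by
  unfold SS
  rw [(summable_SS hμ y).tsum_eq_zero_add]
  simp

theorem SS_pos {μ : ℝ} (hμ : -1 < μ) {y : ℝ} (hy : 0 ≤ y) : 0 < SS μ y := by
  rw [SS_eq hμ]
  have := co_pos hμ 0
  have h2 : 0 ≤ ∑' k : ℕ, co μ (k + 1) * y ^ (k + 1) :=
    tsum_nonneg (fun k => mul_nonneg (co_pos hμ _).le (by positivity))
  linarith

theorem hasDerivAt_SS {μ : ℝ} (hμ : -1 < μ) (y : ℝ) : HasDerivAt (SS μ) (SS (μ + 1) y) y := by
  have hμ' : -1 < μ + 1 := by linarith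
  have h := hasDerivAt_tsum_of_isPreconnected (𝕜 := ℝ) (t := Ioo (-(|y| + 1)) (|y| + 1))
    (g := fun k z => co μ (k + 1) * z ^ (k + 1)) (g' := fun k z => co (μ + 1) k * z ^ k)
    (y₀ := y) (y := y)
    (summable_abs hμ' (show 0 ≤ |y| + 1 by positivity)) isOpen_Ioo isPreconnected_Ioo
    (fun k z _ => by
      refine ((hasDerivAt_pow (k + 1) z).const_mul (co μ (k + 1))).congr_deriv ?_
      rw [← co_succ hμ]
      simp; ring)
    (fun k z hz => by
      rw [Real.norm_eq_abs, abs_mul, abs_pow, abs_of_pos (co_pos hμ' k)]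
      apply mul_le_mul_of_nonneg_left _ (co_pos hμ' k).le
      exact pow_le_pow_left₀ (abs_nonneg _) (abs_le.2 ⟨hz.1.le, hz.2.le⟩) k)
    ⟨by linarith [neg_abs_le y], by linarith [le_abs_self y]⟩
    ((summable_nat_add_iff 1).2 (summable_SS hμ y))
    ⟨by linarith [neg_abs_le y], by linarith [le_abs_self y]⟩
  have e : SS μ = fun z => co μ 0 + ∑' k : ℕ, co μ (k + 1) * z ^ (k + 1) :=
    funext (SS_eq hμ)
  rw [e]
  exact h.const_add _

theorem SS_rec {μ : ℝ} (hμ : -1 < μ) (y : ℝ) :
    SS μ y = (μ + 1) * SS (μ + 1) y + y * SS (μ + 1 + 1) y := by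
  have hμ1 : -1 < μ + 1 := by linarith
  have hμ2 : -1 < μ + 1 + 1 := by linarith
  rw [SS_eq hμ, SS_eq hμ1, mul_add]
  unfold SS
  rw [← tsum_mul_left, ← tsum_mul_left, add_assoc, ← Summable.tsum_add
    (((summable_nat_add_iff 1).2 (summable_SS hμ1 y)).mul_left _)
    ((summable_SS hμ2 y).mul_left _)]
  congr 1
  · rw [co_shift hμ]; simp
  · refine tsum_congr (fun k => ?_)
    rw [co_shift hμ, ← co_succ hμ1]
    push_cast; ring

theorem besselI_eq (μ : ℝ) {x : ℝ} (hx : 0 < x) :
    besselI μ x = (x / 2) ^ μ * SS μ (x ^ 2 / 4) := by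
  unfold besselI SS
  rw [← tsum_mul_left]
  refine tsum_congr (fun k => ?_)
  have h : 0 < x / 2 := by linarith
  have e : (2 * (k : ℝ)) = ((2 * k : ℕ) : ℝ) := by push_cast; ring
  rw [Real.rpow_add h, e, Real.rpow_natCast, pow_mul]
  unfold co
  have : (x / 2) ^ 2 = x ^ 2 / 4 := by ring
  rw [this]; ring

noncomputable def AA (μ t : ℝ) : ℝ := SS μ (t ^ 2 / 4)

theorem AA_pos {μ : ℝ} (hμ : -1 < μ) (t : ℝ) : 0 < AA μ t := SS_pos hμ (by positivity)

theorem hasDerivAt_AA {μ : ℝ} (hμ : -1 < μ) (t : ℝ) :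
    HasDerivAt (AA μ) (t / 2 * AA (μ + 1) t) t := by
  have h1 : HasDerivAt (fun t : ℝ => t ^ 2 / 4) (t / 2) t := by
    refine ((hasDerivAt_pow 2 t).div_const 4).congr_deriv ?_
    simp; ring
  refine ((hasDerivAt_SS hμ (t ^ 2 / 4)).comp t h1).congr_deriv ?_
  unfold AA; ring

noncomputable def RR (μ t : ℝ) : ℝ := AA (μ + 1) t / AA μ t

noncomputable def eta (μ t : ℝ) : ℝ := t ^ 2 / 2 * RR μ t - t + (μ + 1 / 2)

theorem hasDerivAt_RR {μ : ℝ} (hμ : -1 < μ) (t : ℝ) :
    HasDerivAt (RR μ) (t / 2 * (AA (μ + 1 + 1) t / AA μ t - RR μ t ^ 2)) t := by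
  have h := (hasDerivAt_AA (show -1 < μ + 1 by linarith) t).div (hasDerivAt_AA hμ t)
    (AA_pos hμ t).ne'
  refine h.congr_deriv ?_
  have := AA_pos hμ t
  unfold RR
  field_simp

theorem hasDerivAt_eta0 {μ : ℝ} (hμ : -1 < μ) (t : ℝ) :
    HasDerivAt (eta μ) (t - μ * t * RR μ t - t ^ 3 / 4 * RR μ t ^ 2 - 1) t := by
  have h1 : HasDerivAt (fun t : ℝ => t ^ 2 / 2) t t := by
    refine ((hasDerivAt_pow 2 t).div_const 2).congr_deriv ?_
    simp
  have h := ((h1.mul (hasDerivAt_RR hμ t)).sub (hasDerivAt_id t)).add_const (μ + 1 / 2)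
  refine h.congr_deriv ?_
  have hp := AA_pos hμ t
  have hrec : AA μ t = (μ + 1) * AA (μ + 1) t + t ^ 2 / 4 * AA (μ + 1 + 1) t := SS_rec hμ _
  have h2 : t ^ 2 / 4 * (AA (μ + 1 + 1) t / AA μ t) = 1 - (μ + 1) * RR μ t := by
    unfold RR
    field_simp
    linarith
  have h3 : t ^ 2 / 2 * (t / 2 * (AA (μ + 1 + 1) t / AA μ t - RR μ t ^ 2)) =
      t * (t ^ 2 / 4 * (AA (μ + 1 + 1) t / AA μ t)) - t ^ 3 / 4 * RR μ t ^ 2 := by ring
  rw [h3, h2]; ring

theorem hasDerivAt_eta {μ : ℝ} (hμ : -1 < μ) {t : ℝ} (ht : 0 < t) :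
    HasDerivAt (eta μ)
      (((μ ^ 2 - 1 / 4) - eta μ t ^ 2 - 2 * t * eta μ t + eta μ t) / t) t := by
  refine (hasDerivAt_eta0 hμ t).congr_deriv ?_
  unfold eta
  field_simp
  ring

theorem eta_lim {μ : ℝ} (hμ : -1 < μ) : Tendsto (eta μ) atTop (𝓝 0) := by
  apply eta_tendsto (q := μ ^ 2 - 1 / 4) (m := μ + 1 / 2) (by linarith)
    (fun t ht => hasDerivAt_eta hμ ht)
  intro t _
  have : 0 < RR μ t := div_pos (AA_pos (by linarith) t) (AA_pos hμ t)
  have : 0 ≤ t ^ 2 / 2 * RR μ t := by positivity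
  unfold eta
  linarith

theorem not_mono {μ : ℝ} (hμ : -1 < μ) : ¬ MonotoneOn (fun t => t * eta μ t) (Ioi 0) := by
  intro hmono
  have hce : Continuous (eta μ) :=
    continuous_iff_continuousAt.2 (fun t => (hasDerivAt_eta0 hμ t).continuousAt)
  have hcR : Continuous (RR μ) :=
    continuous_iff_continuousAt.2 (fun t => (hasDerivAt_RR hμ t).continuousAt)
  have hlim : ∀ F : ℝ → ℝ, Continuous F → Tendsto F (𝓝[>] 0) (𝓝 (F 0)) := fun F hF =>
    (hF.tendsto 0).mono_left nhdsWithin_le_nhds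
  have hnn : ∀ t, 0 < t → 0 ≤ t * eta μ t := by
    intro t ht
    have h1 := hlim (fun t => t * eta μ t) (continuous_id.mul hce)
    simp only [zero_mul] at h1
    refine le_of_tendsto h1 ?_
    filter_upwards [Ioo_mem_nhdsGT ht] with s hs
    exact hmono hs.1 ht hs.2.le
  have hex : ∃ t0, 0 < t0 ∧ 0 < t0 * eta μ t0 := by
    by_contra hcon
    push Not at hcon
    have h0 : ∀ t, 0 < t → eta μ t = 0 := by
      intro t ht
      have := le_antisymm (hcon t ht) (hnn t ht)
      rcases mul_eq_zero.1 this with h | h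
      · exact absurd h ht.ne'
      · exact h
    have h1 : eta μ 0 = 0 := by
      refine tendsto_nhds_unique (hlim _ hce) (tendsto_const_nhds.congr' ?_)
      filter_upwards [self_mem_nhdsWithin] with s hs
      exact (h0 s hs).symm
    have hm : μ + 1 / 2 = 0 := by simpa [eta] using h1
    have h2 : (0 : ℝ) * RR μ 0 = 2 := by
      refine tendsto_nhds_unique (hlim (fun t => t * RR μ t) (continuous_id.mul hcR))
        (tendsto_const_nhds.congr' ?_)
      filter_upwards [self_mem_nhdsWithin] with s hs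
      have hs' : 0 < s := hs
      have h3 := h0 s hs'
      unfold eta at h3
      rw [hm] at h3
      have h4 : s * (s * RR μ s - 2) = 0 := by linarith
      rcases mul_eq_zero.1 h4 with h | h
      · exact absurd h hs'.ne'
      · linarith
    simp at h2
  obtain ⟨t0, h1, h2⟩ := hex
  refine sigma_not_mono (σ := fun t => t * eta μ t) (q := μ ^ 2 - 1 / 4) (fun t ht => ?_)
    hmono h1 h2
  refine ((hasDerivAt_id t).mul (hasDerivAt_eta hμ ht)).congr_deriv ?_
  simp only [id]
  field_simp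
  ring

theorem exists_v {w : ℝ} (hw : 2 < w) : ∃ v, 1 < v ∧ v + 1 / v = w := by
  have h1 : 0 < w ^ 2 - 4 := by nlinarith
  have h2 := Real.sq_sqrt h1.le
  have h3 := Real.sqrt_pos.2 h1
  refine ⟨(w + √(w ^ 2 - 4)) / 2, by linarith, ?_⟩
  have : w + √(w ^ 2 - 4) ≠ 0 := by linarith
  field_simp
  nlinarith

theorem not_HCM {μ a b c p : ℝ} {κ : ℕ} (hμ : -1 < μ) (ha : 0 < a) (hc : 0 < c) (hκ : 0 < κ)
    {f : ℝ → ℝ} (hf : ∀ x, 0 < x → f x = c * (x ^ p * Real.exp (-b * x) * AA μ (a * x) ^ κ)) :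
    ¬ IsHCM f := by
  intro H
  have fpos : ∀ x, 0 < x → 0 < f x := by
    intro x hx
    have := AA_pos hμ (a * x)
    rw [hf x hx]; positivity
  let Lf : ℝ → ℝ := fun x => Real.log c + p * Real.log x - b * x + κ * Real.log (AA μ (a * x))
  have hL : ∀ x, 0 < x → Real.log (f x) = Lf x := by
    intro x hx
    have := AA_pos hμ (a * x)
    rw [hf x hx, Real.log_mul hc.ne' (by positivity), Real.log_mul (by positivity) (by positivity),
      Real.log_mul (by positivity) (by positivity), Real.log_rpow hx, Real.log_exp, Real.log_pow]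
    simp only [Lf]; ring
  have hLd : ∀ x, 0 < x → HasDerivAt Lf
      ((p - b * x + κ * (eta μ (a * x) + a * x - (μ + 1 / 2))) / x) x := by
    intro x hx
    have h1 := ((hasDerivAt_AA hμ (a * x)).comp x ((hasDerivAt_id x).const_mul a)).log
      (AA_pos hμ (a * x)).ne'
    have h2 := ((((Real.hasDerivAt_log hx.ne').const_mul p).const_add (Real.log c)).sub
      ((hasDerivAt_id x).const_mul b)).add (h1.const_mul (κ : ℝ))
    refine h2.congr_deriv ?_
    have := AA_pos hμ (a * x)
    simp only [Function.comp, eta, RR]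
    field_simp
    ring
  -- monotonicity for finite `u`
  have step : ∀ u, 0 < u → ∀ v1 v2, 1 < v2 → v2 < v1 →
      (eta μ (a * (u * v2)) - eta μ (a * (u / v2))) / (v2 - 1 / v2) ≤
      (eta μ (a * (u * v1)) - eta μ (a * (u / v1))) / (v1 - 1 / v1) := by
    intro u hu v1 v2 h2 h12
    obtain ⟨g, g1, g2, g3⟩ := H u hu
    have gpos : ∀ w, 2 < w → 0 < g w := by
      intro w hw
      obtain ⟨v, hv, rfl⟩ := exists_v hw
      rw [← g3 v (by linarith) hv.ne']
      exact mul_pos (fpos _ (by positivity)) (fpos _ (by positivity))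
    have hw2 : ∀ v : ℝ, 1 < v → 2 < v + 1 / v := by
      intro v hv
      have : v + 1 / v - 2 = (v - 1) ^ 2 / v := by field_simp; ring
      have : 0 < (v - 1) ^ 2 / v := by
        apply div_pos _ (by linarith)
        have : 0 < v - 1 := by linarith
        positivity
      linarith
    have hder : ∀ v, 1 < v → HasDerivAt (fun w => Real.log (g w))
        (-b * u + κ * (a * u) + κ * ((eta μ (a * (u * v)) - eta μ (a * (u / v))) / (v - 1 / v)))
        (v + 1 / v) := by
      intro v hv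
      have hv0 : 0 < v := by linarith
      have d1 : DifferentiableAt ℝ g (v + 1 / v) :=
        (g1.contDiffAt (Ioi_mem_nhds (hw2 v hv))).differentiableAt (by simp)
      have d2 := d1.hasDerivAt.log (gpos _ (hw2 v hv)).ne'
      refine d2.congr_deriv ?_
      set D := deriv g (v + 1 / v) / g (v + 1 / v) with hD
      have d3 : HasDerivAt (fun v : ℝ => v + 1 / v) (1 - 1 / v ^ 2) v := by
        have := (hasDerivAt_id v).add ((hasDerivAt_const v (1 : ℝ)).div (hasDerivAt_id v) hv0.ne')
        refine this.congr_deriv ?_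
        simp only [id]; ring
      have d4 := d2.comp v d3
      have d5 : HasDerivAt (fun v : ℝ => u * v) u v := by
        simpa using (hasDerivAt_id v).const_mul u
      have d6 : HasDerivAt (fun v : ℝ => u / v) (-u / v ^ 2) v := by
        have := (hasDerivAt_const v u).div (hasDerivAt_id v) hv0.ne'
        refine this.congr_deriv ?_
        simp only [id]; ring
      have d7 := ((hLd (u * v) (by positivity)).comp v d5).add
        ((hLd (u / v) (by positivity)).comp v d6)
      have d8 := d7.congr_of_eventuallyEq (f₁ := (fun w => Real.log (g w)) ∘ fun v => v + 1 / v)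
        (by
          filter_upwards [Ioi_mem_nhds hv] with z hz
          have hz' : 1 < z := hz
          have hz0 : 0 < z := by linarith
          simp only [Function.comp, Pi.add_apply]
          rw [← g3 z hz0 hz'.ne', Real.log_mul (fpos _ (by positivity)).ne'
            (fpos _ (by positivity)).ne', hL _ (by positivity), hL _ (by positivity)])
      have d9 := d4.unique d8
      have n1 : v ^ 2 - 1 ≠ 0 := by nlinarith
      have n2 : v - 1 / v = (v ^ 2 - 1) / v := by field_simp
      have n3 : 1 - 1 / v ^ 2 = (v ^ 2 - 1) / v ^ 2 := by field_simp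
      have n4 : (v ^ 2 - 1) / v ^ 2 ≠ 0 := div_ne_zero n1 (by positivity)
      rw [n3] at d9
      apply mul_right_cancel₀ n4
      rw [d9, n2]
      field_simp
      ring
    have hlt : v2 + 1 / v2 < v1 + 1 / v1 := by
      have e : v1 + 1 / v1 - (v2 + 1 / v2) = (v1 - v2) * (v1 * v2 - 1) / (v1 * v2) := by
        have : v1 ≠ 0 := by linarith
        have : v2 ≠ 0 := by linarith
        field_simp; ring
      have : 0 < (v1 - v2) * (v1 * v2 - 1) / (v1 * v2) := by
        apply div_pos (mul_pos (by linarith) (by nlinarith)) (by nlinarith)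
      linarith
    have := (CM_of_iteratedDeriv g1 g2).log_deriv_mono gpos (hw2 v2 h2) hlt (hder v2 h2)
      (hder v1 (by linarith))
    have hk : (0 : ℝ) < κ := by exact_mod_cast hκ
    have h3 : (κ : ℝ) * ((eta μ (a * (u * v2)) - eta μ (a * (u / v2))) / (v2 - 1 / v2)) ≤
      κ * ((eta μ (a * (u * v1)) - eta μ (a * (u / v1))) / (v1 - 1 / v1)) := by linarith
    exact le_of_mul_le_mul_left h3 hk
  apply not_mono hμ
  intro t1 ht1 t2 ht2 h12
  have ht1' : 0 < t1 := ht1
  have ht2' : 0 < t2 := ht2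
  rcases eq_or_lt_of_le h12 with rfl | hlt
  · exact le_rfl
  have hlim : ∀ t, 0 < t → Tendsto (fun U : ℝ => (eta μ (U ^ 2 / t) - eta μ t) *
      (t / (1 - t ^ 2 * (U ^ 2)⁻¹))) atTop (𝓝 (-(t * eta μ t))) := by
    intro t ht
    have h1 : Tendsto (fun U : ℝ => U ^ 2) atTop atTop := tendsto_pow_atTop (by norm_num)
    have h2 := ((eta_lim hμ).comp (h1.atTop_div_const ht)).sub_const (eta μ t)
    have h3 := (tendsto_const_nhds (x := t)).div
      ((tendsto_const_nhds (x := (1 : ℝ))).sub
        ((tendsto_inv_atTop_zero.comp h1).const_mul (t ^ 2))) (by simp)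
    have h4 := h2.mul h3
    have e : (0 - eta μ t) * (t / (1 - t ^ 2 * 0)) = -(t * eta μ t) := by simp; ring
    rw [e] at h4
    exact h4
  have key := le_of_tendsto_of_tendsto (hlim t2 ht2') (hlim t1 ht1') (by
    filter_upwards [eventually_gt_atTop t2] with U hU
    have hU0 : 0 < U := by linarith
    have h1 := step (U / a) (by positivity) (U / t1) (U / t2)
      (by rw [lt_div_iff₀ ht2']; linarith) (div_lt_div_of_pos_left hU0 ht1' hlt)
    have e : ∀ t, 0 < t → t < U → (eta μ (U ^ 2 / t) - eta μ t) * (t / (1 - t ^ 2 * (U ^ 2)⁻¹)) =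
        U * ((eta μ (a * (U / a * (U / t))) - eta μ (a * (U / a / (U / t)))) /
          (U / t - 1 / (U / t))) := by
      intro t ht htU
      have e1 : a * (U / a * (U / t)) = U ^ 2 / t := by field_simp
      have e2 : a * (U / a / (U / t)) = t := by field_simp
      have e3 : U ^ 2 - t ^ 2 ≠ 0 := by nlinarith
      have e4 : 1 - t ^ 2 * (U ^ 2)⁻¹ = (U ^ 2 - t ^ 2) / U ^ 2 := by field_simp
      have e5 : U / t - 1 / (U / t) = (U ^ 2 - t ^ 2) / (U * t) := by field_simp
      rw [e1, e2, e4, e5]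
      field_simp
    rw [e t2 ht2' hU, e t1 ht1' (by linarith)]
    exact mul_le_mul_of_nonneg_left h1 hU0.le)
  simp only
  linarith

theorem main :
    (∀ μ ν a b c : ℝ, -1 < μ → 0 < μ + ν → 0 < a → a < b → 0 < c →
      ¬ IsHCM (fun x => c * (x ^ (ν - 1) * Real.exp (-b * x) * besselI μ (a * x)))) ∧
    (∀ μ a b c : ℝ, -1 / 4 < μ → 0 < a → 2 * a < b → 0 < c →
      ¬ IsHCM (fun x => c * (x ^ (2 * μ) * Real.exp (-b * x) * besselI μ (a * x) ^ 2))) := by
  constructor
  · intro μ ν a b c hμ _ ha _ hc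
    refine not_HCM (μ := μ) (a := a) (b := b) (c := c * (a / 2) ^ μ) (p := ν - 1 + μ) (κ := 1)
      hμ ha (by positivity) one_pos (fun x hx => ?_)
    have e : a * x / 2 = a / 2 * x := by ring
    rw [besselI_eq μ (by positivity), e, Real.mul_rpow (by positivity) hx.le, Real.rpow_add hx]
    unfold AA; ring
  · intro μ a b c hμ ha _ hc
    refine not_HCM (μ := μ) (a := a) (b := b) (c := c * ((a / 2) ^ μ) ^ 2) (p := 2 * μ + μ + μ)
      (κ := 2) (by linarith) ha (by positivity) two_pos (fun x hx => ?_)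
    have e : a * x / 2 = a / 2 * x := by ring
    rw [besselI_eq μ (by positivity), e, Real.mul_rpow (by positivity) hx.le, Real.rpow_add hx,
      Real.rpow_add hx]
    unfold AA; ring

end Pool.Agent.P.MP_ede858_pr
end
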