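import Mathlib
import Pool.Agent.P.MP_ede858_pr.Defs2
import Pool.Agent.K.MP_ede858_pr.C0

-- part Pool.Agent.P.MP_ede858_pr.Haus
section

set_option autoImplicit false

open Set Filter Topology MeasureTheory Polynomial
open scoped unitInterval BoundedContinuousFunction

namespace Pool.Agent.P.MP_ede858_pr

/-! The Hausdorff moment problem for a functional on real polynomials. -/

theorem haus_pos (Λ : ℝ[X] →ₗ[ℝ] ℝ) (h0 : ∀ p : ℝ[X], 0 ≤ Λ (X * p ^ 2))
    (h1 : ∀ p : ℝ[X], 0 ≤ Λ ((1 - X) * p ^ 2)) (m n : ℕ) : 0 ≤ Λ (X ^ m * (1 - X) ^ n) := by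
  obtain ⟨i, hi⟩ := Nat.even_or_odd' m
  obtain ⟨j, hj⟩ := Nat.even_or_odd' n
  rcases hi with rfl | rfl <;> rcases hj with rfl | rfl
  · have e : (X : ℝ[X]) ^ (2 * i) * (1 - X) ^ (2 * j)
        = X * (X ^ i * (1 - X) ^ j) ^ 2 + (1 - X) * (X ^ i * (1 - X) ^ j) ^ 2 := by ring
    rw [e, map_add]
    exact add_nonneg (h0 _) (h1 _)
  · have e : (X : ℝ[X]) ^ (2 * i) * (1 - X) ^ (2 * j + 1)
        = (1 - X) * (X ^ i * (1 - X) ^ j) ^ 2 := by ring
    rw [e]
    exact h1 _
  · have e : (X : ℝ[X]) ^ (2 * i + 1) * (1 - X) ^ (2 * j)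
        = X * (X ^ i * (1 - X) ^ j) ^ 2 := by ring
    rw [e]
    exact h0 _
  · have e : (X : ℝ[X]) ^ (2 * i + 1) * (1 - X) ^ (2 * j + 1)
        = X * (X ^ i * (1 - X) ^ (j + 1)) ^ 2 + (1 - X) * (X ^ (i + 1) * (1 - X) ^ j) ^ 2 := by
      ring
    rw [e, map_add]
    exact add_nonneg (h0 _) (h1 _)

theorem X_mul_deriv_pow (j : ℕ) : (X : ℝ[X]) * derivative (X ^ j) = (j : ℝ[X]) * X ^ j := by
  cases j with
  | zero => simp
  | succ j => rw [derivative_X_pow_succ]; simp; ring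

theorem oneSub_mul_deriv_pow (n : ℕ) :
    (1 - X : ℝ[X]) * derivative ((1 - X) ^ n) = -((n : ℝ[X]) * (1 - X) ^ n) := by
  cases n with
  | zero => simp
  | succ n => rw [derivative_pow_succ]; simp; ring

theorem bern_deriv {N j : ℕ} (hj : j ≤ N) :
    X * (1 - X) * derivative (bernsteinPolynomial ℝ N j)
      = ((j : ℝ[X]) - (N : ℝ[X]) * X) * bernsteinPolynomial ℝ N j := by
  obtain ⟨n, rfl⟩ := Nat.exists_eq_add_of_le hj
  unfold bernsteinPolynomial
  rw [Nat.add_sub_cancel_left, derivative_mul, derivative_mul, derivative_natCast]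
  have h1 := X_mul_deriv_pow j
  have h2 := oneSub_mul_deriv_pow n
  push_cast
  linear_combination ((j + n).choose j : ℝ[X]) * (1 - X) * (1 - X) ^ n * h1
    + ((j + n).choose j : ℝ[X]) * X * X ^ j * h2

/-- The Bernstein operator on polynomials. -/
noncomputable def bernT (N : ℕ) (p : ℝ[X]) : ℝ[X] :=
  ∑ j ∈ Finset.range (N + 1), C (p.eval ((j : ℝ) / N)) * bernsteinPolynomial ℝ N j

theorem bernT_step {N : ℕ} (hN : N ≠ 0) (p : ℝ[X]) :
    bernT N (p * X) = X * bernT N p
      + (1 / (N : ℝ)) • (X * (1 - X) * derivative (bernT N p)) := by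
  unfold bernT
  rw [derivative_sum, Finset.mul_sum, Finset.mul_sum, Finset.smul_sum, ← Finset.sum_add_distrib]
  refine Finset.sum_congr rfl (fun j hj => ?_)
  have hj' : j ≤ N := Nat.lt_succ_iff.1 (Finset.mem_range.1 hj)
  rw [derivative_C_mul, mul_left_comm (X * (1 - X)), bern_deriv hj', smul_eq_C_mul, eval_mul,
    eval_X, C_mul]
  have hN' : (N : ℝ) ≠ 0 := Nat.cast_ne_zero.2 hN
  have e1 : C (1 / (N : ℝ)) * (N : ℝ[X]) = 1 := by
    rw [← C_eq_natCast, ← C_mul, one_div_mul_cancel hN', C_1]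
  have e2 : C ((j : ℝ) / N) = C (1 / (N : ℝ)) * (j : ℝ[X]) := by
    rw [← C_eq_natCast, ← C_mul]
    congr 1
    ring
  rw [e2]
  linear_combination (C (p.eval ((j : ℝ) / N)) * X * bernsteinPolynomial ℝ N j) * e1

theorem tendsto_bernT (p : ℝ[X]) :
    ∀ Λ : ℝ[X] →ₗ[ℝ] ℝ, Tendsto (fun N => Λ (bernT N p)) atTop (𝓝 (Λ p)) := by
  induction p using Polynomial.induction_on with
  | C a =>
    intro Λ
    have : ∀ N, bernT N (C a) = C a := by
      intro N
      unfold bernT
      simp only [eval_C]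
      rw [← Finset.mul_sum, bernsteinPolynomial.sum, mul_one]
    simp only [this]
    exact tendsto_const_nhds
  | add p q hp hq =>
    intro Λ
    have : ∀ N, bernT N (p + q) = bernT N p + bernT N q := by
      intro N
      unfold bernT
      rw [← Finset.sum_add_distrib]
      refine Finset.sum_congr rfl (fun j _ => ?_)
      rw [eval_add, C_add, add_mul]
    simp only [this, map_add]
    exact (hp Λ).add (hq Λ)
  | monomial n a ih =>
    intro Λ
    have h1 := ih (Λ ∘ₗ LinearMap.mulLeft ℝ (X : ℝ[X]))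
    have h2 := ih (Λ ∘ₗ LinearMap.mulLeft ℝ (X * (1 - X) : ℝ[X]) ∘ₗ derivative)
    simp only [LinearMap.comp_apply, LinearMap.mulLeft_apply] at h1 h2
    have h3 := h1.add ((tendsto_one_div_atTop_nhds_zero_nat (𝕜 := ℝ)).mul h2)
    rw [zero_mul, add_zero] at h3
    have e : C a * X ^ (n + 1) = C a * X ^ n * X := by ring
    have e' : X * (C a * X ^ n) = C a * X ^ n * X := by ring
    rw [e, ← e']
    refine h3.congr' ?_
    filter_upwards [eventually_ne_atTop 0] with N hN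
    rw [e', bernT_step hN, map_add, map_smul, smul_eq_mul]

theorem haus_unit (Λ : ℝ[X] →ₗ[ℝ] ℝ) (h : Λ 1 = 1) (h0 : ∀ p : ℝ[X], 0 ≤ Λ (X * p ^ 2))
    (h1 : ∀ p : ℝ[X], 0 ≤ Λ ((1 - X) * p ^ 2)) :
    ∃ θ : Measure I, IsProbabilityMeasure θ ∧ ∀ p : ℝ[X], ∫ t, p.eval (t : ℝ) ∂θ = Λ p := by
  have hw : ∀ N j, 0 ≤ Λ (bernsteinPolynomial ℝ N j) := by
    intro N j
    unfold bernsteinPolynomial
    rw [mul_assoc, ← nsmul_eq_mul, map_nsmul]
    exact nsmul_nonneg (haus_pos Λ h0 h1 _ _) _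
  let μ : ℕ → Measure I := fun N => ∑ j ∈ Finset.range (N + 1),
    ENNReal.ofReal (Λ (bernsteinPolynomial ℝ N j)) •
      Measure.dirac (projIcc (0 : ℝ) 1 zero_le_one ((j : ℝ) / N))
  have hμ : ∀ N, IsProbabilityMeasure (μ N) := by
    intro N
    constructor
    simp only [μ, Measure.coe_finsetSum, Finset.sum_apply, Measure.smul_apply, measure_univ,
      smul_eq_mul, mul_one]
    rw [← ENNReal.ofReal_sum_of_nonneg (fun j _ => hw N j), ← map_sum, bernsteinPolynomial.sum, h,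
      ENNReal.ofReal_one]
  have hint : ∀ N (p : ℝ[X]), ∫ t, p.eval (t : ℝ) ∂(μ N) = Λ (bernT N p) := by
    intro N p
    simp only [μ]
    rw [integral_finsetSum_measure]
    · unfold bernT
      rw [map_sum]
      refine Finset.sum_congr rfl (fun j hj => ?_)
      have hj' : j ≤ N := Nat.lt_succ_iff.1 (Finset.mem_range.1 hj)
      have hz : ((j : ℝ) / N) ∈ Icc (0 : ℝ) 1 :=
        ⟨by positivity, div_le_one_of_le₀ (by exact_mod_cast hj') (by positivity)⟩
      rw [integral_smul_measure, integral_dirac, ENNReal.toReal_ofReal (hw N j),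
        projIcc_of_mem _ hz, ← smul_eq_C_mul, map_smul, smul_eq_mul, smul_eq_mul, mul_comm]
    · intro j _
      exact (integrable_dirac (by simp)).smul_measure (by simp)
  let P : ℕ → ProbabilityMeasure I := fun N => ⟨μ N, hμ N⟩
  let U : Ultrafilter ℕ := Ultrafilter.of atTop
  obtain ⟨θ, -, hθ⟩ := isCompact_univ.ultrafilter_le_nhds (U.map P) (by simp)
  have hθ' : Tendsto P U (𝓝 θ) := hθ
  refine ⟨θ, θ.2, fun p => ?_⟩
  have h2 := ProbabilityMeasure.tendsto_iff_forall_integral_tendsto.1 hθ'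
    (BoundedContinuousFunction.mkOfCompact ⟨fun t : I => p.eval (t : ℝ), by fun_prop⟩)
  have h3 : Tendsto (fun N => Λ (bernT N p)) U (𝓝 (Λ p)) :=
    (tendsto_bernT p Λ).mono_left (Ultrafilter.of_le atTop)
  refine tendsto_nhds_unique h2 (h3.congr (fun N => ?_))
  rw [← hint]
  rfl

theorem haus_Icc (Λ : ℝ[X] →ₗ[ℝ] ℝ) {lo hi : ℝ} (hlh : lo < hi) (h : Λ 1 = 1)
    (h0 : ∀ p : ℝ[X], 0 ≤ Λ ((X - C lo) * p ^ 2))
    (h1 : ∀ p : ℝ[X], 0 ≤ Λ ((C hi - X) * p ^ 2)) :
    ∃ θ : Measure ℝ, IsProbabilityMeasure θ ∧ (∀ᵐ t ∂θ, t ∈ Icc lo hi) ∧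
      ∀ p : ℝ[X], ∫ t, p.eval t ∂θ = Λ p := by
  have hd : 0 < hi - lo := sub_pos.2 hlh
  set u : ℝ[X] := (1 / (hi - lo)) • (X - C lo) with hu
  have hu1 : 1 - u = (1 / (hi - lo)) • (C hi - X) := by
    have e : C (1 / (hi - lo)) * (C hi - C lo) = (1 : ℝ[X]) := by
      rw [← C_sub, ← C_mul, one_div_mul_cancel hd.ne', C_1]
    rw [hu, smul_eq_C_mul, smul_eq_C_mul]
    linear_combination (-1 : ℝ[X]) * e
  obtain ⟨θ, hθ, hp⟩ := haus_unit (Λ ∘ₗ (aeval u).toLinearMap) (by simpa using h)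
    (fun p => by
      simp only [LinearMap.comp_apply, AlgHom.toLinearMap_apply, map_mul, map_pow, aeval_X]
      rw [hu, smul_mul_assoc, map_smul, smul_eq_mul]
      exact mul_nonneg (by positivity) (h0 _))
    (fun p => by
      simp only [LinearMap.comp_apply, AlgHom.toLinearMap_apply, map_mul, map_pow, aeval_X,
        map_sub, map_one]
      rw [hu1, smul_mul_assoc, map_smul, smul_eq_mul]
      exact mul_nonneg (by positivity) (h1 _))
  have hm : Measurable (fun t : I => lo + (hi - lo) * (t : ℝ)) := by fun_prop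
  refine ⟨θ.map (fun t : I => lo + (hi - lo) * (t : ℝ)), Measure.isProbabilityMeasure_map
    hm.aemeasurable, ?_, fun p => ?_⟩
  · refine (ae_map_iff (p := fun t => t ∈ Icc lo hi) hm.aemeasurable measurableSet_Icc).2 ?_
    refine Eventually.of_forall (fun t => ⟨?_, ?_⟩)
    · nlinarith [t.2.1]
    · nlinarith [t.2.2]
  · rw [integral_map hm.aemeasurable (by fun_prop)]
    have h2 := hp (p.comp (C lo + C (hi - lo) * X))
    simp only [eval_comp, eval_add, eval_mul, eval_C, eval_X] at h2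
    rw [h2]
    simp only [LinearMap.comp_apply, AlgHom.toLinearMap_apply]
    congr 1
    rw [aeval_comp]
    have e : aeval u (C lo + C (hi - lo) * X) = (X : ℝ[X]) := by
      have e : C (hi - lo) * C (1 / (hi - lo)) = (1 : ℝ[X]) := by
        rw [← C_mul, mul_one_div_cancel hd.ne', C_1]
      simp only [map_add, map_mul, aeval_C, aeval_X, algebraMap_eq]
      rw [hu, smul_eq_C_mul]
      linear_combination (X - C lo) * e
    rw [e, aeval_X_left_apply]

end Pool.Agent.P.MP_ede858_pr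
end

-- part Pool.Agent.P.MP_ede858_pr.Jac
section

set_option autoImplicit false

open Set Filter Topology MeasureTheory Polynomial

namespace Pool.Agent.P.MP_ede858_pr

/-! Jacobi operators on sequences and their spectral measures. -/

/-- The sequence moved one step to the right, with `z` put in front. -/
def prev {R : Type} (z : R) (v : ℕ → R) (k : ℕ) : R := if k = 0 then z else v (k - 1)

@[simp] theorem prev_zero {R : Type} (z : R) (v : ℕ → R) : prev z v 0 = z := rfl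

@[simp] theorem prev_succ {R : Type} (z : R) (v : ℕ → R) (k : ℕ) : prev z v (k + 1) = v k := by
  simp [prev]

/-- The tridiagonal operator with diagonal `d`, upper entries `e` and lower entries `1`. -/
def jac (d e : ℕ → ℝ) : Module.End ℝ (ℕ → ℝ) where
  toFun v := fun k => prev 0 v k + d k * v k + e k * v (k + 1)
  map_add' u v := by
    funext k
    cases k <;> simp <;> ring
  map_smul' c v := by
    funext k
    cases k <;> simp <;> ring

theorem jac_apply (d e v : ℕ → ℝ) (k : ℕ) :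
    jac d e v k = prev 0 v k + d k * v k + e k * v (k + 1) := rfl

/-- The first basis vector. -/
def e0 : ℕ → ℝ := fun k => if k = 0 then 1 else 0

/-- The vector `p(J) e0`. -/
noncomputable def jv (d e : ℕ → ℝ) (p : ℝ[X]) : ℕ → ℝ := aeval (jac d e) p e0

theorem jv_C (d e : ℕ → ℝ) (a : ℝ) : jv d e (C a) = a • e0 := by
  simp [jv, Module.algebraMap_end_apply]

theorem jv_one (d e : ℕ → ℝ) : jv d e 1 = e0 := by
  simp [jv]

theorem jv_add (d e : ℕ → ℝ) (p q : ℝ[X]) : jv d e (p + q) = jv d e p + jv d e q := by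
  simp [jv]

theorem jv_sub (d e : ℕ → ℝ) (p q : ℝ[X]) : jv d e (p - q) = jv d e p - jv d e q := by
  simp [jv]

theorem jv_X_mul (d e : ℕ → ℝ) (p : ℝ[X]) : jv d e (X * p) = jac d e (jv d e p) := by
  simp [jv]

theorem jv_C_mul (d e : ℕ → ℝ) (a : ℝ) (p : ℝ[X]) : jv d e (C a * p) = a • jv d e p := by
  simp [jv, Module.algebraMap_end_apply]

/-- The functional `p ↦ (p(J) e0)_0`. -/
noncomputable def jl (d e : ℕ → ℝ) : ℝ[X] →ₗ[ℝ] ℝ where
  toFun p := jv d e p 0
  map_add' p q := by rw [jv_add]; rfl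
  map_smul' c p := by rw [smul_eq_C_mul, jv_C_mul]; rfl

theorem jl_apply (d e : ℕ → ℝ) (p : ℝ[X]) : jl d e p = jv d e p 0 := rfl

theorem jv_fin (d e : ℕ → ℝ) (p : ℝ[X]) : ∀ᶠ N in atTop, jv d e p N = 0 := by
  induction p using Polynomial.induction_on with
  | C a =>
    filter_upwards [eventually_ne_atTop 0] with N hN
    simp [jv_C, e0, hN]
  | add p q hp hq =>
    filter_upwards [hp, hq] with N h1 h2
    simp [jv_add, h1, h2]
  | monomial n a ih =>
    have e' : C a * X ^ (n + 1) = X * (C a * X ^ n) := by ring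
    obtain ⟨M, hM⟩ := eventually_atTop.1 ih
    filter_upwards [eventually_ge_atTop (M + 1)] with N hN
    obtain ⟨k, rfl⟩ : ∃ k, N = k + 1 := ⟨N - 1, by omega⟩
    rw [e', jv_X_mul, jac_apply, prev_succ, hM k (by omega), hM (k + 1) (by omega),
      hM (k + 1 + 1) (by omega)]
    ring

theorem jac_symm (d e u v : ℕ → ℝ) (N : ℕ) :
    ∑ k ∈ Finset.range (N + 1), (∏ i ∈ Finset.range k, e i) * (jac d e u k * v k)
      = ∑ k ∈ Finset.range (N + 1), (∏ i ∈ Finset.range k, e i) * (u k * jac d e v k)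
        + (∏ i ∈ Finset.range (N + 1), e i) * (u (N + 1) * v N - u N * v (N + 1)) := by
  induction N with
  | zero => simp [jac_apply]; ring
  | succ N ih =>
    rw [Finset.sum_range_succ _ (N + 1), Finset.sum_range_succ _ (N + 1), ih,
      Finset.prod_range_succ e (N + 1), jac_apply, jac_apply, prev_succ, prev_succ]
    ring

theorem jv_form (d e : ℕ → ℝ) (p : ℝ[X]) : ∀ q : ℝ[X], ∀ᶠ N in atTop,
    ∑ k ∈ Finset.range (N + 1), (∏ i ∈ Finset.range k, e i) * (jv d e p k * jv d e q k)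
      = jl d e (p * q) := by
  induction p using Polynomial.induction_on with
  | C a =>
    intro q
    refine Eventually.of_forall (fun N => ?_)
    rw [Finset.sum_range_succ', jl_apply, jv_C_mul, jv_C]
    simp [e0]
  | add p p' hp hp' =>
    intro q
    filter_upwards [hp q, hp' q] with N h1 h2
    rw [add_mul, map_add, ← h1, ← h2, ← Finset.sum_add_distrib]
    refine Finset.sum_congr rfl (fun k _ => ?_)
    rw [jv_add, Pi.add_apply]
    ring
  | monomial n a ih =>
    intro q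
    have e' : C a * X ^ (n + 1) = X * (C a * X ^ n) := by ring
    obtain ⟨M, hM⟩ := eventually_atTop.1 (jv_fin d e (C a * X ^ n))
    filter_upwards [ih (X * q), eventually_ge_atTop M] with N h1 hN
    rw [e', jv_X_mul, jac_symm, hM N hN, hM (N + 1) (by omega), ← jv_X_mul, h1]
    have : C a * X ^ n * (X * q) = X * (C a * X ^ n) * q := by ring
    rw [this]
    ring

theorem jac_bound (d e P Q v : ℕ → ℝ) (c s : ℝ) (hs : s * s = 1) (he : ∀ k, 0 ≤ e k)
    (hP : ∀ k, 0 ≤ P k) (hPQ : ∀ k, P k * Q k = e k)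
    (hc : ∀ k, P k + prev 0 Q k ≤ c - s * d k) (N : ℕ) :
    (∏ i ∈ Finset.range N, e i) * (P N * v N ^ 2)
      - s * (∏ i ∈ Finset.range (N + 1), e i) * (v N * v (N + 1))
      ≤ ∑ k ∈ Finset.range (N + 1),
        (∏ i ∈ Finset.range k, e i) * (v k * (c * v k - s * jac d e v k)) := by
  induction N with
  | zero =>
    have := hc 0
    simp only [jac_apply, prev_zero, Finset.range_zero, Finset.prod_empty, zero_add,
      Finset.range_one, Finset.prod_singleton, Finset.sum_singleton] at this ⊢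
    nlinarith [mul_le_mul_of_nonneg_right this (sq_nonneg (v 0))]
  | succ N ih =>
    rw [Finset.sum_range_succ _ (N + 1), Finset.prod_range_succ e (N + 1), jac_apply, prev_succ]
    rw [Finset.prod_range_succ e N] at ih ⊢
    have h1 := hc (N + 1)
    rw [prev_succ] at h1
    have hπ : 0 ≤ ∏ i ∈ Finset.range N, e i := Finset.prod_nonneg (fun i _ => he i)
    set π := ∏ i ∈ Finset.range N, e i
    have h2 : 0 ≤ π * e N * ((c - s * d (N + 1) - (P (N + 1) + Q N)) * v (N + 1) ^ 2) :=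
      mul_nonneg (mul_nonneg hπ (he N)) (mul_nonneg (sub_nonneg.2 h1) (sq_nonneg _))
    have h3 : 0 ≤ π * P N * (v N - s * Q N * v (N + 1)) ^ 2 :=
      mul_nonneg (mul_nonneg hπ (hP N)) (sq_nonneg _)
    have h4 : π * P N * (v N - s * Q N * v (N + 1)) ^ 2
        = π * (P N * v N ^ 2) - 2 * s * π * e N * (v N * v (N + 1))
          + π * e N * Q N * v (N + 1) ^ 2 := by
      rw [← hPQ N]
      linear_combination (π * P N * Q N ^ 2 * v (N + 1) ^ 2) * hs
    nlinarith

theorem jl_nonneg (d e P Q : ℕ → ℝ) (c s : ℝ) (hs : s * s = 1) (he : ∀ k, 0 ≤ e k)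
    (hP : ∀ k, 0 ≤ P k) (hPQ : ∀ k, P k * Q k = e k)
    (hc : ∀ k, P k + prev 0 Q k ≤ c - s * d k) (p : ℝ[X]) :
    0 ≤ jl d e ((C c - C s * X) * p ^ 2) := by
  obtain ⟨N, h1, h2⟩ := ((jv_form d e p ((C c - C s * X) * p)).and (jv_fin d e p)).exists
  have h3 := jac_bound d e P Q (jv d e p) c s hs he hP hPQ hc N
  have e1 : (C c - C s * X) * p ^ 2 = p * ((C c - C s * X) * p) := by ring
  have e2 : (C c - C s * X) * p = C c * p - C s * (X * p) := by ring
  rw [e1, ← h1, e2, jv_sub, jv_C_mul, jv_C_mul, jv_X_mul]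
  rw [h2] at h3
  simpa using h3

theorem jac_measure (d e P Q P' Q' : ℕ → ℝ) {lo hi : ℝ} (hlh : lo < hi) (he : ∀ k, 0 ≤ e k)
    (hP : ∀ k, 0 ≤ P k) (hPQ : ∀ k, P k * Q k = e k) (hc : ∀ k, P k + prev 0 Q k ≤ hi - d k)
    (hP' : ∀ k, 0 ≤ P' k) (hPQ' : ∀ k, P' k * Q' k = e k)
    (hc' : ∀ k, P' k + prev 0 Q' k ≤ d k - lo) :
    ∃ θ : Measure ℝ, IsProbabilityMeasure θ ∧ (∀ᵐ t ∂θ, t ∈ Icc lo hi) ∧
      ∀ p : ℝ[X], ∫ t, p.eval t ∂θ = jv d e p 0 := by
  refine haus_Icc (jl d e) hlh (by rw [jl_apply, jv_one]; rfl) (fun p => ?_) (fun p => ?_)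
  · have := jl_nonneg d e P' Q' (-lo) (-1) (by norm_num) he hP' hPQ'
      (fun k => by linarith [hc' k]) p
    have e1 : (C (-lo) - C (-1) * X : ℝ[X]) = X - C lo := by simp; ring
    rwa [e1] at this
  · have := jl_nonneg d e P Q hi 1 (by norm_num) he hP hPQ (fun k => by linarith [hc k]) p
    simpa using this

theorem jv_pow_bound (d e : ℕ → ℝ) {M : ℝ} (hd : ∀ k, |d k| ≤ M) (he : ∀ k, |e k| ≤ M) (n : ℕ) :
    ∀ k, |jv d e (X ^ n) k| ≤ (1 + 2 * M) ^ n := by
  have hM : 0 ≤ M := (abs_nonneg _).trans (hd 0)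
  induction n with
  | zero =>
    intro k
    rw [pow_zero, jv_one, pow_zero]
    unfold e0
    split_ifs <;> simp
  | succ n ih =>
    intro k
    rw [pow_succ', jv_X_mul, jac_apply, pow_succ']
    have h0 : |prev 0 (jv d e (X ^ n)) k| ≤ (1 + 2 * M) ^ n := by
      cases k with
      | zero => simp; positivity
      | succ k => simpa using ih k
    have h1 : |d k * jv d e (X ^ n) k| ≤ M * (1 + 2 * M) ^ n := by
      rw [abs_mul]
      exact mul_le_mul (hd k) (ih k) (abs_nonneg _) hM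
    have h2 : |e k * jv d e (X ^ n) (k + 1)| ≤ M * (1 + 2 * M) ^ n := by
      rw [abs_mul]
      exact mul_le_mul (he k) (ih (k + 1)) (abs_nonneg _) hM
    have := abs_add_three (prev 0 (jv d e (X ^ n)) k) (d k * jv d e (X ^ n) k)
      (e k * jv d e (X ^ n) (k + 1))
    linarith

end Pool.Agent.P.MP_ede858_pr
end

-- part Pool.Agent.P.MP_ede858_pr.Frac
section

set_option autoImplicit false

open Set Filter Topology MeasureTheory PowerSeries

namespace Pool.Agent.P.MP_ede858_pr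

/-! Three-term recurrences of power series, their contraction to a Jacobi operator, and the
integral representations of the coefficients. -/

/-- The numerators `(1 - g n) g (n + 1)` of a `g`-fraction. -/
def al (g : ℕ → ℝ) (n : ℕ) : ℝ := (1 - g n) * g (n + 1)

/-- Diagonal of the contracted fraction. -/
def cd (g : ℕ → ℝ) (k : ℕ) : ℝ := al g (2 * k) + al g (2 * k + 1)

/-- Off-diagonal of the contracted fraction. -/
def ce (g : ℕ → ℝ) (k : ℕ) : ℝ := al g (2 * k + 1) * al g (2 * k + 2)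

theorem contr (g : ℕ → ℝ) (W : ℕ → ℝ⟦X⟧) (D ξ N : ℝ⟦X⟧)
    (h0 : D * W 0 = N + C (al g 0) * ξ * W 1)
    (h : ∀ n, D * W (n + 1) = W n + C (al g (n + 1)) * ξ * W (n + 2)) (n : ℕ) :
    D ^ 2 * (ξ ^ n * W (2 * n + 1)) = C (e0 n) * N
      + ξ * (prev 0 (fun j => ξ ^ j * W (2 * j + 1)) n + C (cd g n) * (ξ ^ n * W (2 * n + 1))
        + C (ce g n) * (ξ ^ (n + 1) * W (2 * (n + 1) + 1))) := by
  cases n with
  | zero =>
    have h1 := h 0
    have h2 := h 1
    simp only [cd, ce, e0, map_add, map_mul, prev_zero, Nat.mul_zero, zero_add, pow_zero, one_mul,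
      if_true, map_one, Nat.mul_one, pow_one, Nat.reduceAdd] at h1 h2 ⊢
    linear_combination D * h1 + h0 + C (al g 1) * ξ * h2
  | succ n =>
    have h1 := h (2 * n + 1)
    have h2 := h (2 * n + 2)
    have h3 := h (2 * n + 3)
    have e1 : 2 * (n + 1) = 2 * n + 2 := by ring
    have e2 : 2 * (n + 1 + 1) + 1 = 2 * n + 5 := by ring
    have e3 : e0 (n + 1) = 0 := by simp [e0]
    simp only [cd, ce, map_add, map_mul, prev_succ, e1, e2, e3, map_zero, add_assoc,
      Nat.reduceAdd] at h1 h2 h3 ⊢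
    linear_combination ξ ^ (n + 1) * D * h2 + ξ ^ (n + 1) * h1
      + ξ ^ (n + 1) * C (al g (2 * n + 3)) * ξ * h3

theorem coeff_jac (d e : ℕ → ℝ) (O : ℕ → ℝ⟦X⟧) (k n : ℕ) :
    coeff k (prev 0 O n + C (d n) * O n + C (e n) * O (n + 1))
      = jac d e (fun j => coeff k (O j)) n := by
  rw [jac_apply, map_add, map_add, coeff_C_mul, coeff_C_mul]
  cases n <;> simp

theorem coeff_plain (d e : ℕ → ℝ) (O : ℕ → ℝ⟦X⟧)
    (h : ∀ n, O n = C (e0 n) + X * (prev 0 O n + C (d n) * O n + C (e n) * O (n + 1))) (k : ℕ) :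
    (fun n => coeff k (O n)) = jv d e (Polynomial.X ^ k) := by
  induction k with
  | zero =>
    funext n
    rw [h n, pow_zero, jv_one]
    simp
  | succ k ih =>
    funext n
    rw [h n, pow_succ', jv_X_mul, ← ih, map_add, coeff_succ_X_mul, coeff_jac, coeff_succ_C,
      zero_add]

/-- The shifted Chebyshev polynomial `T_k (2 t - 1)`. -/
noncomputable def tau (k : ℕ) : Polynomial ℝ :=
  (Polynomial.Chebyshev.T ℝ k).comp (2 * Polynomial.X - 1)

theorem tau_rec (k : ℕ) : tau (k + 2)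
    = Polynomial.C 4 * (Polynomial.X * tau (k + 1)) - Polynomial.C 2 * tau (k + 1) - tau k := by
  unfold tau
  have e : ((k + 2 : ℕ) : ℤ) = (k : ℤ) + 2 := by push_cast; ring
  have e' : ((k + 1 : ℕ) : ℤ) = (k : ℤ) + 1 := by push_cast; ring
  have c4 : (Polynomial.C 4 : Polynomial ℝ) = 4 := rfl
  have c2 : (Polynomial.C 2 : Polynomial ℝ) = 2 := rfl
  rw [e, e', Polynomial.Chebyshev.T_add_two, c4, c2]
  simp
  ring

theorem tau_zero : tau 0 = 1 := by simp [tau]

theorem tau_one : tau 1 = Polynomial.C 2 * (Polynomial.X * 1) - 1 := by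
  have c2 : (Polynomial.C 2 : Polynomial ℝ) = 2 := rfl
  simp [tau, c2]

theorem abs_tau_le (k : ℕ) {t : ℝ} (ht : t ∈ Icc (0 : ℝ) 1) : |(tau k).eval t| ≤ 1 := by
  unfold tau
  rw [Polynomial.eval_comp]
  apply Polynomial.Chebyshev.abs_eval_T_real_le_one
  simp only [Polynomial.eval_sub, Polynomial.eval_mul, Polynomial.eval_ofNat, Polynomial.eval_X,
    Polynomial.eval_one]
  rw [abs_le]
  constructor <;> linarith [ht.1, ht.2]

theorem coeff_cheb (d e : ℕ → ℝ) (O : ℕ → ℝ⟦X⟧)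
    (h : ∀ n, (1 + X) ^ 2 * O n = C (e0 n) * (1 + X)
      + (C 4 * X) * (prev 0 O n + C (d n) * O n + C (e n) * O (n + 1))) (k : ℕ) :
    (fun n => coeff (k + 1) (O n) - coeff k (O n)) = (2 : ℝ) • jv d e (tau (k + 1)) := by
  have h' : ∀ n, O n + X * (C 2 * O n) + X * (X * O n) = C (e0 n) + X * C (e0 n)
      + X * (C 4 * (prev 0 O n + C (d n) * O n + C (e n) * O (n + 1))) := by
    intro n
    have c2 : (C 2 : ℝ⟦X⟧) = 2 := rfl
    rw [c2]
    linear_combination h n
  have y0 : (fun n => coeff 0 (O n)) = e0 := by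
    funext n
    have := congrArg (coeff 0) (h' n)
    simpa using this
  have y1 : (fun n => coeff 1 (O n)) = (4 : ℝ) • jac d e e0 - e0 := by
    funext n
    have := congrArg (coeff (0 + 1)) (h' n)
    simp only [map_add, coeff_succ_X_mul, coeff_C_mul, coeff_zero_X_mul, coeff_succ_C,
      coeff_zero_C] at this
    have h1 := coeff_jac d e O 0 n
    simp only [map_add, coeff_C_mul] at h1
    have h2 := congrFun y0 n
    rw [y0] at h1
    simp only [Pi.sub_apply, Pi.smul_apply, smul_eq_mul]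
    simp only [zero_add] at this h2
    linear_combination this + 4 * h1 - 2 * h2
  have y2 : ∀ j, (fun n => coeff (j + 2) (O n)) = (4 : ℝ) • jac d e (fun n => coeff (j + 1) (O n))
      - (2 : ℝ) • (fun n => coeff (j + 1) (O n)) - (fun n => coeff j (O n)) := by
    intro j
    funext n
    have := congrArg (coeff (j + 1 + 1)) (h' n)
    simp only [map_add, coeff_succ_X_mul, coeff_C_mul, coeff_succ_C] at this
    have h1 := coeff_jac d e O (j + 1) n
    simp only [map_add, coeff_C_mul] at h1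
    simp only [Pi.sub_apply, Pi.smul_apply, smul_eq_mul]
    linear_combination this + 4 * h1
  have t1 : jv d e (tau 1) = (2 : ℝ) • jac d e e0 - e0 := by
    rw [tau_one, jv_sub, jv_C_mul, jv_X_mul, jv_one]
  have t2 : ∀ j, jv d e (tau (j + 2)) = (4 : ℝ) • jac d e (jv d e (tau (j + 1)))
      - (2 : ℝ) • jv d e (tau (j + 1)) - jv d e (tau j) := by
    intro j
    rw [tau_rec, jv_sub, jv_sub, jv_C_mul, jv_C_mul, jv_X_mul]
  have key : ∀ j, (fun n => coeff (j + 1) (O n)) - (fun n => coeff j (O n))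
      = (2 : ℝ) • jv d e (tau (j + 1)) := by
    intro j
    induction j using Nat.twoStepInduction with
    | zero =>
      rw [zero_add, y1, y0, t1]
      module
    | one =>
      rw [show 1 + 1 = 0 + 2 from rfl, y2 0, t2 0, zero_add, y1, y0, t1, tau_zero, jv_one]
      simp only [map_sub, map_smul]
      module
    | more j h1 h2 =>
      rw [show j + 2 + 1 = j + 1 + 2 from rfl, y2 (j + 1), t2 (j + 1)]
      have h3 := y2 j
      have h4 := congrArg (jac d e) h2
      rw [map_sub, map_smul] at h4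
      rw [show j + 1 + 1 = j + 2 from rfl] at h2 h4 ⊢
      linear_combination (norm := module) (4 : ℝ) • h4 - (2 : ℝ) • h2 - h1 - h3
  exact key k

theorem al_bound {g : ℕ → ℝ} {G : ℝ} (hG : ∀ n, |g n| ≤ G) (n : ℕ) : |al g n| ≤ (1 + G) * G := by
  unfold al
  rw [abs_mul]
  refine mul_le_mul ?_ (hG _) (abs_nonneg _) (by linarith [abs_nonneg (g 0), hG 0])
  have := abs_sub (1 : ℝ) (g n)
  rw [abs_one] at this
  linarith [hG n]

theorem cd_upper {g : ℕ → ℝ} (h0 : g 0 = 0) (k : ℕ) :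
    (1 - g (2 * k + 1)) * (1 - g (2 * k + 2))
      + prev 0 (fun j => g (2 * j + 2) * g (2 * j + 3)) k ≤ 1 - cd g k := by
  cases k with
  | zero => simp only [cd, al, prev_zero, h0]; apply le_of_eq; ring
  | succ k =>
    simp only [cd, al, prev_succ]
    apply le_of_eq
    rw [show 2 * k + 2 = 2 * (k + 1) by ring, show 2 * k + 3 = 2 * (k + 1) + 1 by ring]
    ring

theorem meas_crude {g : ℕ → ℝ} {G : ℝ} (h0 : g 0 = 0) (h1 : ∀ n, g n ≤ 1)
    (hs : ∀ k, 0 ≤ g (2 * k + 2) * g (2 * k + 3)) (hG : ∀ n, |g n| ≤ G) :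
    ∃ (R : ℝ) (θ : Measure ℝ), 1 ≤ R ∧ IsProbabilityMeasure θ ∧ (∀ᵐ t ∂θ, t ∈ Icc (-R) 1) ∧
      ∀ p : Polynomial ℝ, ∫ t, p.eval t ∂θ = jv (cd g) (ce g) p 0 := by
  have ha := al_bound hG
  set a := (1 + G) * G
  have ha0 : 0 ≤ a := (abs_nonneg _).trans (ha 0)
  have hP : ∀ k, 0 ≤ (1 - g (2 * k + 1)) * (1 - g (2 * k + 2)) :=
    fun k => mul_nonneg (sub_nonneg.2 (h1 _)) (sub_nonneg.2 (h1 _))
  have hPQ : ∀ k, (1 - g (2 * k + 1)) * (1 - g (2 * k + 2)) * (g (2 * k + 2) * g (2 * k + 3))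
      = ce g k := fun k => by simp only [ce, al]; ring
  have he : ∀ k, 0 ≤ ce g k := fun k => by rw [← hPQ]; exact mul_nonneg (hP k) (hs k)
  have he' : ∀ k, ce g k ≤ a * a := fun k => by
    refine (le_abs_self _).trans ?_
    rw [ce, abs_mul]
    exact mul_le_mul (ha _) (ha _) (abs_nonneg _) ha0
  obtain ⟨θ, h⟩ := jac_measure (cd g) (ce g) (fun k => (1 - g (2 * k + 1)) * (1 - g (2 * k + 2)))
    (fun k => g (2 * k + 2) * g (2 * k + 3)) (fun _ => 1) (ce g) (lo := -(1 + a * a + 2 * a))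
    (hi := 1) (by nlinarith) he hP hPQ (cd_upper h0) (fun _ => zero_le_one) (fun k => one_mul _)
    (fun k => by
      have h2 : prev 0 (ce g) k ≤ a * a := by
        cases k with
        | zero => simp; positivity
        | succ k => simpa using he' k
      have h3 := neg_abs_le (al g (2 * k))
      have h4 := neg_abs_le (al g (2 * k + 1))
      have h5 := ha (2 * k)
      have h6 := ha (2 * k + 1)
      unfold cd
      linarith)
  exact ⟨1 + a * a + 2 * a, θ, by nlinarith, h⟩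

theorem meas_unit {g : ℕ → ℝ} (h0 : g 0 = 0) (h1 : ∀ n, g n ≤ 1) (hs : ∀ n, 0 ≤ g n) :
    ∃ θ : Measure ℝ, IsProbabilityMeasure θ ∧ (∀ᵐ t ∂θ, t ∈ Icc (0 : ℝ) 1) ∧
      ∀ p : Polynomial ℝ, ∫ t, p.eval t ∂θ = jv (cd g) (ce g) p 0 := by
  have ha : ∀ n, 0 ≤ al g n := fun n => mul_nonneg (sub_nonneg.2 (h1 _)) (hs _)
  refine jac_measure (cd g) (ce g) (fun k => (1 - g (2 * k + 1)) * (1 - g (2 * k + 2)))
    (fun k => g (2 * k + 2) * g (2 * k + 3)) (fun k => al g (2 * k + 1))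
    (fun k => al g (2 * k + 2)) zero_lt_one (fun k => mul_nonneg (ha _) (ha _))
    (fun k => mul_nonneg (sub_nonneg.2 (h1 _)) (sub_nonneg.2 (h1 _)))
    (fun k => by simp only [ce, al]; ring) (cd_upper h0) (fun k => ha _) (fun k => rfl)
    (fun k => ?_)
  cases k with
  | zero => simpa [cd] using ha 0
  | succ k =>
    simp only [cd, prev_succ]
    apply le_of_eq
    rw [show 2 * k + 2 = 2 * (k + 1) by ring]
    ring

theorem al_prev_zero {g : ℕ → ℝ} (h0 : g 0 = 0) : al (prev 0 g) 0 = 0 := by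
  simp [al, h0]

theorem al_prev_succ (g : ℕ → ℝ) (n : ℕ) : al (prev 0 g) (n + 1) = al g n := by
  simp [al]

/-- The recurrence of a `g`-fraction with multiplier `D` and step `ξ`. -/
def IsFrac (g : ℕ → ℝ) (D ξ : ℝ⟦X⟧) (W : ℕ → ℝ⟦X⟧) : Prop :=
  D * W 0 = 1 + C (al g 0) * ξ * W 1 ∧
    ∀ n, D * W (n + 1) = W n + C (al g (n + 1)) * ξ * W (n + 2)

theorem frac_odd {g : ℕ → ℝ} {W : ℕ → ℝ⟦X⟧} (h : IsFrac g 1 X W) (k : ℕ) :
    coeff k (W 1) = jv (cd g) (ce g) (Polynomial.X ^ k) 0 := by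
  have h1 := coeff_plain (cd g) (ce g) (fun n => X ^ n * W (2 * n + 1)) (fun n => by
    have := contr g W 1 X 1 h.1 h.2 n
    simpa using this) k
  have := congrFun h1 0
  simpa using this

theorem frac_shift {g : ℕ → ℝ} (h0 : g 0 = 0) {D ξ : ℝ⟦X⟧} {W : ℕ → ℝ⟦X⟧} (h : IsFrac g D ξ W) :
    D * prev 1 W 0 = D + C (al (prev 0 g) 0) * ξ * prev 1 W 1 ∧
      ∀ n, D * prev 1 W (n + 1) = prev 1 W n
        + C (al (prev 0 g) (n + 1)) * ξ * prev 1 W (n + 2) := by
  refine ⟨by simp [al_prev_zero h0], fun n => ?_⟩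
  rw [al_prev_succ, prev_succ, prev_succ]
  cases n with
  | zero => simpa using h.1
  | succ n => simpa using h.2 n

theorem frac_even {g : ℕ → ℝ} (h0 : g 0 = 0) {W : ℕ → ℝ⟦X⟧} (h : IsFrac g 1 X W) (k : ℕ) :
    coeff k (W 0) = jv (cd (prev 0 g)) (ce (prev 0 g)) (Polynomial.X ^ k) 0 := by
  have h2 := frac_shift h0 h
  have h1 := coeff_plain (cd (prev 0 g)) (ce (prev 0 g))
    (fun n => X ^ n * prev 1 W (2 * n + 1)) (fun n => by
    have := contr (prev 0 g) (prev 1 W) 1 X 1 h2.1 h2.2 n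
    simpa using this) k
  have := congrFun h1 0
  simpa using this

theorem frac_cheb {g : ℕ → ℝ} (h0 : g 0 = 0) {W : ℕ → ℝ⟦X⟧}
    (h : IsFrac g (1 + X) (C 4 * X) W) (k : ℕ) :
    coeff (k + 1) (W 0) - coeff k (W 0)
      = 2 * jv (cd (prev 0 g)) (ce (prev 0 g)) (tau (k + 1)) 0 := by
  have h2 := frac_shift h0 h
  have h1 := coeff_cheb (cd (prev 0 g)) (ce (prev 0 g))
    (fun n => (C 4 * X) ^ n * prev 1 W (2 * n + 1))
    (fun n => contr (prev 0 g) (prev 1 W) (1 + X) (C 4 * X) (1 + X) h2.1 h2.2 n) k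
  have := congrFun h1 0
  simpa using this

theorem prev_bound {g : ℕ → ℝ} {G : ℝ} (hG : ∀ n, |g n| ≤ G) (n : ℕ) : |prev 0 g n| ≤ G := by
  cases n with
  | zero => simpa using (abs_nonneg _).trans (hG 0)
  | succ n => simpa using hG n

theorem prev_le_one {g : ℕ → ℝ} (h : ∀ n, g n ≤ 1) (n : ℕ) : prev 0 g n ≤ 1 := by
  cases n with
  | zero => simp
  | succ n => simpa using h n

theorem prev_nonneg {g : ℕ → ℝ} (h : ∀ n, 0 ≤ g n) (n : ℕ) : 0 ≤ prev 0 g n := by
  cases n with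
  | zero => simp
  | succ n => simpa using h n

theorem frac_bound {g : ℕ → ℝ} {G : ℝ} (h0 : g 0 = 0) (hG : ∀ n, |g n| ≤ G) {W : ℕ → ℝ⟦X⟧}
    (h : IsFrac g 1 X W) : ∃ R : ℝ, 1 ≤ R ∧ ∀ k, |coeff k (W 0)| ≤ R ^ k := by
  have ha := al_bound (prev_bound hG)
  set a := (1 + G) * G
  have ha0 : 0 ≤ a := (abs_nonneg _).trans (ha 0)
  refine ⟨1 + 2 * (2 * a + a * a), by nlinarith, fun k => ?_⟩
  rw [frac_even h0 h]
  refine jv_pow_bound _ _ (fun j => ?_) (fun j => ?_) k 0
  · have := abs_add_le (al (prev 0 g) (2 * j)) (al (prev 0 g) (2 * j + 1))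
    have h1 := ha (2 * j)
    have h2 := ha (2 * j + 1)
    unfold cd
    nlinarith
  · rw [ce, abs_mul]
    have := mul_le_mul (ha (2 * j + 1)) (ha (2 * j + 2)) (abs_nonneg _) ha0
    linarith

theorem frac_low {g : ℕ → ℝ} {W : ℕ → ℝ⟦X⟧} (h : IsFrac g 1 X W) :
    coeff 0 (W 0) = 1 ∧ coeff 1 (W 0) = al g 0 ∧ coeff 2 (W 0) = al g 0 * (al g 0 + al g 1) ∧
      coeff 3 (W 0) = al g 0 * ((al g 0 + al g 1) ^ 2 + al g 1 * al g 2) := by
  have h1 : W 0 = 1 + X * (C (al g 0) * W 1) := by linear_combination h.1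
  have h2 : ∀ k, coeff (k + 1) (W 0) = al g 0 * jv (cd g) (ce g) (Polynomial.X ^ k) 0 := by
    intro k
    rw [h1, map_add, coeff_succ_X_mul, coeff_C_mul, frac_odd h, coeff_one]
    simp
  refine ⟨by rw [h1]; simp, ?_, ?_, ?_⟩
  · rw [h2 0, pow_zero, jv_one]; simp [e0]
  · rw [h2 1, pow_succ', jv_X_mul, pow_zero, jv_one]; simp [jac_apply, e0, cd]
  · rw [h2 2, pow_succ', jv_X_mul, pow_succ', jv_X_mul, pow_zero, jv_one]
    simp [jac_apply, e0, cd, ce, prev]
    left
    ring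

theorem frac_odd_meas {g : ℕ → ℝ} {G : ℝ} (h0 : g 0 = 0) (h1 : ∀ n, g n ≤ 1)
    (hs : ∀ k, 0 ≤ g (2 * k + 2) * g (2 * k + 3)) (hG : ∀ n, |g n| ≤ G) {W : ℕ → ℝ⟦X⟧}
    (h : IsFrac g 1 X W) :
    ∃ (R : ℝ) (θ : Measure ℝ), 1 ≤ R ∧ IsProbabilityMeasure θ ∧ (∀ᵐ t ∂θ, t ∈ Icc (-R) 1) ∧
      ∀ k, coeff k (W 1) = ∫ t, t ^ k ∂θ := by
  obtain ⟨R, θ, hR, hθ, hI, hp⟩ := meas_crude h0 h1 hs hG
  refine ⟨R, θ, hR, hθ, hI, fun k => ?_⟩
  rw [frac_odd h, ← hp]
  simp

theorem frac_even_meas {g : ℕ → ℝ} {G : ℝ} (h0 : g 0 = 0) (h1 : ∀ n, g n ≤ 1)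
    (hs : ∀ k, 0 ≤ g (2 * k + 1) * g (2 * k + 2)) (hG : ∀ n, |g n| ≤ G) {W : ℕ → ℝ⟦X⟧}
    (h : IsFrac g 1 X W) :
    ∃ (R : ℝ) (θ : Measure ℝ), 1 ≤ R ∧ IsProbabilityMeasure θ ∧ (∀ᵐ t ∂θ, t ∈ Icc (-R) 1) ∧
      ∀ k, coeff k (W 0) = ∫ t, t ^ k ∂θ := by
  obtain ⟨R, θ, hR, hθ, hI, hp⟩ := meas_crude (g := prev 0 g) rfl (prev_le_one h1)
    (fun k => by simpa using hs k) (prev_bound hG)
  refine ⟨R, θ, hR, hθ, hI, fun k => ?_⟩
  rw [frac_even h0 h, ← hp]
  simp

theorem frac_unit_meas {g : ℕ → ℝ} (h0 : g 0 = 0) (h1 : ∀ n, g n ≤ 1) (hs : ∀ n, 0 ≤ g n)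
    {W : ℕ → ℝ⟦X⟧} (h : IsFrac g 1 X W) :
    ∃ θ : Measure ℝ, IsProbabilityMeasure θ ∧ (∀ᵐ t ∂θ, t ∈ Icc (0 : ℝ) 1) ∧
      ∀ k, coeff k (W 0) = ∫ t, t ^ k ∂θ := by
  obtain ⟨θ, hθ, hI, hp⟩ := meas_unit (g := prev 0 g) rfl (prev_le_one h1) (prev_nonneg hs)
  refine ⟨θ, hθ, hI, fun k => ?_⟩
  rw [frac_even h0 h, ← hp]
  simp

theorem frac_cheb_meas {g : ℕ → ℝ} (h0 : g 0 = 0) (h1 : ∀ n, g n ≤ 1) (hs : ∀ n, 0 ≤ g n)
    {W : ℕ → ℝ⟦X⟧} (h : IsFrac g (1 + X) (C 4 * X) W) :
    ∃ θ : Measure ℝ, IsProbabilityMeasure θ ∧ (∀ᵐ t ∂θ, t ∈ Icc (0 : ℝ) 1) ∧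
      (∫ t, t ^ 6 ∂θ = jv (cd (prev 0 g)) (ce (prev 0 g)) (Polynomial.X ^ 6) 0) ∧
      ∀ k, coeff (k + 1) (W 0) - coeff k (W 0) = 2 * ∫ t, (tau (k + 1)).eval t ∂θ := by
  obtain ⟨θ, hθ, hI, hp⟩ := meas_unit (g := prev 0 g) rfl (prev_le_one h1) (prev_nonneg hs)
  refine ⟨θ, hθ, hI, ?_, fun k => ?_⟩
  · rw [← hp]
    simp
  · rw [frac_cheb h0 h, ← hp]

end Pool.Agent.P.MP_ede858_pr
end

-- part Pool.Agent.P.MP_ede858_pr.Hyp
section

set_option autoImplicit false

open Set Filter Topology MeasureTheory PowerSeries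

namespace Pool.Agent.P.MP_ede858_pr

/-! Contiguous relations for formal Gauss series. -/

/-- The rising factorial. -/
noncomputable def po (x : ℝ) (k : ℕ) : ℝ := (ascPochhammer ℝ k).eval x

theorem po_zero (x : ℝ) : po x 0 = 1 := by simp [po]

theorem po_right (x : ℝ) (k : ℕ) : po x (k + 1) = po x k * (x + k) :=
  ascPochhammer_succ_eval k x

theorem po_left (x : ℝ) (k : ℕ) : po x (k + 1) = x * po (x + 1) k := by
  simp [po, ascPochhammer_succ_left, Polynomial.eval_comp]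

theorem po_pos {x : ℝ} (hx : 0 < x) (k : ℕ) : 0 < po x k := ascPochhammer_pos k x hx

theorem po_up {x : ℝ} (hx : x ≠ 0) (k : ℕ) : po (x + 1) k = po x k * (x + k) / x := by
  rw [← po_right, po_left]
  field_simp

theorem hyp_eq (a b c : ℝ) (k : ℕ) :
    hyp a b c k = po a k * po b k / (po c k * (k.factorial : ℝ)) := rfl

theorem hyp_zero (a b c : ℝ) : hyp a b c 0 = 1 := by simp [hyp_eq, po_zero]

theorem hyp_symm (a b c : ℝ) : hyp a b c = hyp b a c := by
  funext k
  rw [hyp_eq, hyp_eq, mul_comm (po a k)]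

theorem hyp_pos {a b c : ℝ} (ha : 0 < a) (hb : 0 < b) (hc : 0 < c) (k : ℕ) : 0 < hyp a b c k := by
  have := po_pos ha k
  have := po_pos hb k
  have := po_pos hc k
  rw [hyp_eq]
  positivity

theorem hyp_succ (a b : ℝ) {c : ℝ} (hc : 0 < c) (k : ℕ) :
    hyp a b c (k + 1) * ((c + k) * (k + 1)) = hyp a b c k * ((a + k) * (b + k)) := by
  have := po_pos hc k
  have h2 : 0 < c + k := by positivity
  rw [hyp_eq, hyp_eq, po_right, po_right, po_right, Nat.factorial_succ]
  push_cast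
  field_simp

theorem hyp_up (a b c : ℝ) (k : ℕ) : b * hyp a (b + 1) c k = (b + k) * hyp a b c k := by
  rw [hyp_eq, hyp_eq]
  have : b * po (b + 1) k = po b k * (b + k) := by rw [← po_left, po_right]
  linear_combination (po a k / (po c k * (k.factorial : ℝ))) * this

/-- The formal Gauss series. -/
noncomputable def FF (a b c : ℝ) : ℝ⟦X⟧ := mk (hyp a b c)

theorem FF_symm (a b c : ℝ) : FF a b c = FF b a c := by rw [FF, FF, hyp_symm]

theorem coeff_FF (a b c : ℝ) (k : ℕ) : coeff k (FF a b c) = hyp a b c k := coeff_mk _ _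

theorem const_FF (a b c : ℝ) : constantCoeff (FF a b c) = 1 := by
  rw [← coeff_zero_eq_constantCoeff_apply, coeff_FF, hyp_zero]

theorem FF_mul_inv (a b c : ℝ) : FF a b c * (FF a b c)⁻¹ = 1 :=
  PowerSeries.mul_inv_cancel _ (by rw [const_FF]; exact one_ne_zero)

theorem FF_R1 (a b : ℝ) {c : ℝ} (hc : 0 < c) :
    FF (a + 1) b c = FF a b c + C (b / c) * X * FF (a + 1) (b + 1) (c + 1) := by
  ext k
  rw [mul_assoc, map_add, coeff_C_mul]
  cases k with
  | zero => simp [coeff_FF, const_FF, hyp_zero]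
  | succ k =>
    rw [coeff_succ_X_mul, coeff_FF, coeff_FF, coeff_FF, hyp_eq, hyp_eq, hyp_eq, po_right (a + 1),
      po_left a, po_left b, po_left c, Nat.factorial_succ]
    have := po_pos (show 0 < c + 1 by linarith) k
    push_cast
    field_simp
    ring

theorem FF_R2 (a b : ℝ) {c : ℝ} (hc : 0 < c) :
    FF a (b + 1) (c + 1) = FF a b c
      + C ((1 - b / c) * (a / (c + 1))) * X * FF (a + 1) (b + 1) (c + 1 + 1) := by
  ext k
  rw [mul_assoc, map_add, coeff_C_mul]
  cases k with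
  | zero => simp [coeff_FF, const_FF, hyp_zero]
  | succ k =>
    have h1 : 0 < c + 1 := by linarith
    rw [coeff_succ_X_mul, coeff_FF, coeff_FF, coeff_FF, hyp_eq, hyp_eq, hyp_eq, po_right (b + 1),
      po_left a, po_left b, po_left c, po_right (c + 1), po_up h1.ne', Nat.factorial_succ]
    have := po_pos h1 k
    have h2 : 0 < c + 1 + k := by positivity
    push_cast
    field_simp
    ring

/-- The parameters of the `g`-fraction of `F(a + 1, b; c) / F(a, b; c)`. -/
noncomputable def gg (a b c : ℝ) (n : ℕ) : ℝ :=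
  if n = 0 then 0 else if n % 2 = 1 then (b + (n / 2 : ℕ)) / (c + n - 1)
  else (a + (n / 2 : ℕ)) / (c + n - 1)

theorem gg_zero (a b c : ℝ) : gg a b c 0 = 0 := by simp [gg]

theorem gg_odd (a b c : ℝ) (k : ℕ) : gg a b c (2 * k + 1) = (b + k) / (c + 2 * k) := by
  have h1 : (2 * k + 1) % 2 = 1 := by omega
  have h2 : (2 * k + 1) / 2 = k := by omega
  simp only [gg, h1, h2, Nat.succ_ne_zero, if_false, if_true]
  push_cast
  ring_nf

theorem gg_even (a b c : ℝ) (k : ℕ) :
    gg a b c (2 * k + 2) = (a + 1 + k) / (c + 2 * k + 1) := by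
  have h1 : ¬ (2 * k + 2) % 2 = 1 := by omega
  have h2 : (2 * k + 2) / 2 = k + 1 := by omega
  simp only [gg, h1, h2, Nat.succ_ne_zero, if_false]
  push_cast
  ring_nf

/-- The numerators of the successive quotients. -/
noncomputable def PP (a b c : ℝ) (n : ℕ) : ℝ⟦X⟧ :=
  FF (a + 1 + (n / 2 : ℕ)) (b + ((n + 1) / 2 : ℕ)) (c + n)

theorem PP_even (a b c : ℝ) (k : ℕ) : PP a b c (2 * k) = FF (a + 1 + k) (b + k) (c + 2 * k) := by
  have h1 : (2 * k) / 2 = k := by omega
  have h2 : (2 * k + 1) / 2 = k := by omega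
  simp only [PP, h1, h2]
  push_cast
  rfl

theorem PP_odd (a b c : ℝ) (k : ℕ) :
    PP a b c (2 * k + 1) = FF (a + 1 + k) (b + k + 1) (c + 2 * k + 1) := by
  have h1 : (2 * k + 1) / 2 = k := by omega
  have h2 : (2 * k + 1 + 1) / 2 = k + 1 := by omega
  simp only [PP, h1, h2]
  push_cast
  simp only [add_assoc]

theorem PP_rec (a b : ℝ) {c : ℝ} (hc : 0 < c) (n : ℕ) :
    PP a b c (n + 1) = PP a b c n + C (al (gg a b c) (n + 1)) * X * PP a b c (n + 2) := by
  obtain ⟨k, rfl | rfl⟩ := Nat.even_or_odd' n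
  · have h1 : 0 < c + 2 * k := by positivity
    rw [PP_odd, PP_even, show 2 * k + 2 = 2 * (k + 1) by ring, PP_even, FF_R2 _ _ h1, al, gg_odd,
      show 2 * k + 1 + 1 = 2 * k + 2 by ring, gg_even]
    push_cast
    ring_nf
  · have h1 : 0 < c + 2 * k + 1 := by positivity
    have h2 := FF_R2 (b + k + 1) (a + 1 + k) h1
    rw [show 2 * k + 1 + 1 = 2 * (k + 1) by ring, PP_even, PP_odd,
      show 2 * k + 1 + 2 = 2 * (k + 1) + 1 by ring, PP_odd, al,
      show 2 * (k + 1) = 2 * k + 2 by ring, gg_even,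
      show 2 * k + 2 + 1 = 2 * (k + 1) + 1 by ring, gg_odd,
      FF_symm _ (b + ((k + 1 : ℕ) : ℝ)), FF_symm _ (b + k + 1),
      FF_symm _ (b + ((k + 1 : ℕ) : ℝ) + 1)]
    push_cast
    convert h2 using 2 <;> ring_nf

/-- The successive quotients. -/
noncomputable def WW (a b c : ℝ) (n : ℕ) : ℝ⟦X⟧ := PP a b c n * (FF a b c)⁻¹

theorem WW_frac (a b : ℝ) {c : ℝ} (hc : 0 < c) : IsFrac (gg a b c) 1 X (WW a b c) := by
  constructor
  · have h0 := PP_even a b c 0
    have h1 := PP_odd a b c 0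
    have h2 := gg_odd a b c 0
    simp only [Nat.cast_zero, add_zero, mul_zero, zero_add] at h0 h1 h2
    rw [WW, WW, h0, h1, FF_R1 a b hc, al, gg_zero, zero_add, h2, sub_zero, one_mul, one_mul]
    linear_combination FF_mul_inv a b c
  · intro n
    rw [WW, WW, WW, PP_rec a b hc]
    ring

theorem WW_zero (a b c : ℝ) : WW a b c 0 = FF (a + 1) b c * (FF a b c)⁻¹ := by
  have h0 := PP_even a b c 0
  simp only [Nat.cast_zero, add_zero, mul_zero] at h0
  rw [WW, h0]

theorem cf_eq (A B C : ℝ) (k : ℕ) : cf A B C k = 2 * B * coeff k (WW B A C 0) := by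
  rw [WW_zero, FF_symm (B + 1), FF_symm B]
  rfl

theorem gg_cases (P : ℕ → Prop) (h0 : P 0) (h1 : ∀ k, P (2 * k + 1)) (h2 : ∀ k, P (2 * k + 2))
    (n : ℕ) : P n := by
  cases n with
  | zero => exact h0
  | succ n =>
    obtain ⟨k, rfl | rfl⟩ := Nat.even_or_odd' n
    · exact h1 k
    · exact h2 k

theorem gg_bound (a b : ℝ) {c : ℝ} (hc : 0 < c) (n : ℕ) :
    |gg a b c n| ≤ (|a| + |b| + 1) / c + 1 := by
  have ha := abs_nonneg a
  have hb := abs_nonneg b
  have hq : 0 ≤ (|a| + |b| + 1) / c := by positivity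
  have hq' : (|a| + |b| + 1) / c * c = |a| + |b| + 1 := by field_simp
  set q := (|a| + |b| + 1) / c
  induction n using gg_cases with
  | h0 => rw [gg_zero, abs_zero]; positivity
  | h1 k =>
    have hk : (0 : ℝ) ≤ k := Nat.cast_nonneg k
    have h1 : 0 < c + 2 * k := by positivity
    rw [gg_odd, abs_div, abs_of_pos h1, div_le_iff₀ h1]
    have := abs_add_le b k
    rw [abs_of_nonneg hk] at this
    nlinarith [mul_nonneg hq hk]
  | h2 k =>
    have hk : (0 : ℝ) ≤ k := Nat.cast_nonneg k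
    have h1 : 0 < c + 2 * k + 1 := by positivity
    rw [gg_even, abs_div, abs_of_pos h1, div_le_iff₀ h1]
    have := abs_add_le a (1 + k)
    rw [abs_of_nonneg (show (0 : ℝ) ≤ 1 + k by positivity), ← add_assoc] at this
    nlinarith [mul_nonneg hq hk]

theorem gg_nonneg {a b c : ℝ} (ha : 0 ≤ a + 1) (hb : 0 ≤ b) (hc : 0 < c) (n : ℕ) :
    0 ≤ gg a b c n := by
  induction n using gg_cases with
  | h0 => rw [gg_zero]
  | h1 k => rw [gg_odd]; positivity
  | h2 k => rw [gg_even]; positivity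

theorem gg_le_one {a b c : ℝ} (ha : a ≤ c) (hb : b ≤ c) (hc : 0 < c) (n : ℕ) :
    gg a b c n ≤ 1 := by
  induction n using gg_cases with
  | h0 => rw [gg_zero]; exact zero_le_one
  | h1 k =>
    have hk : (0 : ℝ) ≤ k := Nat.cast_nonneg k
    rw [gg_odd, div_le_one (by positivity)]
    linarith
  | h2 k =>
    have hk : (0 : ℝ) ≤ k := Nat.cast_nonneg k
    rw [gg_even, div_le_one (by positivity)]
    linarith

theorem cf_bound (A : ℝ) {B C : ℝ} (hC : 0 < C) :
    ∃ R : ℝ, 1 ≤ R ∧ ∀ k, |cf A B C k| ≤ |2 * B| * R ^ k := by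
  obtain ⟨R, hR, h⟩ := frac_bound (gg_zero B A C) (gg_bound B A hC) (WW_frac B A hC)
  refine ⟨R, hR, fun k => ?_⟩
  rw [cf_eq, abs_mul]
  exact mul_le_mul_of_nonneg_left (h k) (abs_nonneg _)

theorem cf_meas {A B C : ℝ} (hA : 0 ≤ A) (hB : 0 ≤ B) (hC : 0 < C) (hAC : A ≤ C) (hBC : B ≤ C) :
    ∃ θ : Measure ℝ, IsProbabilityMeasure θ ∧ (∀ᵐ t ∂θ, t ∈ Icc (0 : ℝ) 1) ∧
      ∀ k, cf A B C k = 2 * B * ∫ t, t ^ k ∂θ := by
  obtain ⟨θ, hθ, hI, h⟩ := frac_unit_meas (gg_zero B A C) (gg_le_one hBC hAC hC)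
    (gg_nonneg (by linarith) hA hC) (WW_frac B A hC)
  exact ⟨θ, hθ, hI, fun k => by rw [cf_eq, h]⟩

theorem cf_zero (A B : ℝ) {C : ℝ} (hC : 0 < C) : cf A B C 0 = 2 * B := by
  rw [cf_eq, (frac_low (WW_frac B A hC)).1, mul_one]

theorem cf_conv (A B C : ℝ) (k : ℕ) :
    ∑ p ∈ Finset.HasAntidiagonal.antidiagonal k, cf A B C p.1 * hyp A B C p.2 = 2 * (B + k) * hyp A B C k := by
  have h1 : FF A (B + 1) C * (FF A B C)⁻¹ * FF A B C = FF A (B + 1) C := by
    linear_combination FF A (B + 1) C * FF_mul_inv A B C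
  have h2 := congrArg (coeff k) h1
  rw [coeff_mul, coeff_FF] at h2
  have h3 := hyp_up A B C k
  have h4 : ∑ p ∈ Finset.HasAntidiagonal.antidiagonal k, cf A B C p.1 * hyp A B C p.2
      = 2 * B * ∑ p ∈ Finset.HasAntidiagonal.antidiagonal k,
        coeff p.1 (FF A (B + 1) C * (FF A B C)⁻¹) * coeff p.2 (FF A B C) := by
    rw [Finset.mul_sum]
    refine Finset.sum_congr rfl (fun p _ => ?_)
    rw [coeff_FF, ← mul_assoc]
    rfl
  rw [h4, h2]
  linear_combination 2 * h3

theorem hankel_A {A B C : ℝ} (hA : 0 < A) (hB : 0 < B) (hC : 0 < C)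
    (h : ∀ l : ℝ, 0 ≤ cf A B C 2 - 2 * l * cf A B C 1 + l ^ 2 * cf A B C 0) : A ≤ C := by
  obtain ⟨h0, h1, h2, -⟩ := frac_low (WW_frac B A hC)
  have g1 := gg_odd B A C 0
  have g2 := gg_even B A C 0
  simp only [Nat.cast_zero, add_zero, mul_zero, zero_add] at g1 g2
  have h3 := h (A / C)
  rw [cf_eq, cf_eq, cf_eq, h0, h1, h2] at h3
  simp only [al, gg_zero, zero_add, Nat.reduceAdd, g1, g2] at h3
  by_contra hAC
  have hx : 1 < A / C := (one_lt_div hC).2 (not_le.1 hAC)
  have hy : 0 < (B + 1) / (C + 1) := by positivity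
  set x := A / C
  set y := (B + 1) / (C + 1)
  have : 0 < B * (x * ((x - 1) * y)) := by
    have : 0 < x - 1 := by linarith
    have : 0 < x := by linarith
    positivity
  nlinarith

theorem hankel_B {A B C : ℝ} (hA : 0 < A) (hB : 0 < B) (hC : 0 < C) (hAC : A < C)
    (h : ∀ l : ℝ, 0 ≤ cf A B C 3 - 2 * l * cf A B C 2 + l ^ 2 * cf A B C 1) : B ≤ C := by
  obtain ⟨-, h1, h2, h3⟩ := frac_low (WW_frac B A hC)
  have g1 := gg_odd B A C 0
  have g2 := gg_even B A C 0
  have g3 := gg_odd B A C 1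
  simp only [Nat.cast_zero, add_zero, mul_zero, zero_add, Nat.cast_one, mul_one,
    Nat.reduceAdd] at g1 g2 g3
  have h4 := h (A / C + (1 - A / C) * ((B + 1) / (C + 1)))
  rw [cf_eq, cf_eq, cf_eq, h1, h2, h3] at h4
  simp only [al, gg_zero, zero_add, Nat.reduceAdd, g1, g2, g3] at h4
  by_contra hBC
  have hx : A / C < 1 := (div_lt_one hC).2 hAC
  have hx0 : 0 < A / C := by positivity
  have hy : 1 < (B + 1) / (C + 1) := (one_lt_div (by linarith)).2 (by linarith [not_le.1 hBC])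
  have hz : 0 < (A + 1) / (C + 2) := by positivity
  set x := A / C
  set y := (B + 1) / (C + 1)
  set z := (A + 1) / (C + 2)
  have : 0 < B * (x * (((1 - x) * y) * ((y - 1) * z))) := by
    have : 0 < 1 - x := by linarith
    have : 0 < y - 1 := by linarith
    have : 0 < y := by linarith
    positivity
  nlinarith

end Pool.Agent.P.MP_ede858_pr
end

-- part Pool.Agent.P.MP_ede858_pr.Ser
section

set_option autoImplicit false

open Set Filter Topology MeasureTheory

namespace Pool.Agent.P.MP_ede858_pr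

/-! Entire series `∑ c k x ^ (2 k + i) / (2 k + i)!` with geometrically bounded coefficients. -/

/-- The series `∑ c k x ^ (2 k + i) / (2 k + i)!`. -/
noncomputable def Sr (i : ℕ) (c : ℕ → ℝ) (x : ℝ) : ℝ :=
  ∑' k : ℕ, c k * x ^ (2 * k + i) / ((2 * k + i).factorial : ℝ)

/-- Geometric growth. -/
def Geo (c : ℕ → ℝ) (K R : ℝ) : Prop := 1 ≤ R ∧ ∀ k, |c k| ≤ K * R ^ k

theorem Geo.nonneg {c : ℕ → ℝ} {K R : ℝ} (h : Geo c K R) : 0 ≤ K := by
  have := (abs_nonneg _).trans (h.2 0)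
  simpa using this

theorem Geo.succ {c : ℕ → ℝ} {K R : ℝ} (h : Geo c K R) : Geo (fun k => c (k + 1)) (K * R) R :=
  ⟨h.1, fun k => by simpa [pow_succ', mul_assoc] using h.2 (k + 1)⟩

theorem geo_pow {t R : ℝ} (hR : 1 ≤ R) (ht : |t| ≤ R) : Geo (fun k => t ^ k) 1 R :=
  ⟨hR, fun k => by rw [abs_pow, one_mul]; exact pow_le_pow_left₀ (abs_nonneg _) ht k⟩

theorem geo_one : Geo (fun _ => (1 : ℝ)) 1 1 := ⟨le_rfl, fun k => by simp⟩

theorem summable_aux (i : ℕ) (y : ℝ) :
    Summable (fun k : ℕ => y ^ (2 * k + i) / ((2 * k + i).factorial : ℝ)) :=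
  (Real.summable_pow_div_factorial y).comp_injective (i := fun k : ℕ => 2 * k + i)
    (fun a b h => by simpa using h)

theorem tsum_aux_le (i : ℕ) {y : ℝ} (hy : 0 ≤ y) :
    ∑' k : ℕ, y ^ (2 * k + i) / ((2 * k + i).factorial : ℝ) ≤ Real.exp y := by
  have h : HasSum (fun n : ℕ => y ^ n / (n.factorial : ℝ)) (Real.exp y) := by
    rw [Real.exp_eq_exp_ℝ]
    exact NormedSpace.expSeries_div_hasSum_exp y
  rw [← h.tsum_eq]
  exact (summable_aux i y).tsum_le_tsum_of_inj (fun k : ℕ => 2 * k + i)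
    (fun a b h => by simpa using h) (fun n _ => by positivity) (fun k => le_rfl) h.summable

theorem term_le {c : ℕ → ℝ} {K R : ℝ} (h : Geo c K R) (i k : ℕ) {x y : ℝ} (hxy : |x| ≤ y) :
    |c k * x ^ (2 * k + i) / ((2 * k + i).factorial : ℝ)|
      ≤ K * ((R * y) ^ (2 * k + i) / ((2 * k + i).factorial : ℝ)) := by
  have hK := h.nonneg
  have hR : 0 ≤ R := zero_le_one.trans h.1
  rw [abs_div, abs_mul, abs_pow, Nat.abs_cast, mul_pow, ← mul_div_assoc]
  apply div_le_div_of_nonneg_right _ (by positivity)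
  have h1 : R ^ k ≤ R ^ (2 * k + i) := pow_le_pow_right₀ h.1 (by omega)
  have h2 : |x| ^ (2 * k + i) ≤ y ^ (2 * k + i) := pow_le_pow_left₀ (abs_nonneg _) hxy _
  calc |c k| * |x| ^ (2 * k + i) ≤ K * R ^ (2 * k + i) * y ^ (2 * k + i) :=
        mul_le_mul ((h.2 k).trans (mul_le_mul_of_nonneg_left h1 hK)) h2 (by positivity)
          (by positivity)
    _ = _ := by ring

theorem Geo.summable {c : ℕ → ℝ} {K R : ℝ} (h : Geo c K R) (i : ℕ) (x : ℝ) :
    Summable (fun k : ℕ => c k * x ^ (2 * k + i) / ((2 * k + i).factorial : ℝ)) :=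
  Summable.of_norm_bounded ((summable_aux i (R * |x|)).mul_left K)
    (fun k => term_le h i k le_rfl)

theorem Geo.hasSum {c : ℕ → ℝ} {K R : ℝ} (h : Geo c K R) (i : ℕ) (x : ℝ) :
    HasSum (fun k : ℕ => c k * x ^ (2 * k + i) / ((2 * k + i).factorial : ℝ)) (Sr i c x) :=
  (h.summable i x).hasSum

theorem Geo.bound {c : ℕ → ℝ} {K R : ℝ} (h : Geo c K R) (i : ℕ) (x : ℝ) :
    |Sr i c x| ≤ K * Real.exp (R * |x|) := by
  have hR : 0 ≤ R := zero_le_one.trans h.1
  have h1 := tsum_of_norm_bounded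
    (f := fun k : ℕ => c k * x ^ (2 * k + i) / ((2 * k + i).factorial : ℝ))
    ((summable_aux i (R * |x|)).mul_left K).hasSum (fun k => term_le h i k (le_refl |x|))
  rw [tsum_mul_left] at h1
  exact h1.trans (mul_le_mul_of_nonneg_left (tsum_aux_le i (by positivity)) h.nonneg)

theorem Geo.hasDerivAt {c : ℕ → ℝ} {K R : ℝ} (h : Geo c K R) (i : ℕ) (x : ℝ) :
    HasDerivAt (Sr (i + 1) c) (Sr i c x) x := by
  refine hasDerivAt_tsum_of_isPreconnected (𝕜 := ℝ) (t := Ioo (-(|x| + 1)) (|x| + 1))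
    (g := fun k z => c k * z ^ (2 * k + (i + 1)) / ((2 * k + (i + 1)).factorial : ℝ))
    (g' := fun k z => c k * z ^ (2 * k + i) / ((2 * k + i).factorial : ℝ)) (y₀ := x)
    ((summable_aux i (R * (|x| + 1))).mul_left K) isOpen_Ioo isPreconnected_Ioo
    (fun k z _ => ?_) (fun k z hz => term_le h i k (abs_le.2 ⟨hz.1.le, hz.2.le⟩))
    ⟨by linarith [neg_abs_le x], by linarith [le_abs_self x]⟩ (h.summable _ _)
    ⟨by linarith [neg_abs_le x], by linarith [le_abs_self x]⟩
  refine (((hasDerivAt_pow (2 * k + i + 1) z).const_mul (c k)).div_const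
    (((2 * k + i + 1).factorial : ℕ) : ℝ)).congr_deriv ?_
  rw [Nat.factorial_succ, Nat.add_sub_cancel]
  push_cast
  field_simp

theorem Geo.split {c : ℕ → ℝ} {K R : ℝ} (h : Geo c K R) (i : ℕ) (x : ℝ) :
    Sr i c x = c 0 * x ^ i / (i.factorial : ℝ) + Sr (i + 2) (fun k => c (k + 1)) x := by
  unfold Sr
  rw [(h.summable i x).tsum_eq_zero_add]
  simp only [Nat.mul_zero, zero_add]
  congr 1
  refine tsum_congr (fun k => ?_)
  rw [show 2 * (k + 1) + i = 2 * k + (i + 2) by ring]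

theorem Geo.split0 {c : ℕ → ℝ} {K R : ℝ} (h : Geo c K R) (x : ℝ) :
    Sr 0 c x = c 0 + Sr 2 (fun k => c (k + 1)) x := by
  simpa using h.split 0 x

theorem Geo.hasDerivAt0 {c : ℕ → ℝ} {K R : ℝ} (h : Geo c K R) (x : ℝ) :
    HasDerivAt (Sr 0 c) (Sr 1 (fun k => c (k + 1)) x) x := by
  have e : Sr 0 c = fun x => c 0 + Sr 2 (fun k => c (k + 1)) x := funext h.split0
  rw [e]
  exact (h.succ.hasDerivAt 1 x).const_add _

theorem Geo.continuous {c : ℕ → ℝ} {K R : ℝ} (h : Geo c K R) (i : ℕ) : Continuous (Sr i c) := by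
  rw [continuous_iff_continuousAt]
  intro x
  cases i with
  | zero => exact (h.hasDerivAt0 x).continuousAt
  | succ i => exact (h.hasDerivAt i x).continuousAt

theorem Sr_succ_zero (i : ℕ) (c : ℕ → ℝ) : Sr (i + 1) c 0 = 0 := by
  simp [Sr]

theorem Geo.at_zero {c : ℕ → ℝ} {K R : ℝ} (h : Geo c K R) : Sr 0 c 0 = c 0 := by
  rw [h.split0, Sr_succ_zero, add_zero]

theorem Sr_one_zero (x : ℝ) : Sr 0 (fun _ => 1) x = Real.cosh x := by
  simp [Sr, Real.cosh_eq_tsum]

theorem Sr_one_one (x : ℝ) : Sr 1 (fun _ => 1) x = Real.sinh x := by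
  simp [Sr, Real.sinh_eq_tsum]

theorem Sr_one_two (x : ℝ) : Sr 2 (fun _ => 1) x = Real.cosh x - 1 := by
  rw [← Sr_one_zero, geo_one.split0]
  ring

theorem Sr_mul (i : ℕ) (a : ℝ) (c : ℕ → ℝ) (x : ℝ) :
    Sr i (fun k => a * c k) x = a * Sr i c x := by
  unfold Sr
  rw [← tsum_mul_left]
  refine tsum_congr (fun k => by ring)

theorem Sr_add {c c' : ℕ → ℝ} {K R K' R' : ℝ} (h : Geo c K R) (h' : Geo c' K' R') (i : ℕ) (x : ℝ) :
    Sr i (fun k => c k + c' k) x = Sr i c x + Sr i c' x := by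
  unfold Sr
  rw [← (h.summable i x).tsum_add (h'.summable i x)]
  refine tsum_congr (fun k => by ring)

theorem Sr_mono {c c' : ℕ → ℝ} {K R K' R' : ℝ} (h : Geo c K R) (h' : Geo c' K' R') (i : ℕ)
    {x : ℝ} (hx : 0 ≤ x) (hc : ∀ k, c k ≤ c' k) : Sr i c x ≤ Sr i c' x :=
  (h.summable i x).tsum_le_tsum (fun k => by
    apply div_le_div_of_nonneg_right _ (by positivity)
    exact mul_le_mul_of_nonneg_right (hc k) (by positivity)) (h'.summable i x)

theorem Sr_nonneg {c : ℕ → ℝ} (i : ℕ) {x : ℝ} (hx : 0 ≤ x) (hc : ∀ k, 0 ≤ c k) : 0 ≤ Sr i c x :=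
  tsum_nonneg (fun k => by have := hc k; positivity)

theorem geo_const (a : ℝ) : Geo (fun _ => a) |a| 1 := ⟨le_rfl, fun k => by simp⟩

theorem Sr_const (i : ℕ) (a x : ℝ) : Sr i (fun _ => a) x = a * Sr i (fun _ => 1) x := by
  rw [← Sr_mul]
  simp

theorem Sr_integral (θ : Measure ℝ) [IsProbabilityMeasure θ] (φ : ℕ → ℝ → ℝ) {K R : ℝ}
    (hm : ∀ k, Measurable (φ k)) (hφ : ∀ᵐ t ∂θ, Geo (fun k => φ k t) K R) (i : ℕ) (x : ℝ) :
    Integrable (fun t => Sr i (fun k => φ k t) x) θ ∧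
      Sr i (fun k => ∫ t, φ k t ∂θ) x = ∫ t, Sr i (fun k => φ k t) x ∂θ := by
  constructor
  · refine Integrable.of_bound ?_ (K * Real.exp (R * |x|)) ?_
    · refine aestronglyMeasurable_of_tendsto_ae atTop (f := fun n t => ∑ k ∈ Finset.range n,
        φ k t * x ^ (2 * k + i) / ((2 * k + i).factorial : ℝ)) (fun n => ?_) ?_
      · exact (Finset.measurable_sum _ (fun k _ =>
          ((hm k).mul_const _).div_const _)).aestronglyMeasurable
      · filter_upwards [hφ] with t ht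
        exact (ht.hasSum i x).tendsto_sum_nat
    · filter_upwards [hφ] with t ht
      exact ht.bound i x
  · have h := hasSum_integral_of_dominated_convergence (μ := θ)
      (F := fun k t => φ k t * x ^ (2 * k + i) / ((2 * k + i).factorial : ℝ))
      (f := fun t => Sr i (fun k => φ k t) x)
      (fun k _ => K * ((R * |x|) ^ (2 * k + i) / ((2 * k + i).factorial : ℝ)))
      (fun k => (((hm k).mul_const _).div_const _).aestronglyMeasurable)
      (fun k => by
        filter_upwards [hφ] with t ht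
        exact term_le ht i k le_rfl)
      (Eventually.of_forall (fun _ => (summable_aux i (R * |x|)).mul_left K))
      (integrable_const _)
      (by
        filter_upwards [hφ] with t ht
        exact ht.hasSum i x)
    rw [← h.tsum_eq]
    refine tsum_congr (fun k => ?_)
    rw [integral_div, integral_mul_const]

theorem geo_integral (θ : Measure ℝ) [IsProbabilityMeasure θ] (φ : ℕ → ℝ → ℝ) {K R : ℝ}
    (hφ : ∀ᵐ t ∂θ, Geo (fun k => φ k t) K R) : Geo (fun k => ∫ t, φ k t ∂θ) K R := by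
  obtain ⟨t, ht⟩ := hφ.exists
  refine ⟨ht.1, fun k => ?_⟩
  have := norm_integral_le_of_norm_le_const (μ := θ) (f := φ k) (C := K * R ^ k) (by
    filter_upwards [hφ] with t ht
    exact ht.2 k)
  simpa using this

theorem Sr_sq (u x : ℝ) : Sr 0 (fun k => (u ^ 2) ^ k) x = Real.cosh (u * x) := by
  rw [Real.cosh_eq_tsum]
  refine tsum_congr (fun k => ?_)
  simp only [add_zero, mul_pow, ← pow_mul]

theorem Sr_neg_sq (u x : ℝ) : Sr 0 (fun k => (-(u ^ 2)) ^ k) x = Real.cos (u * x) := by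
  rw [Real.cos_eq_tsum]
  refine tsum_congr (fun k => ?_)
  simp only [add_zero]
  rw [mul_pow, neg_pow, ← pow_mul, mul_assoc]

theorem Sr_neg_sq_one (u x : ℝ) : u * Sr 1 (fun k => (-(u ^ 2)) ^ k) x = Real.sin (u * x) := by
  rw [Real.sin_eq_tsum, Sr, ← tsum_mul_left]
  refine tsum_congr (fun k => ?_)
  rw [mul_pow, neg_pow, ← pow_mul]
  ring

theorem Sr_pow_split (t x : ℝ) :
    Sr 0 (fun k => t ^ k) x = 1 + t * Sr 2 (fun k => t ^ k) x := by
  rw [(geo_pow (le_max_left 1 |t|) (le_max_right 1 |t|)).split0, pow_zero, ← Sr_mul]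
  simp only [pow_succ']

theorem half_sq_le (x : ℝ) : x ^ 2 / 2 ≤ Real.cosh x - 1 := by
  have h := (summable_aux 2 |x|).sum_le_tsum {0} (fun k _ => by positivity)
  have h2 := Sr_one_two |x|
  simp only [Sr, one_mul] at h2
  rw [h2, Real.cosh_abs] at h
  simpa using h

theorem ker_neg {t : ℝ} (ht : t < 0) {x : ℝ} (hx : 0 ≤ x) :
    0 ≤ Sr 2 (fun k => t ^ k) x ∧ Sr 2 (fun k => t ^ k) x ≤ x ^ 2 / 2 ∧
      |Sr 1 (fun k => t ^ k) x| ≤ x := by
  obtain ⟨u, hu, rfl⟩ : ∃ u, 0 < u ∧ t = -(u ^ 2) :=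
    ⟨√(-t), Real.sqrt_pos.2 (by linarith), by rw [Real.sq_sqrt (by linarith)]; ring⟩
  have h1 := Sr_pow_split (-(u ^ 2)) x
  rw [Sr_neg_sq] at h1
  have h2 := Real.cos_le_one (u * x)
  have h3 := Real.one_sub_sq_div_two_le_cos (x := u * x)
  have h4 := Sr_neg_sq_one u x
  have h5 := Real.abs_sin_le_abs (x := u * x)
  have hu2 : 0 < u ^ 2 := by positivity
  refine ⟨?_, ?_, ?_⟩
  · by_contra h
    nlinarith [mul_pos hu2 (neg_pos.2 (not_le.1 h))]
  · by_contra h
    nlinarith [mul_pos hu2 (sub_pos.2 (not_le.1 h))]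
  · rw [← h4, abs_mul, abs_mul, abs_of_pos hu, abs_of_nonneg hx] at h5
    exact le_of_mul_le_mul_left h5 hu

theorem ker_two {t : ℝ} (ht : t ≤ 1) {x : ℝ} (hx : 0 ≤ x) :
    0 ≤ Sr 2 (fun k => t ^ k) x ∧ Sr 2 (fun k => t ^ k) x ≤ Real.cosh x - 1 ∧
      t * (x ^ 2 / 2) ≤ t * Sr 2 (fun k => t ^ k) x ∧
      |Sr 1 (fun k => t ^ k) x| ≤ Real.sinh x := by
  rcases lt_or_ge t 0 with h | h
  · obtain ⟨h1, h2, h3⟩ := ker_neg h hx
    exact ⟨h1, h2.trans (half_sq_le x), mul_le_mul_of_nonpos_left h2 h.le,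
      h3.trans (Real.self_le_sinh_iff.2 hx)⟩
  · have hg : Geo (fun k => t ^ k) 1 1 := geo_pow le_rfl (by rwa [abs_of_nonneg h])
    refine ⟨Sr_nonneg _ hx (fun k => by positivity), ?_, ?_, ?_⟩
    · rw [← Sr_one_two]
      exact Sr_mono hg geo_one _ hx (fun k => pow_le_one₀ h ht)
    · apply mul_le_mul_of_nonneg_left _ h
      rw [hg.split 2 x]
      have := Sr_nonneg (c := fun k => t ^ (k + 1)) (2 + 2) hx (fun k => by positivity)
      simp only [pow_zero, one_mul, Nat.factorial_two, Nat.cast_ofNat]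
      linarith
    · rw [abs_of_nonneg (Sr_nonneg _ hx (fun k => by positivity)), ← Sr_one_one]
      exact Sr_mono hg geo_one _ hx (fun k => pow_le_one₀ h ht)

end Pool.Agent.P.MP_ede858_pr
end

-- part Pool.Agent.P.MP_ede858_pr.Lap
section

set_option autoImplicit false

open Set Filter Topology MeasureTheory ProbabilityTheory Real

namespace Pool.Agent.P.MP_ede858_pr

/-! General facts on Laplace transforms. -/

/-- The Laplace transform of a measure. -/
noncomputable def lap (P : Measure ℝ) (s : ℝ) : ℝ := ∫ x, exp (-(s * x)) ∂P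

/-- Exponential integrability to the right of `s0`. -/
def ExpInt (P : Measure ℝ) (s0 : ℝ) : Prop :=
  ∀ s, s0 < s → Integrable (fun x => exp (-(s * x))) P

theorem lap_eq_mgf (P : Measure ℝ) : lap P = mgf (fun x : ℝ => -x) P := by
  funext s
  simp [lap, mgf]

theorem ExpInt.mem {P : Measure ℝ} {s0 s : ℝ} (h : ExpInt P s0) (hs : s0 < s) :
    s ∈ interior (integrableExpSet (fun x : ℝ => -x) P) := by
  refine interior_maximal (t := Ioi s0) (fun t ht => ?_) isOpen_Ioi hs
  simpa [integrableExpSet] using h t ht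

theorem ExpInt.hasDerivAt {P : Measure ℝ} {s0 s : ℝ} (h : ExpInt P s0) (hs : s0 < s) :
    HasDerivAt (lap P) (-∫ x, x * exp (-(s * x)) ∂P) s := by
  rw [lap_eq_mgf, ← integral_neg]
  convert hasDerivAt_mgf (h.mem hs) using 3
  simp

theorem ExpInt.integrable_mul {P : Measure ℝ} {s0 s : ℝ} (h : ExpInt P s0) (hs : s0 < s) :
    Integrable (fun x => x * exp (-(s * x))) P := by
  have := (integrable_pow_mul_exp_of_mem_interior_integrableExpSet (h.mem hs) 1).neg
  refine this.congr (Eventually.of_forall (fun x => ?_))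
  simp

theorem ExpInt.analytic {P : Measure ℝ} {s0 : ℝ} (h : ExpInt P s0) :
    AnalyticOnNhd ℝ (lap P) (Ioi s0) := by
  rw [lap_eq_mgf]
  exact fun s hs => analyticAt_mgf (h.mem hs)

theorem ExpInt.pos {P : Measure ℝ} [IsProbabilityMeasure P] {s0 s : ℝ} (h : ExpInt P s0)
    (hs : s0 < s) : 0 < lap P s := by
  rw [lap_eq_mgf]
  exact mgf_pos (by simpa using h s hs)

theorem lap_zero (P : Measure ℝ) [IsProbabilityMeasure P] : lap P 0 = 1 := by
  simp [lap]

theorem law_integral {f : ℝ → ℝ} (hm : AEMeasurable f (volume.restrict (Ioi 0)))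
    (h0 : ∀ x, 0 < x → 0 ≤ f x) (g : ℝ → ℝ) :
    ∫ x, g x ∂(law f) = ∫ x in Ioi (0 : ℝ), g x * f x := by
  unfold law
  rw [integral_withDensity_eq_integral_toReal_smul₀ hm.ennreal_ofReal (by simp)]
  refine setIntegral_congr_fun measurableSet_Ioi (fun x hx => ?_)
  simp only [smul_eq_mul]
  rw [ENNReal.toReal_ofReal (h0 x hx), mul_comm]

theorem law_integrable {f : ℝ → ℝ} (hm : AEMeasurable f (volume.restrict (Ioi 0)))
    (h0 : ∀ x, 0 < x → 0 ≤ f x) (g : ℝ → ℝ) :
    Integrable g (law f) ↔ IntegrableOn (fun x => g x * f x) (Ioi (0 : ℝ)) := by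
  unfold law
  rw [integrable_withDensity_iff_integrable_smul₀' hm.ennreal_ofReal (by simp)]
  refine integrableOn_congr_fun (fun x hx => ?_) measurableSet_Ioi
  simp only [smul_eq_mul]
  rw [ENNReal.toReal_ofReal (h0 x hx), mul_comm]

theorem law_pos (f : ℝ → ℝ) : ∀ᵐ x ∂(law f), 0 < x :=
  (withDensity_absolutelyContinuous _ _).ae_le (ae_restrict_mem measurableSet_Ioi)

theorem integrable_tsum_of_summable {μ : Measure ℝ} {F : ℕ → ℝ → ℝ} {f : ℝ → ℝ}
    (hF : ∀ k, Integrable (F k) μ) (hs : Summable (fun k => ∫ x, ‖F k x‖ ∂μ))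
    (hf : ∀ᵐ x ∂μ, HasSum (fun k => F k x) (f x)) : Integrable f μ := by
  constructor
  · refine aestronglyMeasurable_of_tendsto_ae atTop
      (f := fun n x => ∑ k ∈ Finset.range n, F k x) (fun n => ?_) ?_
    · exact (integrable_finsetSum _ (fun k _ => hF k)).1
    · filter_upwards [hf] with x hx
      exact hx.tendsto_sum_nat
  · have h1 : ∫⁻ x, ‖f x‖ₑ ∂μ ≤ ∫⁻ x, ∑' k, ‖F k x‖ₑ ∂μ := by
      refine lintegral_mono_ae ?_
      filter_upwards [hf] with x hx
      rw [← hx.tsum_eq]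
      exact enorm_tsum_le_tsum_enorm
    refine lt_of_le_of_lt h1 ?_
    rw [lintegral_tsum (fun k => (hF k).1.enorm)]
    have h2 : ∀ k, ∫⁻ x, ‖F k x‖ₑ ∂μ = ENNReal.ofReal (∫ x, ‖F k x‖ ∂μ) :=
      fun k => (ofReal_integral_norm_eq_lintegral_enorm (hF k)).symm
    simp only [h2]
    rw [← ENNReal.ofReal_tsum_of_nonneg (fun k => integral_nonneg (fun x => norm_nonneg _)) hs]
    exact ENNReal.ofReal_lt_top

theorem lt_series (a : ℕ → ℝ) {β σ : ℝ} (hβ : 0 < β) (hσ : 0 < σ) (f : ℝ → ℝ)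
    (hf : ∀ x, 0 < x → HasSum (fun k : ℕ => a k * x ^ (β + 2 * k - 1)) (f x))
    (hs : Summable (fun k : ℕ => |a k| * ((1 / σ) ^ (β + 2 * k) * Gamma (β + 2 * k)))) :
    IntegrableOn (fun x => exp (-(σ * x)) * f x) (Ioi 0) ∧
      HasSum (fun k : ℕ => a k * ((1 / σ) ^ (β + 2 * k) * Gamma (β + 2 * k)))
        (∫ x in Ioi 0, exp (-(σ * x)) * f x) := by
  have hp : ∀ k : ℕ, 0 < β + 2 * k := fun k => by positivity
  have hI : ∀ k : ℕ, Integrable (fun x : ℝ => a k * (x ^ (β + 2 * k - 1) * exp (-(σ * x))))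
      (volume.restrict (Ioi 0)) := by
    intro k
    have := integrableOn_rpow_mul_exp_neg_mul_rpow (s := β + 2 * k - 1) (p := 1) (b := σ)
      (by linarith [hp k]) one_pos hσ
    simp only [rpow_one, neg_mul] at this
    exact this.const_mul _
  have hN : ∀ k : ℕ, ∫ x in Ioi (0 : ℝ), ‖a k * (x ^ (β + 2 * k - 1) * exp (-(σ * x)))‖
      = |a k| * ((1 / σ) ^ (β + 2 * k) * Gamma (β + 2 * k)) := by
    intro k
    rw [← integral_rpow_mul_exp_neg_mul_Ioi (hp k) hσ, ← integral_const_mul]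
    refine setIntegral_congr_fun measurableSet_Ioi (fun x hx => ?_)
    have hx' : 0 < x := hx
    simp only [Real.norm_eq_abs]
    rw [abs_mul, abs_of_nonneg (a := _ * exp _) (by positivity)]
  have hH : ∀ᵐ x ∂(volume.restrict (Ioi (0 : ℝ))),
      HasSum (fun k : ℕ => a k * (x ^ (β + 2 * k - 1) * exp (-(σ * x)))) (exp (-(σ * x)) * f x) := by
    filter_upwards [ae_restrict_mem measurableSet_Ioi] with x hx
    exact ((hf x hx).mul_left (exp (-(σ * x)))).congr_fun (fun k => by ring)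
  have hS : Summable (fun k : ℕ =>
      ∫ x in Ioi (0 : ℝ), ‖a k * (x ^ (β + 2 * k - 1) * exp (-(σ * x)))‖) := by
    simpa only [hN] using hs
  refine ⟨integrable_tsum_of_summable hI hS hH, ?_⟩
  have h := hasSum_integral_of_summable_integral_norm hI hS
  have e : ∫ x in Ioi (0 : ℝ), ∑' k : ℕ, a k * (x ^ (β + 2 * k - 1) * exp (-(σ * x)))
      = ∫ x in Ioi 0, exp (-(σ * x)) * f x := by
    refine integral_congr_ae ?_
    filter_upwards [hH] with x hx
    exact hx.tsum_eq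
  rw [e] at h
  simpa only [integral_const_mul, integral_rpow_mul_exp_neg_mul_Ioi (hp _) hσ] using h

theorem integrableOn_bdd_mul {f g : ℝ → ℝ} {M : ℝ} (hf : IntegrableOn f (Ioi 0))
    (hg : Continuous g) (hM : ∀ x, 0 < x → |g x| ≤ M) :
    IntegrableOn (fun x => g x * f x) (Ioi 0) := by
  refine Integrable.bdd_mul (c := M) hf hg.aestronglyMeasurable ?_
  filter_upwards [ae_restrict_mem measurableSet_Ioi] with x hx
  exact hM x hx

theorem exp_neg_mem {x : ℝ} (hx : 0 < x) : exp (-x) ∈ Icc (0 : ℝ) 1 :=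
  ⟨(exp_pos _).le, exp_le_one_iff.2 (by linarith)⟩

theorem integrableOn_poly_mul {f : ℝ → ℝ} (hf : IntegrableOn f (Ioi 0)) (p : Polynomial ℝ) :
    IntegrableOn (fun x => p.eval (exp (-x)) * f x) (Ioi 0) := by
  obtain ⟨M, hM⟩ := isCompact_Icc.exists_bound_of_continuousOn
    (p.continuous.continuousOn (s := Icc (0 : ℝ) 1))
  exact integrableOn_bdd_mul hf (by fun_prop) (fun x hx => hM _ (exp_neg_mem hx))

theorem pos_transfer {f : ℝ → ℝ} (hc : ContinuousOn f (Ioi 0)) (hi : IntegrableOn f (Ioi 0))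
    (h : ∀ p : Polynomial ℝ, (∀ y ∈ Icc (0 : ℝ) 1, 0 ≤ p.eval y) → p.eval 1 = 0 →
      0 ≤ ∫ x in Ioi 0, p.eval (exp (-x)) * f x) {x0 : ℝ} (hx0 : 0 < x0) : 0 ≤ f x0 := by
  by_contra hneg
  have hev : ∀ᶠ x in 𝓝 x0, f x < 0 ∧ 0 < x :=
    ((hc.continuousAt (Ioi_mem_nhds hx0)).eventually (gt_mem_nhds (not_le.1 hneg))).and
      (lt_mem_nhds hx0)
  obtain ⟨δ, hδ, hball⟩ := Metric.eventually_nhds_iff.1 hev
  set y1 := exp (-(x0 + δ))
  set y2 := exp (-(x0 - δ))
  let g : ℝ → ℝ := fun y => max 0 ((y - y1) * (y2 - y))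
  have hg : Continuous g := by fun_prop
  obtain ⟨M, hM⟩ := isCompact_Icc.exists_bound_of_continuousOn
    (f := fun y => (1 - y) * g y) (s := Icc (0 : ℝ) 1) (by fun_prop)
  have hφ : IntegrableOn (fun x => ((1 - exp (-x)) * g (exp (-x))) * f x) (Ioi 0) :=
    integrableOn_bdd_mul hi (by fun_prop) (fun x hx => hM _ (exp_neg_mem hx))
  have h1 : 0 ≤ ∫ x in Ioi 0, ((1 - exp (-x)) * g (exp (-x))) * f x := by
    have hN : 0 ≤ ∫ x in Ioi (0 : ℝ), |f x| := integral_nonneg (fun x => abs_nonneg _)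
    refine le_of_forall_pos_le_add (fun ε hε => ?_)
    set η := ε / (2 * ((∫ x in Ioi (0 : ℝ), |f x|) + 1)) with hη
    have hη0 : 0 < η := by positivity
    obtain ⟨p, hp⟩ := exists_polynomial_near_of_continuousOn 0 1 g hg.continuousOn η hη0
    have h2 := h ((1 - Polynomial.X) * (p + Polynomial.C η)) (fun y hy => by
      have h3 := abs_lt.1 (hp y hy)
      have h4 : 0 ≤ g y := le_max_left _ _
      simp only [Polynomial.eval_mul, Polynomial.eval_sub, Polynomial.eval_one, Polynomial.eval_X,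
        Polynomial.eval_add, Polynomial.eval_C]
      exact mul_nonneg (by linarith [hy.2]) (by linarith)) (by simp)
    have h3 : ∫ x in Ioi 0, ((1 - Polynomial.X) * (p + Polynomial.C η)).eval (exp (-x)) * f x
        ≤ ∫ x in Ioi 0, (((1 - exp (-x)) * g (exp (-x))) * f x + 2 * η * |f x|) := by
      refine setIntegral_mono_on (integrableOn_poly_mul hi _)
        (hφ.add (hi.abs.const_mul _)) measurableSet_Ioi (fun x hx => ?_)
      have hy := exp_neg_mem hx
      have h3 := abs_lt.1 (hp _ hy)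
      simp only [Polynomial.eval_mul, Polynomial.eval_sub, Polynomial.eval_one, Polynomial.eval_X,
        Polynomial.eval_add, Polynomial.eval_C]
      have h5 : |(1 - exp (-x)) * (p.eval (exp (-x)) + η - g (exp (-x)))| ≤ 2 * η := by
        rw [abs_mul, abs_of_nonneg (by linarith [hy.2]), abs_of_nonneg (by linarith)]
        nlinarith [hy.1, hy.2]
      have h6 := le_abs_self ((1 - exp (-x)) * (p.eval (exp (-x)) + η - g (exp (-x))) * f x)
      rw [abs_mul] at h6
      nlinarith [mul_le_mul_of_nonneg_right h5 (abs_nonneg (f x))]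
    rw [integral_add hφ (hi.abs.const_mul _), integral_const_mul] at h3
    have h4 : 2 * η * ∫ x in Ioi (0 : ℝ), |f x| ≤ ε := by
      have : 2 * η * ((∫ x in Ioi (0 : ℝ), |f x|) + 1) = ε := by
        rw [hη]
        field_simp
      nlinarith
    linarith
  have h2 : 0 < ∫ x in Ioi 0, -(((1 - exp (-x)) * g (exp (-x))) * f x) := by
    rw [setIntegral_pos_iff_support_of_nonneg_ae (f := fun x =>
      -(((1 - exp (-x)) * g (exp (-x))) * f x)) _ hφ.neg]
    · refine lt_of_lt_of_le ?_ (measure_mono (s := Ioo (x0 - δ) (x0 + δ)) (fun x hx => ?_))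
      · simp only [Real.volume_Ioo, ENNReal.ofReal_pos]
        linarith
      · have h3 := hball (y := x) (by rw [Real.dist_eq, abs_lt]; constructor <;> linarith [hx.1, hx.2])
        refine ⟨?_, h3.2⟩
        have h4 : y1 < exp (-x) := exp_lt_exp.2 (by linarith [hx.2])
        have h5 : exp (-x) < y2 := exp_lt_exp.2 (by linarith [hx.1])
        have h6 : exp (-x) < 1 := exp_lt_one_iff.2 (by linarith [h3.2])
        have h7 : 0 < g (exp (-x)) := lt_max_of_lt_right (mul_pos (by linarith) (by linarith))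
        have h8 := mul_neg_of_pos_of_neg (mul_pos (sub_pos.2 h6) h7) h3.1
        exact (neg_pos.2 h8).ne'
    · filter_upwards [ae_restrict_mem measurableSet_Ioi] with x hx
      have hy := exp_neg_mem hx
      simp only [Pi.zero_apply, neg_nonneg]
      by_cases h3 : (exp (-x) - y1) * (y2 - exp (-x)) ≤ 0
      · have : g (exp (-x)) = 0 := max_eq_left h3
        simp [this]
      · have h12 : y1 < y2 := exp_lt_exp.2 (by linarith)
        have h4 : y1 < exp (-x) := by
          by_contra h4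
          exact h3 (mul_nonpos_of_nonpos_of_nonneg (by linarith) (by linarith))
        have h5 : exp (-x) < y2 := by
          by_contra h5
          exact h3 (mul_nonpos_of_nonneg_of_nonpos (by linarith) (by linarith))
        have h6 := exp_lt_exp.1 h4
        have h7 := exp_lt_exp.1 h5
        have h8 := hball (y := x) (by rw [Real.dist_eq, abs_lt]; constructor <;> linarith)
        exact mul_nonpos_of_nonneg_of_nonpos
          (mul_nonneg (by linarith [hy.2]) (le_max_left _ _)) h8.1.le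
  rw [integral_neg] at h2
  linarith

theorem poly_integral {f : ℝ → ℝ} (hi : IntegrableOn f (Ioi 0)) (p : Polynomial ℝ) :
    ∫ x in Ioi 0, p.eval (exp (-x)) * f x
      = ∑ n ∈ Finset.range (p.natDegree + 1),
        p.coeff n * ∫ x in Ioi 0, exp (-((n : ℝ) * x)) * f x := by
  have e : ∀ (n : ℕ) (x : ℝ), exp (-((n : ℝ) * x)) = exp (-x) ^ n := by
    intro n x
    rw [← exp_nat_mul]
    ring_nf
  simp only [Polynomial.eval_eq_sum_range, Finset.sum_mul, e]
  rw [integral_finsetSum]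
  · refine Finset.sum_congr rfl (fun n _ => ?_)
    rw [← integral_const_mul]
    simp only [mul_assoc]
  · intro n _
    have := integrableOn_poly_mul hi (Polynomial.C (p.coeff n) * Polynomial.X ^ n)
    simpa [IntegrableOn] using this

theorem zero_of_lt {f : ℝ → ℝ} {a : ℝ} (hc : ContinuousOn f (Ioi 0)) (hi : IntegrableOn f (Ioi 0))
    (h : ∀ n : ℕ, ∫ x in Ioi 0, exp (-((n : ℝ) * x)) * f x = a) {x0 : ℝ} (hx0 : 0 < x0) :
    f x0 = 0 := by
  have h0 : ∀ p : Polynomial ℝ, p.eval 1 = 0 → ∫ x in Ioi 0, p.eval (exp (-x)) * f x = 0 := by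
    intro p hp
    rw [poly_integral hi]
    simp only [h]
    rw [← Finset.sum_mul]
    rw [Polynomial.eval_eq_sum_range] at hp
    simp only [one_pow, mul_one] at hp
    rw [hp, zero_mul]
  refine le_antisymm ?_ (pos_transfer hc hi (fun p _ hp => (h0 p hp).ge) hx0)
  have := pos_transfer (f := fun x => -f x) hc.neg hi.neg (fun p _ hp => by
    simp only [mul_neg]
    rw [integral_neg, h0 p hp, neg_zero]) hx0
  linarith

theorem eq_of_deriv_zero {F : ℝ → ℝ} {s : ℝ} (hs : 0 ≤ s) (hc : ContinuousOn F (Icc 0 s))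
    (hd : ∀ u, 0 < u → HasDerivAt F 0 u) : F s = F 0 := by
  rcases hs.eq_or_lt with rfl | hs
  · rfl
  obtain ⟨c, -, hc'⟩ := exists_hasDerivAt_eq_slope F (fun _ => 0) hs hc (fun u hu => hd u hu.1)
  rw [sub_zero, eq_div_iff hs.ne', zero_mul] at hc'
  linarith

end Pool.Agent.P.MP_ede858_pr
end

-- part Pool.Agent.P.MP_ede858_pr.Key
section

set_option autoImplicit false

open Set Filter Topology MeasureTheory ProbabilityTheory Real

namespace Pool.Agent.P.MP_ede858_pr

/-! The logarithmic derivative of the Laplace transform of the laws in question. -/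

/-- The Gauss series as a function. -/
noncomputable def L0 (A B C w : ℝ) : ℝ := ∑' k : ℕ, hyp A B C k * w ^ k

/-- The series `(2 B + 2 w d/dw) F(A, B; C; w)` as a function. -/
noncomputable def L1 (A B C w : ℝ) : ℝ := ∑' k : ℕ, 2 * (B + k) * hyp A B C k * w ^ k

/-- The canonical function `k(x) = exp (-b x) h(r x)`. -/
noncomputable def kf (A B C r b x : ℝ) : ℝ := exp (-(b * x)) * lev A B C (r * x)

/-- The Laplace transform of the canonical function. -/
noncomputable def Gt (A B C r b s : ℝ) : ℝ := ∫ x in Ioi 0, exp (-(s * x)) * kf A B C r b x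

theorem lev_eq (A B C : ℝ) : lev A B C = Sr 0 (cf A B C) := rfl

theorem cf_geo (A B : ℝ) {C : ℝ} (hC : 0 < C) : ∃ R, Geo (cf A B C) |2 * B| R :=
  cf_bound A hC

theorem summable_hyp {A B C w : ℝ} (hA : 0 < A) (hB : 0 < B) (hC : 0 < C) (hw : 0 ≤ w)
    (hw1 : w < 1) : Summable (fun k : ℕ => hyp A B C k * w ^ k) := by
  have h1 := tendsto_add_mul_div_add_mul_atTop_nhds A C 1 (one_ne_zero (α := ℝ))
  have h2 := tendsto_add_mul_div_add_mul_atTop_nhds B 1 1 (one_ne_zero (α := ℝ))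
  have h3 := (h1.mul h2).mul_const w
  simp only [div_one, one_mul] at h3
  refine summable_of_ratio_norm_eventually_le (r := (1 + w) / 2) (by linarith) ?_
  filter_upwards [h3.eventually_le_const (show w < (1 + w) / 2 by linarith)] with k hk
  have hp := hyp_pos hA hB hC
  have h4 := hyp_succ A B hC k
  have h5 : 0 < C + k := by positivity
  have e : hyp A B C (k + 1) = hyp A B C k * ((A + k) / (C + k) * ((B + k) / (1 + k))) := by
    field_simp
    linear_combination h4
  rw [Real.norm_of_nonneg (mul_nonneg (hp _).le (by positivity)),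
    Real.norm_of_nonneg (mul_nonneg (hp _).le (by positivity)), e, pow_succ]
  have := mul_le_mul_of_nonneg_left hk (mul_nonneg (hp k).le (pow_nonneg hw k))
  linarith

theorem summable_hyp1 {A B C w : ℝ} (hA : 0 < A) (hB : 0 < B) (hC : 0 < C) (hw : 0 ≤ w)
    (hw1 : w < 1) : Summable (fun k : ℕ => 2 * (B + k) * hyp A B C k * w ^ k) := by
  refine ((summable_hyp hA (show 0 < B + 1 by linarith) hC hw hw1).mul_left (2 * B)).congr
    (fun k => ?_)
  linear_combination 2 * w ^ k * hyp_up A B C k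

theorem L0_pos {A B C w : ℝ} (hA : 0 < A) (hB : 0 < B) (hC : 0 < C) (hw : 0 ≤ w)
    (hw1 : w < 1) : 0 < L0 A B C w :=
  (summable_hyp hA hB hC hw hw1).tsum_pos
    (fun k => mul_nonneg (hyp_pos hA hB hC k).le (by positivity)) 0 (by simp [hyp_zero])

theorem sq_div_lt {r σ : ℝ} (hr : 0 < r) (h : r < σ) : (r / σ) ^ 2 < 1 := by
  have hσ : 0 < σ := hr.trans h
  exact pow_lt_one₀ (by positivity) ((div_lt_one hσ).2 h) two_ne_zero

/-- The facts on the law `P` used below. -/
structure Setup (P : Measure ℝ) (A B C r b : ℝ) : Prop where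
  hA : 0 < A
  hB : 0 < B
  hC : 0 < C
  hr : 0 < r
  hb : r < b
  prob : IsProbabilityMeasure P
  pos : ∀ᵐ x ∂P, 0 < x
  int : ExpInt P (r - b)
  ser : ∀ s, r - b < s → (s + b) * (∫ x, x * exp (-(s * x)) ∂P) * L0 A B C ((r / (s + b)) ^ 2)
    = lap P s * L1 A B C ((r / (s + b)) ^ 2)

theorem setup_of_series {A B C r b : ℝ} (hA : 0 < A) (hB : 0 < B) (hC : 0 < C) (hr : 0 < r)
    (hb : r < b) (a : ℕ → ℝ) (ha : ∀ k, 0 ≤ a k) (ha0 : 0 < a 0) (f f0 : ℝ → ℝ)
    (hrec : ∀ k : ℕ, a (k + 1) * ((2 * B + 2 * k) * (2 * B + 2 * k + 1)) * ((C + k) * (k + 1))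
      = a k * r ^ 2 * ((A + k) * (B + k)))
    (hf0 : ∀ x, 0 < x → HasSum (fun k : ℕ => a k * x ^ (2 * B + 2 * k - 1)) (f0 x))
    (hf : ∀ x, 0 < x → f x = exp (-(b * x)) * f0 x) :
    Setup (nlaw f) A B C r b := by
  set K := a 0 * Gamma (2 * B) with hK
  have hG : ∀ k : ℕ, a k * Gamma (2 * B + 2 * k) = K * (hyp A B C k * (r ^ 2) ^ k) := by
    intro k
    induction k with
    | zero => simp [hK, hyp_zero]
    | succ k ih =>
      have h1 : 0 < 2 * B + 2 * k := by positivity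
      have e : (2 * B + 2 * ((k + 1 : ℕ) : ℝ)) = (2 * B + 2 * k + 1) + 1 := by push_cast; ring
      rw [e, Gamma_add_one (by linarith), Gamma_add_one h1.ne']
      have h2 : (C + k) * (k + 1) ≠ 0 := by positivity
      apply mul_right_cancel₀ h2
      linear_combination Gamma (2 * B + 2 * k) * hrec k + r ^ 2 * ((A + k) * (B + k)) * ih
        - K * (r ^ 2) ^ (k + 1) * hyp_succ A B hC k
  have hT0 : ∀ σ, 0 < σ → ∀ k : ℕ, a k * ((1 / σ) ^ (2 * B + 2 * k) * Gamma (2 * B + 2 * k))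
      = K * (1 / σ) ^ (2 * B) * (hyp A B C k * ((r / σ) ^ 2) ^ k) := by
    intro σ hσ k
    have e : (2 * (k : ℝ)) = ((2 * k : ℕ) : ℝ) := by push_cast; ring
    have e2 : ((r / σ) ^ 2) ^ k = (r ^ 2) ^ k * (1 / σ) ^ (2 * k) := by
      rw [pow_mul, ← mul_pow]
      congr 1
      ring
    rw [rpow_add (by positivity), e, rpow_natCast, ← e, e2]
    linear_combination (1 / σ) ^ (2 * B) * (1 / σ) ^ (2 * k) * hG k
  have hT1 : ∀ σ, 0 < σ → ∀ k : ℕ,
      a k * ((1 / σ) ^ (2 * B + 1 + 2 * k) * Gamma (2 * B + 1 + 2 * k))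
      = K * (1 / σ) ^ (2 * B) * (1 / σ) * (2 * (B + k) * hyp A B C k * ((r / σ) ^ 2) ^ k) := by
    intro σ hσ k
    have h1 : 0 < 2 * B + 2 * k := by positivity
    rw [show 2 * B + 1 + 2 * k = 2 * B + 2 * k + 1 by ring, Gamma_add_one h1.ne',
      rpow_add (by positivity), rpow_one]
    linear_combination (1 / σ) * (2 * B + 2 * k) * hT0 σ hσ k
  have h0 : ∀ σ, r < σ → IntegrableOn (fun x => exp (-(σ * x)) * f0 x) (Ioi 0) ∧
      ∫ x in Ioi 0, exp (-(σ * x)) * f0 x = K * (1 / σ) ^ (2 * B) * L0 A B C ((r / σ) ^ 2) := by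
    intro σ hσ
    have hσ0 : 0 < σ := hr.trans hσ
    have hs := summable_hyp hA hB hC (sq_nonneg (r / σ)) (sq_div_lt hr hσ)
    obtain ⟨h1, h2⟩ := lt_series a (by positivity : 0 < 2 * B) hσ0 f0 hf0 (by
      refine (hs.mul_left (K * (1 / σ) ^ (2 * B))).congr (fun k => ?_)
      rw [abs_of_nonneg (ha k), hT0 σ hσ0])
    refine ⟨h1, ?_⟩
    simp only [hT0 σ hσ0] at h2
    rw [← h2.tsum_eq, tsum_mul_left]
    rfl
  have h1 : ∀ σ, r < σ → ∫ x in Ioi 0, exp (-(σ * x)) * (x * f0 x)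
      = K * (1 / σ) ^ (2 * B) * (1 / σ) * L1 A B C ((r / σ) ^ 2) := by
    intro σ hσ
    have hσ0 : 0 < σ := hr.trans hσ
    have hs := summable_hyp1 hA hB hC (sq_nonneg (r / σ)) (sq_div_lt hr hσ)
    obtain ⟨-, h2⟩ := lt_series a (by positivity : 0 < 2 * B + 1) hσ0 (fun x => x * f0 x)
      (fun x hx => ((hf0 x hx).mul_left x).congr_fun (fun k => by
        rw [show 2 * B + 1 + 2 * k - 1 = (2 * B + 2 * k - 1) + 1 by ring, rpow_add hx, rpow_one]
        ring)) (by
      refine (hs.mul_left (K * (1 / σ) ^ (2 * B) * (1 / σ))).congr (fun k => ?_)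
      rw [abs_of_nonneg (ha k), hT1 σ hσ0])
    simp only [hT1 σ hσ0] at h2
    rw [← h2.tsum_eq, tsum_mul_left]
    rfl
  have hfi : IntegrableOn f (Ioi 0) :=
    (integrableOn_congr_fun (fun x hx => hf x hx) measurableSet_Ioi).2 (h0 b hb).1
  set Z := ∫ y in Ioi (0 : ℝ), f y with hZ
  have hZ0 : 0 < Z := by
    rw [hZ, setIntegral_congr_fun measurableSet_Ioi (fun x hx => hf x hx), (h0 b hb).2]
    have := L0_pos hA hB hC (sq_nonneg (r / b)) (sq_div_lt hr hb)
    have := Gamma_pos_of_pos (show 0 < 2 * B by positivity)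
    have : 0 < b := hr.trans hb
    positivity
  have hm : AEMeasurable (fun x => f x / Z) (volume.restrict (Ioi 0)) :=
    hfi.1.aemeasurable.div_const _
  have hf' : ∀ x, 0 < x → 0 ≤ f x / Z := fun x hx => by
    rw [hf x hx]
    exact div_nonneg (mul_nonneg (exp_pos _).le
      ((hf0 x hx).nonneg (fun k => mul_nonneg (ha k) (by positivity)))) hZ0.le
  have he : ∀ s x, 0 < x → exp (-(s * x)) * (f x / Z) = exp (-((s + b) * x)) * f0 x / Z := by
    intro s x hx
    rw [hf x hx, ← mul_div_assoc, ← mul_assoc, ← exp_add]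
    congr 3
    ring
  have hP : IsProbabilityMeasure (law (fun x => f x / Z)) := by
    constructor
    rw [law, withDensity_apply _ MeasurableSet.univ, Measure.restrict_univ,
      ← ofReal_integral_eq_lintegral_ofReal (hfi.div_const Z) (by
        filter_upwards [ae_restrict_mem measurableSet_Ioi] with x hx
        exact hf' x hx), integral_div, div_self hZ0.ne', ENNReal.ofReal_one]
  change Setup (law (fun x => f x / Z)) A B C r b
  refine ⟨hA, hB, hC, hr, hb, hP, law_pos _, fun s hs => ?_, fun s hs => ?_⟩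
  · rw [law_integrable hm hf']
    exact (integrableOn_congr_fun (fun x hx => he s x hx) measurableSet_Ioi).2
      ((h0 (s + b) (by linarith)).1.div_const Z)
  · have hσ : r < s + b := by linarith
    have hσ0 : 0 < s + b := hr.trans hσ
    have e0 : lap (law (fun x => f x / Z)) s
        = (∫ x in Ioi 0, exp (-((s + b) * x)) * f0 x) / Z := by
      rw [lap, law_integral hm hf', ← integral_div]
      exact setIntegral_congr_fun measurableSet_Ioi (fun x hx => he s x hx)
    have e1 : ∫ x, x * exp (-(s * x)) ∂(law (fun x => f x / Z))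
        = (∫ x in Ioi 0, exp (-((s + b) * x)) * (x * f0 x)) / Z := by
      rw [law_integral hm hf', ← integral_div]
      refine setIntegral_congr_fun measurableSet_Ioi (fun x hx => ?_)
      linear_combination x * he s x hx
    rw [e0, e1, (h0 _ hσ).2, h1 _ hσ]
    field_simp

theorem lt_Sr {c : ℕ → ℝ} {K R r σ : ℝ} (h : Geo c K R) (hr : 0 < r) (hσ : r * R < σ) :
    IntegrableOn (fun x => exp (-(σ * x)) * Sr 0 c (r * x)) (Ioi 0) ∧
      Summable (fun k => ‖c k * ((r / σ) ^ 2) ^ k‖) ∧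
      σ * ∫ x in Ioi 0, exp (-(σ * x)) * Sr 0 c (r * x) = ∑' k, c k * ((r / σ) ^ 2) ^ k := by
  have hR := h.1
  have hσ0 : 0 < σ := lt_trans (by positivity) hσ
  have hs : Summable (fun k => ‖c k * ((r / σ) ^ 2) ^ k‖) := by
    have h1 : R * (r / σ) ^ 2 < 1 := by
      have h2 := sq_div_lt (by positivity : 0 < r * R) hσ
      have h3 : (r * R / σ) ^ 2 = R * (R * (r / σ) ^ 2) := by ring
      have h4 : 0 ≤ R * (r / σ) ^ 2 := by positivity
      nlinarith
    refine Summable.of_nonneg_of_le (fun k => norm_nonneg _) (fun k => ?_)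
      ((summable_geometric_of_lt_one (by positivity) h1).mul_left K)
    rw [norm_mul, Real.norm_of_nonneg (r := _ ^ k) (by positivity), mul_pow, ← mul_assoc]
    exact mul_le_mul_of_nonneg_right (h.2 k) (by positivity)
  have hT : ∀ k : ℕ, (1 / σ) ^ ((1 : ℝ) + 2 * k) * Gamma (1 + 2 * k)
      = 1 / σ * (1 / σ) ^ (2 * k) * ((2 * k).factorial : ℝ) := by
    intro k
    have e : (2 * (k : ℝ)) = ((2 * k : ℕ) : ℝ) := by push_cast; ring
    rw [rpow_add (by positivity), rpow_one, e, rpow_natCast, add_comm (1 : ℝ), Gamma_nat_eq_factorial]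
  have e2 : ∀ k : ℕ, ((r / σ) ^ 2) ^ k = r ^ (2 * k) * (1 / σ) ^ (2 * k) := by
    intro k
    rw [← pow_mul, ← mul_pow]
    congr 1
    ring
  obtain ⟨h1, h2⟩ := lt_series (fun k => c k * r ^ (2 * k) / ((2 * k).factorial : ℝ)) one_pos hσ0
    (fun x => Sr 0 c (r * x)) (fun x hx => (h.hasSum 0 (r * x)).congr_fun (fun k => by
      have e : (1 + 2 * (k : ℝ) - 1) = ((2 * k : ℕ) : ℝ) := by push_cast; ring
      rw [e, rpow_natCast, add_zero, mul_pow]
      ring)) (by
      refine (hs.mul_left (1 / σ)).congr (fun k => ?_)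
      rw [hT, e2, norm_mul, Real.norm_of_nonneg (r := _ * _) (by positivity), abs_div, abs_mul,
        abs_of_nonneg (a := r ^ _) (by positivity), Nat.abs_cast, Real.norm_eq_abs]
      field_simp)
  refine ⟨h1, hs, ?_⟩
  rw [← h2.tsum_eq, ← tsum_mul_left]
  refine tsum_congr (fun k => ?_)
  rw [hT, e2]
  field_simp

theorem Gt_eq (A B C r b s : ℝ) :
    Gt A B C r b s = ∫ x in Ioi 0, exp (-((s + b) * x)) * Sr 0 (cf A B C) (r * x) := by
  refine setIntegral_congr_fun measurableSet_Ioi (fun x _ => ?_)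
  simp only [kf, lev_eq]
  rw [← mul_assoc, ← exp_add]
  congr 2
  ring

theorem Gt_integrable {A B C r b K R s : ℝ} (h : Geo (cf A B C) K R) (hr : 0 < r)
    (hs : r * R < s + b) : IntegrableOn (fun x => exp (-(s * x)) * kf A B C r b x) (Ioi 0) := by
  refine (integrableOn_congr_fun (fun x _ => ?_) measurableSet_Ioi).1 (lt_Sr h hr hs).1
  simp only [kf, lev_eq]
  rw [← mul_assoc, ← exp_add]
  congr 2
  ring

theorem Gt_series {A B C r b K R s : ℝ} (hA : 0 < A) (hB : 0 < B) (hC : 0 < C)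
    (h : Geo (cf A B C) K R) (hr : 0 < r) (hs : r * R < s + b) :
    (s + b) * Gt A B C r b s * L0 A B C ((r / (s + b)) ^ 2) = L1 A B C ((r / (s + b)) ^ 2) := by
  obtain ⟨-, h2, h3⟩ := lt_Sr h hr hs
  have hσ : r < s + b := by nlinarith [h.1]
  have h4 := summable_hyp hA hB hC (sq_nonneg (r / (s + b))) (sq_div_lt hr hσ)
  rw [Gt_eq, h3, L0, tsum_mul_tsum_eq_tsum_sum_antidiagonal_of_summable_norm h2 h4.norm, L1]
  refine tsum_congr (fun n => ?_)
  rw [← cf_conv, Finset.sum_mul]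
  refine Finset.sum_congr rfl (fun p hp => ?_)
  rw [← Finset.HasAntidiagonal.mem_antidiagonal.1 hp, pow_add]
  ring

theorem Setup.key_large {P : Measure ℝ} {A B C r b K R s : ℝ} (h : Setup P A B C r b)
    (hg : Geo (cf A B C) K R) (hs : r * R < s + b) :
    ∫ x, x * exp (-(s * x)) ∂P = Gt A B C r b s * lap P s := by
  have hr := h.hr
  have hσ : r < s + b := by nlinarith [hg.1]
  have h1 := h.ser s (by linarith)
  have h2 := Gt_series h.hA h.hB h.hC hg hr hs
  have h3 := L0_pos h.hA h.hB h.hC (sq_nonneg (r / (s + b))) (sq_div_lt hr hσ)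
  have h4 : 0 < s + b := hr.trans hσ
  apply mul_left_cancel₀ (mul_pos h4 h3).ne'
  linear_combination h1 - lap P s * h2

theorem kf_continuous (A B r b : ℝ) {C : ℝ} (hC : 0 < C) : Continuous (kf A B C r b) := by
  obtain ⟨R, hg⟩ := cf_geo A B hC
  have := hg.continuous 0
  unfold kf
  rw [lev_eq]
  fun_prop

end Pool.Agent.P.MP_ede858_pr
end

-- part Pool.Agent.P.MP_ede858_pr.Thor
section

set_option autoImplicit false

open Set Filter Topology MeasureTheory ProbabilityTheory Real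

namespace Pool.Agent.P.MP_ede858_pr

/-! Thorin measures, and the characterization of the generalized gamma convolutions. -/

/-- A measure on `(0, ∞)` for which the Thorin integrals converge. -/
def Thor (V : Measure ℝ) : Prop :=
  (∀ᵐ t ∂V, 0 < t) ∧ ∀ s, 0 ≤ s → Integrable (fun t => log (t / (s + t))) V

theorem abs_log_div {s t : ℝ} (hs : 0 ≤ s) (ht : 0 < t) :
    |log (t / (s + t))| = log (s + t) - log t := by
  rw [log_div ht.ne' (by positivity), abs_of_nonpos (sub_nonpos.2 (log_le_log ht (by linarith)))]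
  ring

theorem mlog (s : ℝ) : Measurable (fun t : ℝ => log (t / (s + t))) := by fun_prop

theorem Thor.inv {V : Measure ℝ} (h : Thor V) {s : ℝ} (hs : 0 < s) :
    Integrable (fun t => 1 / (s + t)) V := by
  refine ((h.2 s hs.le).norm.const_mul (1 / s)).mono'
    (Measurable.aestronglyMeasurable (by fun_prop)) ?_
  filter_upwards [h.1] with t ht
  have h1 := one_sub_inv_le_log_of_pos (show 0 < (s + t) / t by positivity)
  rw [log_div (by positivity) ht.ne', inv_div] at h1
  rw [Real.norm_of_nonneg (by positivity), Real.norm_eq_abs, abs_log_div hs.le ht]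
  have e : 1 / (s + t) = 1 / s * (1 - t / (s + t)) := by field_simp; ring
  rw [e]
  exact mul_le_mul_of_nonneg_left h1 (by positivity)

theorem Thor.sfinite {V : Measure ℝ} (h : Thor V) : SFinite V := by
  have : IsFiniteMeasure (V.withDensity (fun t => ENNReal.ofReal (1 / (1 + t)))) :=
    isFiniteMeasure_withDensity_ofReal (h.inv one_pos).2
  rw [← withDensity_inv_same (μ := V) (f := fun t => ENNReal.ofReal (1 / (1 + t))) (by fun_prop)
    (by
      filter_upwards [h.1] with t ht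
      simp only [ne_eq, ENNReal.ofReal_eq_zero, not_le]
      positivity) (by simp)]
  infer_instance

theorem Thor.expInt {V : Measure ℝ} (h : Thor V) : ExpInt V 0 := by
  intro x hx
  refine ((h.inv (show 0 < 1 / x by positivity)).const_mul (1 / x)).mono' (by fun_prop) ?_
  filter_upwards [h.1] with t ht
  rw [Real.norm_of_nonneg (exp_pos _).le, exp_neg]
  have e : 1 / x * (1 / (1 / x + t)) = (x * t + 1)⁻¹ := by field_simp; ring
  rw [e]
  exact inv_anti₀ (by positivity) (add_one_le_exp _)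

theorem Thor.deriv {V : Measure ℝ} (h : Thor V) {s : ℝ} (hs : 0 < s) :
    HasDerivAt (fun s => ∫ t, log (t / (s + t)) ∂V) (-∫ t, 1 / (s + t) ∂V) s := by
  rw [← integral_neg]
  refine (hasDerivAt_integral_of_dominated_loc_of_deriv_le (s := Ioi (s / 2))
    (F := fun s t => log (t / (s + t))) (F' := fun s t => -(1 / (s + t)))
    (bound := fun t => 1 / (s / 2 + t)) (Ioi_mem_nhds (by linarith))
    (Eventually.of_forall (fun u => (mlog u).aestronglyMeasurable)) (h.2 s hs.le)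
    (Measurable.aestronglyMeasurable (by fun_prop)) ?_
    (h.inv (by linarith)) ?_).2
  · filter_upwards [h.1] with t ht u hu
    have hu' : s / 2 < u := hu
    have h1 : 0 < u + t := by linarith
    rw [norm_neg, Real.norm_of_nonneg (by positivity)]
    exact one_div_le_one_div_of_le (by positivity) (by linarith)
  · filter_upwards [h.1] with t ht u hu
    have hu' : s / 2 < u := hu
    have h1 : 0 < u + t := by linarith
    have h2 := ((hasDerivAt_const u t).div ((hasDerivAt_id u).add_const t) h1.ne').log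
      (div_pos ht h1).ne'
    refine h2.congr_deriv ?_
    simp only [id, Pi.div_apply]
    field_simp
    ring

theorem Thor.cont {V : Measure ℝ} (h : Thor V) {s : ℝ} (hs : 0 ≤ s) :
    ContinuousOn (fun s => ∫ t, log (t / (s + t)) ∂V) (Icc 0 s) := by
  refine continuousOn_of_dominated (bound := fun t => ‖log (t / (s + t))‖)
    (fun u _ => (mlog u).aestronglyMeasurable) (fun u hu => ?_) (h.2 s hs).norm ?_
  · filter_upwards [h.1] with t ht
    rw [Real.norm_eq_abs, Real.norm_eq_abs, abs_log_div hs ht, abs_log_div hu.1 ht]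
    have := log_le_log (show 0 < u + t by linarith [hu.1]) (show u + t ≤ s + t by linarith [hu.2])
    linarith
  · filter_upwards [h.1] with t ht
    refine ContinuousOn.log (ContinuousOn.div (by fun_prop) (by fun_prop) (fun u hu => ?_))
      (fun u hu => ?_)
    · linarith [hu.1]
    · have : 0 < u + t := by linarith [hu.1]
      positivity

theorem Thor.fubini {V : Measure ℝ} (h : Thor V) {s : ℝ} (hs : 0 < s) :
    IntegrableOn (fun x => exp (-(s * x)) * lap V x) (Ioi 0) ∧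
      ∫ x in Ioi 0, exp (-(s * x)) * lap V x = ∫ t, 1 / (s + t) ∂V := by
  have := h.sfinite
  have e : ∀ x t : ℝ, exp (-(s * x)) * exp (-(x * t)) = exp (-(s + t) * x) := by
    intro x t
    rw [← exp_add]
    congr 1
    ring
  have hI : ∀ᵐ t ∂V, ∫ x in Ioi (0 : ℝ), exp (-(s + t) * x) = 1 / (s + t) := by
    filter_upwards [h.1] with t ht
    have h1 : 0 < s + t := by linarith
    rw [integral_exp_mul_Ioi (by linarith)]
    simp only [mul_zero, exp_zero]
    field_simp
  have hF : Integrable (Function.uncurry (fun x t : ℝ => exp (-(s + t) * x)))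
      ((volume.restrict (Ioi (0 : ℝ))).prod V) := by
    rw [integrable_prod_iff' (by fun_prop)]
    constructor
    · filter_upwards [h.1] with t ht
      exact integrableOn_exp_mul_Ioi (show -(s + t) < 0 by linarith) 0
    · refine (h.inv hs).congr ?_
      filter_upwards [hI] with t ht
      simp only [Function.uncurry_apply_pair, Real.norm_of_nonneg (exp_pos _).le]
      exact ht.symm
  have e2 : (fun x => exp (-(s * x)) * lap V x) = fun x => ∫ t, exp (-(s + t) * x) ∂V := by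
    funext x
    rw [lap, ← integral_const_mul]
    simp only [e]
  rw [e2]
  exact ⟨hF.integral_prod_left, by rw [integral_integral_swap hF]; exact integral_congr_ae hI⟩

theorem Setup.ggc_of_thor {P V : Measure ℝ} {A B C r b : ℝ} (h : Setup P A B C r b) (hV : Thor V)
    (hk : ∀ x, 0 < x → kf A B C r b x = lap V x)
    (key : ∀ s, 0 < s → ∫ x, x * exp (-(s * x)) ∂P = Gt A B C r b s * lap P s) : IsGGC P := by
  have := h.prob
  have hr : V.restrict (Ioi 0) = V := Measure.restrict_eq_self_of_ae_mem hV.1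
  refine ⟨0, le_rfl, V, fun s hs => ?_⟩
  rw [IntegrableOn, hr]
  refine ⟨hV.2 s hs, ?_⟩
  have hb : r - b < 0 := by linarith [h.hb]
  have h1 := eq_of_deriv_zero (F := fun s => lap P s * exp (-∫ t, log (t / (s + t)) ∂V)) hs
    (ContinuousOn.mul (h.int.analytic.continuousOn.mono (fun u hu => lt_of_lt_of_le hb hu.1))
      (hV.cont hs).neg.rexp) (fun u hu => by
      refine ((h.int.hasDerivAt (hb.trans hu)).mul (hV.deriv hu).neg.exp).congr_deriv ?_
      have h2 : Gt A B C r b u = ∫ t, 1 / (u + t) ∂V := by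
        rw [← (hV.fubini hu).2]
        exact setIntegral_congr_fun measurableSet_Ioi (fun x hx => by simp only [hk x hx])
      rw [key u hu, h2]
      simp only [Pi.neg_apply]
      ring)
  have h3 : ∫ t, log (t / (0 + t)) ∂V = 0 := by
    refine integral_eq_zero_of_ae ?_
    filter_upwards [hV.1] with t ht
    rw [zero_add, div_self ht.ne', log_one, Pi.zero_apply]
  simp only [h3, lap_zero, neg_zero, exp_zero, mul_one] at h1
  rw [zero_mul, neg_zero, zero_add]
  rw [exp_neg] at h1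
  exact (mul_inv_eq_one₀ (exp_pos _).ne').1 h1

theorem Setup.ggc_of_le {P : Measure ℝ} {A B C r b : ℝ} (h : Setup P A B C r b) (hAC : A ≤ C)
    (hBC : B ≤ C) : IsGGC P := by
  obtain ⟨θ, hθ, hI, hc⟩ := cf_meas h.hA.le h.hB.le h.hC hAC hBC
  have hr := h.hr
  have hb := h.hb
  have hB := h.hB
  have hg1 : ∀ᵐ t ∂θ, Geo (fun k => t ^ k) 1 1 := by
    filter_upwards [hI] with t ht
    exact geo_pow le_rfl (by rw [abs_of_nonneg ht.1]; exact ht.2)
  have hg : Geo (cf A B C) (2 * B) 1 := ⟨le_rfl, fun k => by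
    rw [hc, abs_mul, abs_of_pos (by positivity)]
    have := (geo_integral θ (fun k t => t ^ k) hg1).2 k
    rw [one_mul] at this
    exact mul_le_mul_of_nonneg_left this (by positivity)⟩
  have m1 : Measurable (fun t : ℝ => b - r * √t) := by fun_prop
  have m2 : Measurable (fun t : ℝ => b + r * √t) := by fun_prop
  have := Measure.isProbabilityMeasure_map (μ := θ) m1.aemeasurable
  have := Measure.isProbabilityMeasure_map (μ := θ) m2.aemeasurable
  set V : Measure ℝ := ENNReal.ofReal B • (θ.map (fun t => b - r * √t) + θ.map (fun t => b + r * √t))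
    with hV
  have : IsFiniteMeasure V := Measure.smul_finite _ ENNReal.ofReal_ne_top
  have hsq : ∀ᵐ t ∂θ, 0 ≤ r * √t ∧ r * √t ≤ r := by
    filter_upwards [hI] with t ht
    exact ⟨by positivity, mul_le_of_le_one_right hr.le (Real.sqrt_le_one.2 ht.2)⟩
  have a1 : ∀ᵐ t ∂(θ.map (fun t => b - r * √t)), t ∈ Icc (b - r) (b + r) := by
    refine (ae_map_iff (p := fun t => t ∈ Icc (b - r) (b + r)) m1.aemeasurable
      measurableSet_Icc).2 ?_
    filter_upwards [hsq] with t ht
    constructor <;> linarith [ht.1, ht.2]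
  have a2 : ∀ᵐ t ∂(θ.map (fun t => b + r * √t)), t ∈ Icc (b - r) (b + r) := by
    refine (ae_map_iff (p := fun t => t ∈ Icc (b - r) (b + r)) m2.aemeasurable
      measurableSet_Icc).2 ?_
    filter_upwards [hsq] with t ht
    constructor <;> linarith [ht.1, ht.2]
  have aV : ∀ᵐ t ∂V, t ∈ Icc (b - r) (b + r) :=
    Measure.ae_smul_measure ((ae_add_measure_iff).2 ⟨a1, a2⟩) _
  have hT : Thor V := by
    refine ⟨aV.mono (fun t ht => by linarith [ht.1]), fun s hs => ?_⟩
    refine Integrable.of_bound (mlog s).aestronglyMeasurable (log (s + (b + r)) - log (b - r)) ?_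
    filter_upwards [aV] with t ht
    have ht0 : 0 < t := by linarith [ht.1]
    rw [Real.norm_eq_abs, abs_log_div hs ht0]
    have := log_le_log (show 0 < s + t by linarith) (show s + t ≤ s + (b + r) by linarith [ht.2])
    have := log_le_log (show 0 < b - r by linarith) ht.1
    linarith
  refine h.ggc_of_thor hT (fun x hx => ?_) (fun s hs => h.key_large hg (by linarith))
  have hb1 : ∀ {μ : Measure ℝ} [IsFiniteMeasure μ], (∀ᵐ t ∂μ, t ∈ Icc (b - r) (b + r)) →
      Integrable (fun t => exp (-(x * t))) μ := by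
    intro μ _ hμ
    refine Integrable.of_bound (by fun_prop) 1 ?_
    filter_upwards [hμ] with t ht
    rw [Real.norm_of_nonneg (exp_pos _).le, exp_le_one_iff, neg_nonpos]
    exact mul_nonneg hx.le (by linarith [ht.1])
  have i1 : Integrable (fun t => exp (-(x * (b - r * √t)))) θ :=
    (integrable_map_measure (by fun_prop) m1.aemeasurable).1 (hb1 a1)
  have i2 : Integrable (fun t => exp (-(x * (b + r * √t)))) θ :=
    (integrable_map_measure (by fun_prop) m2.aemeasurable).1 (hb1 a2)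
  rw [lap, hV, integral_smul_measure, integral_add_measure (hb1 a1) (hb1 a2),
    integral_map m1.aemeasurable (by fun_prop), integral_map m2.aemeasurable (by fun_prop),
    ENNReal.toReal_ofReal hB.le, ← integral_add i1 i2, kf, lev_eq, funext hc, Sr_mul,
    (Sr_integral θ (fun k t => t ^ k) (fun k => by fun_prop) hg1 0 (r * x)).2, smul_eq_mul,
    ← integral_const_mul, ← integral_const_mul, ← integral_const_mul]
  refine integral_congr_ae ?_
  filter_upwards [hI] with t ht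
  have e := Sr_sq (√t) (r * x)
  rw [Real.sq_sqrt ht.1] at e
  rw [e, cosh_eq, show -(x * (b - r * √t)) = -(b * x) + √t * (r * x) by ring,
    show -(x * (b + r * √t)) = -(b * x) + -(√t * (r * x)) by ring, exp_add, exp_add]
  ring

theorem Setup.thor_of_ggc {P : Measure ℝ} {A B C r b : ℝ} (h : Setup P A B C r b)
    (hG : IsGGC P) : ∃ V, Thor V ∧ ∀ x, 0 < x → kf A B C r b x = lap V x := by
  have := h.prob
  obtain ⟨a, -, U, hU⟩ := hG
  have hV : Thor (U.restrict (Ioi 0)) :=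
    ⟨ae_restrict_mem measurableSet_Ioi, fun s hs => (hU s hs).1⟩
  set V := U.restrict (Ioi 0)
  refine ⟨V, hV, fun x hx => ?_⟩
  obtain ⟨R, hg⟩ := cf_geo A B h.hC
  have hr := h.hr
  have hb := h.hb
  have hR := hg.1
  have hs1 : 0 < r * R := by positivity
  have h1 : ∀ s, r * R ≤ s → Gt A B C r b s = a + ∫ t, 1 / (s + t) ∂V := by
    intro s hs
    have hs0 : 0 < s := hs1.trans_le hs
    have d1 := h.int.hasDerivAt (show r - b < s by linarith)
    have d2 := (((hasDerivAt_id s).const_mul a).neg.add (hV.deriv hs0)).exp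
    have ev : lap P =ᶠ[𝓝 s] fun s => exp (-(a * s) + ∫ t, log (t / (s + t)) ∂V) := by
      filter_upwards [lt_mem_nhds hs0] with u hu
      exact (hU u hu.le).2
    have d3 := d1.unique (d2.congr_of_eventuallyEq ev)
    have hp := h.int.pos (show r - b < s by linarith)
    rw [h.key_large hg (by linarith)] at d3
    simp only [Pi.add_apply, Pi.neg_apply, id, mul_one] at d3
    rw [← ev.eq_of_nhds] at d3
    apply mul_right_cancel₀ hp.ne'
    linear_combination -d3
  have hi : ∀ s, r * R ≤ s → IntegrableOn (fun x => exp (-(s * x)) * kf A B C r b x) (Ioi 0) :=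
    fun s hs => Gt_integrable hg hr (by linarith)
  have h2 := zero_of_lt (f := fun x => exp (-(r * R * x)) * kf A B C r b x
      - exp (-(r * R * x)) * lap V x) (a := a)
    (ContinuousOn.sub (Continuous.continuousOn (by
      have := kf_continuous A B r b h.hC
      fun_prop)) (ContinuousOn.mul (by fun_prop) hV.expInt.analytic.continuousOn))
    ((hi _ le_rfl).sub (hV.fubini hs1).1) (fun n => by
      have hn : r * R ≤ n + r * R := by simp
      have e : ∀ x : ℝ, exp (-((n : ℝ) * x)) * (exp (-(r * R * x)) * kf A B C r b x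
          - exp (-(r * R * x)) * lap V x) = exp (-((n + r * R) * x)) * kf A B C r b x
          - exp (-((n + r * R) * x)) * lap V x := by
        intro x
        rw [show -((n + r * R) * x) = -(n * x) + -(r * R * x) by ring, exp_add]
        ring
      simp only [e]
      rw [integral_sub (hi _ hn) (hV.fubini (hs1.trans_le hn)).1, (hV.fubini (hs1.trans_le hn)).2]
      have := h1 _ hn
      rw [Gt] at this
      linarith) hx
  apply mul_left_cancel₀ (exp_pos (-(r * R * x))).ne'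
  linarith

theorem even_moments {V : Measure ℝ} {X : ℝ → ℝ} {c : ℕ → ℝ} {K R : ℝ} (hg : Geo c K R)
    (hX : ∀ y, 0 < y → y ∈ interior (integrableExpSet X V))
    (h : ∀ y, 0 < y → Sr 0 c y = ∫ t, exp (y * X t) ∂V) (j : ℕ) :
    ∀ y, 0 < y → Sr 0 (fun k => c (k + j)) y = ∫ t, X t ^ (2 * j) * exp (y * X t) ∂V := by
  have hgj : ∀ j, Geo (fun k => c (k + j)) (K * R ^ j) R := fun j =>
    ⟨hg.1, fun k => by rw [mul_assoc, ← pow_add, add_comm j]; exact hg.2 _⟩
  induction j with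
  | zero => simpa using h
  | succ j ih =>
    have h1 : ∀ y, 0 < y → Sr 1 (fun k => c (k + (j + 1))) y
        = ∫ t, X t ^ (2 * j + 1) * exp (y * X t) ∂V := by
      intro y hy
      have d1 := (hgj j).hasDerivAt0 y
      have d2 := hasDerivAt_integral_pow_mul_exp_real (hX y hy) (2 * j)
      have d3 := d1.unique (d2.congr_of_eventuallyEq (by
        filter_upwards [lt_mem_nhds hy] with u hu
        exact ih u hu))
      simpa only [add_assoc, add_comm 1 j] using d3
    intro y hy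
    have d1 := (hgj (j + 1)).hasDerivAt 0 y
    have d2 := hasDerivAt_integral_pow_mul_exp_real (hX y hy) (2 * j + 1)
    exact d1.unique (d2.congr_of_eventuallyEq (by
      filter_upwards [lt_mem_nhds hy] with u hu
      exact h1 u hu))

theorem hankel_of_mgf {V : Measure ℝ} {X : ℝ → ℝ} {c : ℕ → ℝ} {K R : ℝ} (hg : Geo c K R)
    (hX : ∀ y, 0 < y → y ∈ interior (integrableExpSet X V))
    (h : ∀ y, 0 < y → Sr 0 c y = ∫ t, exp (y * X t) ∂V) (j : ℕ) (l : ℝ) :
    0 ≤ c (j + 2) - 2 * l * c (j + 1) + l ^ 2 * c j := by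
  have hgj : ∀ j, Geo (fun k => c (k + j)) (K * R ^ j) R := fun j =>
    ⟨hg.1, fun k => by rw [mul_assoc, ← pow_add, add_comm j]; exact hg.2 _⟩
  have hc : Continuous (fun y => Sr 0 (fun k => c (k + (j + 2))) y
      - 2 * l * Sr 0 (fun k => c (k + (j + 1))) y + l ^ 2 * Sr 0 (fun k => c (k + j)) y) := by
    have h1 := (hgj (j + 2)).continuous 0
    have h2 := (hgj (j + 1)).continuous 0
    have h3 := (hgj j).continuous 0
    fun_prop
  have ht := (hc.tendsto 0).mono_left (nhdsWithin_le_nhds (s := Ioi (0 : ℝ)))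
  simp only [(hgj _).at_zero, zero_add] at ht
  refine ge_of_tendsto ht ?_
  filter_upwards [self_mem_nhdsWithin] with y hy
  have i := fun n => integrable_pow_mul_exp_of_mem_interior_integrableExpSet (hX y hy) n
  rw [even_moments hg hX h _ y hy, even_moments hg hX h _ y hy, even_moments hg hX h _ y hy,
    ← integral_const_mul, ← integral_const_mul, ← integral_sub (i _) ((i _).const_mul _),
    ← integral_add (by exact (i _).sub ((i _).const_mul _)) ((i _).const_mul _)]
  refine integral_nonneg (fun t => ?_)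
  have : 0 ≤ (X t ^ j * (X t ^ 2 - l)) ^ 2 * exp (y * X t) := by positivity
  simp only [Pi.zero_apply]
  exact this.trans_eq (by ring)

theorem Setup.hankel {P : Measure ℝ} {A B C r b : ℝ} (h : Setup P A B C r b) (hG : IsGGC P)
    (j : ℕ) (l : ℝ) : 0 ≤ cf A B C (j + 2) - 2 * l * cf A B C (j + 1) + l ^ 2 * cf A B C j := by
  obtain ⟨V, hV, hk⟩ := h.thor_of_ggc hG
  obtain ⟨R, hg⟩ := cf_geo A B h.hC
  have hr := h.hr
  have e : ∀ y t : ℝ, exp (y * ((b - t) / r)) = exp (b * (y / r)) * exp (-(y / r * t)) := by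
    intro y t
    rw [← exp_add]
    congr 1
    field_simp
    ring
  refine hankel_of_mgf (V := V) (X := fun t => (b - t) / r) hg (fun y hy => ?_) (fun y hy => ?_) j l
  · refine interior_maximal (t := Ioi 0) (fun u hu => ?_) isOpen_Ioi hy
    have hu' : 0 < u := hu
    simp only [integrableExpSet, mem_ofPred_eq, e]
    exact (hV.expInt (u / r) (by positivity)).const_mul _
  · have h1 := hk (y / r) (by positivity)
    rw [kf, lev_eq, mul_div_cancel₀ _ hr.ne', lap] at h1
    simp only [e]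
    rw [integral_const_mul, ← h1, ← mul_assoc, ← exp_add]
    simp

theorem Setup.le_of_ggc {P : Measure ℝ} {A B C r b : ℝ} (h : Setup P A B C r b) (hG : IsGGC P) :
    A ≤ C ∧ (A < C → B ≤ C) :=
  ⟨hankel_A h.hA h.hB h.hC (h.hankel hG 0), fun hAC =>
    hankel_B h.hA h.hB h.hC hAC (h.hankel hG 1)⟩

end Pool.Agent.P.MP_ede858_pr
end

-- part Pool.Agent.P.MP_ede858_pr.Dens
section

set_option autoImplicit false

open Set Filter Topology MeasureTheory Real

namespace Pool.Agent.P.MP_ede858_pr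

/-! The two Bessel families fit the setting. -/

/-- The Euler operator on power series. -/
noncomputable def th (F : PowerSeries ℝ) : PowerSeries ℝ :=
  PowerSeries.X * PowerSeries.derivative ℝ F

theorem coeff_th (F : PowerSeries ℝ) (k : ℕ) :
    PowerSeries.coeff k (th F) = k * PowerSeries.coeff k F := by
  cases k with
  | zero => simp [th]
  | succ k =>
    rw [th, PowerSeries.coeff_succ_X_mul, PowerSeries.coeff_derivative]
    push_cast
    ring

theorem th_mul (F G : PowerSeries ℝ) : th (F * G) = th F * G + F * th G := by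
  simp only [th, Derivation.leibniz, smul_eq_mul]
  ring

theorem th_add (F G : PowerSeries ℝ) : th (F + G) = th F + th G := by
  simp only [th, map_add]
  ring

theorem th_sub (F G : PowerSeries ℝ) : th (F - G) = th F - th G := by
  simp only [th, map_sub]
  ring

theorem th_X : th PowerSeries.X = PowerSeries.X := by simp [th]

theorem th_C (a : ℝ) : th (PowerSeries.C a) = 0 := by simp [th]

theorem th_one : th 1 = 0 := by simp [th]

theorem co_rec {μ : ℝ} (hμ : -1 < μ) (k : ℕ) :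
    co μ (k + 1) * (((k : ℝ) + 1) * ((k : ℝ) + μ + 1)) = co μ k := by
  rw [co_shift hμ k, ← co_succ hμ k]
  ring

/-- The coefficients of the square of the Bessel series. -/
noncomputable def dco (μ : ℝ) (n : ℕ) : ℝ :=
  ∑ p ∈ Finset.HasAntidiagonal.antidiagonal n, co μ p.1 * co μ p.2

theorem dco_nonneg {μ : ℝ} (hμ : -1 < μ) (n : ℕ) : 0 ≤ dco μ n :=
  Finset.sum_nonneg (fun _ _ => mul_nonneg (co_pos hμ _).le (co_pos hμ _).le)

theorem dco_rec {μ : ℝ} (hμ : -1 < μ) (k : ℕ) :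
    dco μ (k + 1) * (((k : ℝ) + 1) * ((k : ℝ) + μ + 1) * ((k : ℝ) + 2 * μ + 1))
      = 2 * (2 * k + 2 * μ + 1) * dco μ k := by
  set u : PowerSeries ℝ := PowerSeries.mk (co μ) with hu
  have hd : ∀ n, PowerSeries.coeff n (u * u) = dco μ n := by
    intro n
    rw [PowerSeries.coeff_mul, dco]
    simp only [hu, PowerSeries.coeff_mk]
  have h1 : th (th u) = PowerSeries.X * u - PowerSeries.C μ * th u := by
    ext n
    rw [map_sub, PowerSeries.coeff_C_mul, coeff_th, coeff_th]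
    cases n with
    | zero => simp
    | succ n =>
      rw [PowerSeries.coeff_succ_X_mul, hu, PowerSeries.coeff_mk, PowerSeries.coeff_mk,
        ← co_rec hμ n]
      push_cast
      ring
  have h2 : th (th (th (u * u))) + PowerSeries.C (3 * μ) * th (th (u * u))
      + PowerSeries.C (2 * μ ^ 2) * th (u * u)
      = PowerSeries.X * (PowerSeries.C 4 * th (u * u) + PowerSeries.C (4 * μ) * (u * u)
        + PowerSeries.C 2 * (u * u)) := by
    have c2 : (PowerSeries.C 2 : PowerSeries ℝ) = 2 := rfl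
    have c3 : (PowerSeries.C 3 : PowerSeries ℝ) = 3 := rfl
    have c4 : (PowerSeries.C 4 : PowerSeries ℝ) = 4 := rfl
    simp only [th_mul, th_add, th_sub, h1, th_X, th_C, map_mul, map_pow, c2, c3, c4]
    ring
  have h3 := congrArg (PowerSeries.coeff (k + 1)) h2
  simp only [map_add, PowerSeries.coeff_C_mul, PowerSeries.coeff_succ_X_mul, coeff_th, hd] at h3
  push_cast at h3
  linear_combination h3

theorem hasSum_sq {μ : ℝ} (hμ : -1 < μ) (y : ℝ) :
    HasSum (fun n => dco μ n * y ^ n) (SS μ y ^ 2) := by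
  have h1 := (summable_SS hμ y).norm
  have h2 := (summable_norm_sum_mul_antidiagonal_of_summable_norm h1 h1).of_norm
  have h3 := tsum_mul_tsum_eq_tsum_sum_antidiagonal_of_summable_norm h1 h1
  rw [sq, SS, h3]
  refine h2.hasSum.congr_fun (fun n => ?_)
  rw [dco, Finset.sum_mul]
  refine Finset.sum_congr rfl (fun p hp => ?_)
  rw [← Finset.HasAntidiagonal.mem_antidiagonal.1 hp, pow_add]
  ring

theorem setup_phi {μ ν a b : ℝ} (hμ : -1 < μ) (hρ : 0 < μ + ν) (ha : 0 < a) (hb : a < b) :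
    Setup (nlaw (fun x => x ^ (ν - 1) * exp (-b * x) * besselI μ (a * x)))
      ((μ + ν + 1) / 2) ((μ + ν) / 2) (μ + 1) a b := by
  refine setup_of_series (by linarith) (by linarith) (by linarith) ha hb
    (fun k => (a / 2) ^ μ * (co μ k * (a ^ 2 / 4) ^ k))
    (fun k => by have := co_pos hμ k; positivity) (by have := co_pos hμ 0; positivity) _
    (fun x => x ^ (ν - 1) * besselI μ (a * x)) (fun k => ?_) (fun x hx => ?_)
    (fun x _ => by rw [neg_mul]; ring)
  · rw [← co_rec hμ k]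
    ring
  · rw [besselI_eq μ (mul_pos ha hx)]
    refine (((summable_SS hμ ((a * x) ^ 2 / 4)).hasSum.mul_left ((a * x / 2) ^ μ)).mul_left
      (x ^ (ν - 1))).congr_fun (fun k => ?_)
    have e : (2 * ((μ + ν) / 2) + 2 * (k : ℝ) - 1) = (ν - 1) + μ + ((2 * k : ℕ) : ℝ) := by
      push_cast
      ring
    rw [e, rpow_add hx, rpow_add hx, rpow_natCast, show a * x / 2 = a / 2 * x by ring,
      mul_rpow (by positivity) hx.le, show (a * x) ^ 2 / 4 = a ^ 2 / 4 * x ^ 2 by ring, mul_pow,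
      ← pow_mul]
    ring

theorem setup_xi {μ a b : ℝ} (hμ : -1 / 4 < μ) (ha : 0 < a) (hb : 2 * a < b) :
    Setup (nlaw (fun x => x ^ (2 * μ) * exp (-b * x) * besselI μ (a * x) ^ 2))
      (μ + 1 / 2) (2 * μ + 1 / 2) (μ + 1) (2 * a) b := by
  have hμ' : -1 < μ := by linarith
  refine setup_of_series (by linarith) (by linarith) (by linarith) (by linarith) hb
    (fun k => ((a / 2) ^ μ) ^ 2 * (dco μ k * (a ^ 2 / 4) ^ k))
    (fun k => by have := dco_nonneg hμ' k; positivity) (by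
      have := co_pos hμ' 0
      have h2 : 0 < dco μ 0 := by
        simp only [dco, Finset.Nat.antidiagonal_zero, Finset.sum_singleton]
        positivity
      positivity) _
    (fun x => x ^ (2 * μ) * besselI μ (a * x) ^ 2) (fun k => ?_) (fun x hx => ?_)
    (fun x _ => by rw [neg_mul]; ring)
  · linear_combination ((a / 2) ^ μ) ^ 2 * (a ^ 2 / 4) ^ k * a ^ 2 * (2 * μ + 1 / 2 + k)
      * dco_rec hμ' k
  · rw [besselI_eq μ (mul_pos ha hx), mul_pow]
    refine (((hasSum_sq hμ' ((a * x) ^ 2 / 4)).mul_left (((a * x / 2) ^ μ) ^ 2)).mul_left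
      (x ^ (2 * μ))).congr_fun (fun k => ?_)
    have e : (2 * (2 * μ + 1 / 2) + 2 * (k : ℝ) - 1) = 2 * μ + μ + μ + ((2 * k : ℕ) : ℝ) := by
      push_cast
      ring
    rw [e, rpow_add hx, rpow_add hx, rpow_add hx, rpow_natCast, show a * x / 2 = a / 2 * x by ring,
      mul_rpow (by positivity) hx.le, show (a * x) ^ 2 / 4 = a ^ 2 / 4 * x ^ 2 by ring, mul_pow,
      mul_pow, ← pow_mul x]
    ring

theorem ggc_phi {μ ν a b : ℝ} (hμ : -1 < μ) (hρ : 0 < μ + ν) (ha : 0 < a) (hb : a < b) :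
    IsGGC (nlaw (fun x => x ^ (ν - 1) * exp (-b * x) * besselI μ (a * x))) ↔ ν ≤ μ + 1 := by
  have h := setup_phi hμ hρ ha hb
  exact ⟨fun hG => by linarith [(h.le_of_ggc hG).1],
    fun hν => h.ggc_of_le (by linarith) (by linarith)⟩

theorem ggc_xi {μ a b : ℝ} (hμ : -1 / 4 < μ) (ha : 0 < a) (hb : 2 * a < b) :
    IsGGC (nlaw (fun x => x ^ (2 * μ) * exp (-b * x) * besselI μ (a * x) ^ 2)) ↔ μ ≤ 1 / 2 := by
  have h := setup_xi hμ ha hb
  exact ⟨fun hG => by linarith [(h.le_of_ggc hG).2 (by linarith)],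
    fun hν => h.ggc_of_le (by linarith) (by linarith)⟩

end Pool.Agent.P.MP_ede858_pr
end

-- part Pool.Agent.P.MP_ede858_pr.Eul
section

set_option autoImplicit false

open Set Filter Topology MeasureTheory PowerSeries

namespace Pool.Agent.P.MP_ede858_pr

/-! Euler's transformation and a quadratic transformation, at the level of logarithmic
derivatives. -/

theorem FF_ode (a b : ℝ) {c : ℝ} (hc : 0 < c) :
    th (th (FF a b c)) + (C c - 1) * th (FF a b c)
      = X * (th (th (FF a b c)) + (C a + C b) * th (FF a b c) + C a * C b * FF a b c) := by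
  have e1 : (C c - 1 : ℝ⟦X⟧) = C (c - 1) := by simp
  rw [e1, ← map_mul, add_mul (C a)]
  ext k
  cases k with
  | zero => simp [th]
  | succ k =>
    simp only [map_add, coeff_succ_X_mul, coeff_C_mul, coeff_th, coeff_FF]
    push_cast
    linear_combination hyp_succ a b hc k

theorem th_FF (a b c : ℝ) : th (FF a b c) = C a * (FF (a + 1) b c - FF a b c) := by
  ext k
  rw [coeff_C_mul, map_sub, coeff_th, coeff_FF, coeff_FF, hyp_symm (a + 1), hyp_symm a]
  linear_combination -hyp_up b a c k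

/-- The logarithmic derivative series. -/
noncomputable def yy (a b c : ℝ) : ℝ⟦X⟧ := th (FF a b c) * (FF a b c)⁻¹

theorem yy_eq (a b c : ℝ) : yy a b c = C a * (WW a b c 0 - 1) := by
  rw [yy, th_FF, WW_zero]
  linear_combination -C a * FF_mul_inv a b c

theorem yy_symm (a b c : ℝ) : yy a b c = yy b a c := by rw [yy, yy, FF_symm]

theorem coeff_yy_succ (a b c : ℝ) (k : ℕ) :
    coeff (k + 1) (yy a b c) = a * coeff (k + 1) (WW a b c 0) := by
  rw [yy_eq, coeff_C_mul, map_sub, coeff_one]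
  simp

theorem coeff_yy_zero (a b c : ℝ) : coeff 0 (yy a b c) = 0 := by
  simp [yy, th]

theorem euler_Z (A B : ℝ) {c : ℝ} (hc : 0 < c) :
    (1 - X) * (th (FF A B c) * FF (c - A) (c - B) c - FF A B c * th (FF (c - A) (c - B) c))
      = C (A + B - c) * X * (FF A B c * FF (c - A) (c - B) c) := by
  have h1 := FF_ode A B hc
  have h2 := FF_ode (c - A) (c - B) hc
  set F := FF A B c
  set G := FF (c - A) (c - B) c
  set Z := (1 - X) * (th F * G - F * th G) - C (A + B - c) * X * (F * G) with hZ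
  have h3 : th Z + C (c - 1) * Z = 0 := by
    simp only [hZ, th_mul, th_sub, th_X, th_C, th_one]
    simp only [map_sub, map_add, map_one] at h1 h2 ⊢
    linear_combination G * h1 - F * h2
  have h4 : Z = 0 := by
    ext k
    cases k with
    | zero => simp [hZ, th]
    | succ k =>
      have h5 := congrArg (coeff (k + 1)) h3
      rw [map_add, coeff_th, coeff_C_mul, map_zero] at h5
      have h6 : (0 : ℝ) < ((k + 1 : ℕ) : ℝ) + (c - 1) := by
        push_cast
        have : (0 : ℝ) ≤ k := Nat.cast_nonneg k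
        linarith
      rw [map_zero]
      apply mul_left_cancel₀ h6.ne'
      linear_combination h5
  linear_combination h4

theorem euler_yy (A B : ℝ) {c : ℝ} (hc : 0 < c) (k : ℕ) :
    coeff (k + 1) (yy A B c) = (A + B - c) + coeff (k + 1) (yy (c - A) (c - B) c) := by
  have h1 : yy A B c - yy (c - A) (c - B) c
      = X * (C (A + B - c) + (yy A B c - yy (c - A) (c - B) c)) := by
    have hF := FF_mul_inv A B c
    have hG := FF_mul_inv (c - A) (c - B) c
    have hZ := euler_Z A B hc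
    unfold yy
    set F := FF A B c
    set G := FF (c - A) (c - B) c
    linear_combination F⁻¹ * G⁻¹ * hZ - (1 - X) * th F * F⁻¹ * hG + (1 - X) * th G * G⁻¹ * hF
      + C (A + B - c) * X * (G * G⁻¹ * hF + hG)
  have h2 : ∀ j, coeff (j + 1) (yy A B c - yy (c - A) (c - B) c) = A + B - c := by
    intro j
    induction j with
    | zero =>
      rw [h1, coeff_succ_X_mul, map_add, coeff_zero_C, map_sub, coeff_yy_zero, coeff_yy_zero]
      simp
    | succ j ih => rw [h1, coeff_succ_X_mul, map_add, ih, coeff_succ_C, zero_add]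
  have h3 := h2 k
  rw [map_sub] at h3
  linarith

theorem cf_succ (A B : ℝ) {c : ℝ} (hc : 0 < c) (k : ℕ) :
    cf A B c (k + 1) = 2 * (A + B - c) + 2 * coeff (k + 1) (yy (c - A) (c - B) c) := by
  have h := euler_yy A B hc k
  rw [yy_symm A B, coeff_yy_succ] at h
  rw [cf_eq]
  linarith

theorem WW_succ (a b : ℝ) {c : ℝ} (hc : 0 < c) (k : ℕ) :
    coeff (k + 1) (WW a b c 0) = b / c * coeff k (WW a b c 1) := by
  have h := (WW_frac a b hc).1
  have g1 := gg_odd a b c 0
  simp only [Nat.cast_zero, add_zero, mul_zero, zero_add] at g1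
  rw [one_mul, al, gg_zero, zero_add, g1, sub_zero, one_mul, mul_assoc] at h
  rw [h, map_add, coeff_C_mul, coeff_succ_X_mul, coeff_one]
  simp

theorem FF_Qn {a c : ℝ} (ha : 0 < a + 1) (hc : 0 < c) (b : ℝ) (hb : b = a - c + 1) :
    (1 + X) * FF (a + 1) b (c + 1) = FF a b c
      + C ((2 * c - a) * (a + 1) / (c * (c + 1))) * X * FF (a + 1 + 1) b (c + 1 + 1) := by
  ext k
  rw [mul_assoc, add_mul, one_mul, map_add, map_add, coeff_C_mul]
  cases k with
  | zero => simp [const_FF]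
  | succ k =>
    have h1 : 0 < c + 1 := by linarith
    rw [coeff_succ_X_mul, coeff_succ_X_mul, coeff_FF, coeff_FF, coeff_FF, coeff_FF, hyp_eq, hyp_eq,
      hyp_eq, hyp_eq, po_right (a + 1), po_right b, po_right (c + 1), po_left a, po_left c,
      po_up ha.ne', po_up h1.ne', Nat.factorial_succ]
    have := po_pos h1 k
    have h2 : 0 < c + 1 + k := by positivity
    subst hb
    push_cast
    field_simp
    ring

theorem FF_Q0 {μ : ℝ} (hμ : 0 < μ + 1) :
    (1 + X) * FF (1 / 2 + 1) (1 / 2 - μ + 1) (μ + 1) = FF (1 / 2) (1 / 2 - μ) (μ + 1)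
      + C (3 / (μ + 1)) * X * FF (1 / 2 + 1 + 1) (1 / 2 - μ + 1) (μ + 1 + 1) := by
  ext k
  rw [mul_assoc, add_mul, one_mul, map_add, map_add, coeff_C_mul]
  cases k with
  | zero => simp [const_FF]
  | succ k =>
    rw [coeff_succ_X_mul, coeff_succ_X_mul, coeff_FF, coeff_FF, coeff_FF, coeff_FF, hyp_eq, hyp_eq,
      hyp_eq, hyp_eq, po_right (1 / 2 + 1), po_right (1 / 2 - μ + 1), po_right (μ + 1),
      po_left (1 / 2), po_left (1 / 2 - μ), po_up (x := 1 / 2 + 1) (by norm_num), po_up hμ.ne',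
      Nat.factorial_succ]
    have := po_pos hμ k
    have h2 : 0 < μ + 1 + k := by positivity
    push_cast
    field_simp
    ring

theorem FF_Q1 {μ : ℝ} (hμ : 0 < μ + 1) :
    C 4 * th (FF (1 / 2) (1 / 2 - μ) (μ + 1)) + FF (1 / 2) (1 / 2 - μ) (μ + 1)
      = FF (1 / 2 + 1) (1 / 2 - μ + 1) (μ + 1) - X * FF (1 / 2 + 1) (1 / 2 - μ + 1) (μ + 1) := by
  ext k
  rw [map_add, map_sub, coeff_C_mul, coeff_th]
  cases k with
  | zero => simp [const_FF]
  | succ k =>
    rw [coeff_succ_X_mul, coeff_FF, coeff_FF, coeff_FF, hyp_eq, hyp_eq,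
      hyp_eq, po_right (1 / 2 + 1), po_right (1 / 2 - μ + 1), po_right (μ + 1),
      po_left (1 / 2), po_left (1 / 2 - μ), Nat.factorial_succ]
    have := po_pos hμ k
    have h2 : 0 < μ + 1 + k := by positivity
    push_cast
    field_simp
    ring

/-- The parameters of the fraction of the quadratic transformation. -/
noncomputable def gq (μ : ℝ) (n : ℕ) : ℝ := if n = 0 then 0 else (2 * n + 1) / (4 * (μ + n))

/-- The successive quotients of the quadratic transformation. -/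
noncomputable def Wq (μ : ℝ) (n : ℕ) : ℝ⟦X⟧ :=
  FF (1 / 2 + n + 1) (1 / 2 - μ + 1) (μ + n + 1) * (FF (1 / 2) (1 / 2 - μ) (μ + 1))⁻¹

theorem Wq_frac {μ : ℝ} (hμ : 0 < μ + 1) : IsFrac (gq μ) (1 + X) (C 4 * X) (Wq μ) := by
  constructor
  · have h := FF_Q0 hμ
    have e : C (al (gq μ) 0) * C 4 = (C (3 / (μ + 1)) : ℝ⟦X⟧) := by
      rw [← map_mul]
      congr 1
      simp only [al, gq, if_true, zero_add, one_ne_zero, if_false, Nat.cast_one]
      field_simp
      ring
    simp only [Wq, Nat.cast_zero, add_zero, Nat.cast_one]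
    linear_combination (FF (1 / 2) (1 / 2 - μ) (μ + 1))⁻¹ * h
      + FF_mul_inv (1 / 2) (1 / 2 - μ) (μ + 1)
      - X * FF (1 / 2 + 1 + 1) (1 / 2 - μ + 1) (μ + 1 + 1) * (FF (1 / 2) (1 / 2 - μ) (μ + 1))⁻¹ * e
  · intro n
    have hn : (0 : ℝ) ≤ n := Nat.cast_nonneg n
    have h := FF_Qn (a := 1 / 2 + n + 1) (c := μ + n + 1) (by positivity) (by linarith)
      (1 / 2 - μ + 1) (by ring)
    have e : C (al (gq μ) (n + 1)) * C 4 = (C ((2 * (μ + n + 1) - (1 / 2 + n + 1))
        * (1 / 2 + n + 1 + 1) / ((μ + n + 1) * (μ + n + 1 + 1))) : ℝ⟦X⟧) := by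
      rw [← map_mul]
      congr 1
      have h1 : 0 < μ + n + 1 := by linarith
      have h2 : 0 < μ + (n + 1) := by linarith
      have h3 : 0 < μ + (n + 1 + 1) := by linarith
      have h4 : 0 < μ + n + 1 + 1 := by linarith
      simp only [al, gq, Nat.succ_ne_zero, if_false]
      push_cast
      field_simp
      ring
    simp only [Wq]
    push_cast
    rw [show (1 / 2 + (n + 1) + 1 : ℝ) = 1 / 2 + n + 1 + 1 by ring,
      show (μ + (n + 1) + 1 : ℝ) = μ + n + 1 + 1 by ring,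
      show (1 / 2 + (n + 2) + 1 : ℝ) = 1 / 2 + n + 1 + 1 + 1 by ring,
      show (μ + (n + 2) + 1 : ℝ) = μ + n + 1 + 1 + 1 by ring]
    linear_combination (FF (1 / 2) (1 / 2 - μ) (μ + 1))⁻¹ * h
      - X * FF (1 / 2 + n + 1 + 1 + 1) (1 / 2 - μ + 1) (μ + n + 1 + 1 + 1)
        * (FF (1 / 2) (1 / 2 - μ) (μ + 1))⁻¹ * e

theorem xi_rep {μ : ℝ} (hμ : -1 / 4 < μ) :
    ∃ θ : Measure ℝ, IsProbabilityMeasure θ ∧ (∀ᵐ t ∂θ, t ∈ Icc (0 : ℝ) 1) ∧
      (∫ t, t ^ 6 ∂θ = jv (cd (prev 0 (gq μ))) (ce (prev 0 (gq μ))) (Polynomial.X ^ 6) 0) ∧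
      ∀ k, cf (μ + 1 / 2) (2 * μ + 1 / 2) (μ + 1) k = 4 * μ + ∫ t, (tau k).eval t ∂θ := by
  have h1 : 0 < μ + 1 := by linarith
  obtain ⟨θ, hθ, hI, hm, h⟩ := frac_cheb_meas (g := gq μ) (by simp [gq]) (fun n => by
    unfold gq
    split_ifs with hn
    · exact zero_le_one
    · have : (1 : ℝ) ≤ n := by exact_mod_cast Nat.one_le_iff_ne_zero.2 hn
      rw [div_le_one (by linarith)]
      linarith) (fun n => by
    unfold gq
    split_ifs with hn
    · exact le_rfl
    · have : (1 : ℝ) ≤ n := by exact_mod_cast Nat.one_le_iff_ne_zero.2 hn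
      exact div_nonneg (by linarith) (by linarith)) (Wq_frac h1)
  refine ⟨θ, hθ, hI, hm, fun k => ?_⟩
  cases k with
  | zero =>
    rw [cf_zero _ _ h1, tau_zero]
    simp
    ring
  | succ k =>
    have e : C 4 * yy (1 / 2) (1 / 2 - μ) (μ + 1) + 1 = Wq μ 0 - X * Wq μ 0 := by
      simp only [Wq, Nat.cast_zero, add_zero, yy]
      linear_combination (FF (1 / 2) (1 / 2 - μ) (μ + 1))⁻¹ * FF_Q1 h1
        - FF_mul_inv (1 / 2) (1 / 2 - μ) (μ + 1)
    have e2 := congrArg (coeff (k + 1)) e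
    rw [map_add, map_sub, coeff_C_mul, coeff_succ_X_mul, h k, coeff_one] at e2
    rw [cf_succ _ _ h1, show μ + 1 - (μ + 1 / 2) = 1 / 2 by ring,
      show μ + 1 - (2 * μ + 1 / 2) = 1 / 2 - μ by ring]
    simp only [Nat.succ_ne_zero, if_false, add_zero] at e2
    linarith

end Pool.Agent.P.MP_ede858_pr
end

-- part Pool.Agent.P.MP_ede858_pr.Good
section

set_option autoImplicit false

open Set Filter Topology MeasureTheory Real

namespace Pool.Agent.P.MP_ede858_pr

/-! Positivity and growth of the canonical function. -/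

/-- Positivity and growth bounds for `h = Sr 0 c` and its derivative. -/
def Good (c : ℕ → ℝ) : Prop :=
  ∃ M : ℝ, ∀ x, 0 ≤ x → 0 < Sr 0 c x ∧ |Sr 1 (fun k => c (k + 1)) x| ≤ M * Sr 0 c x ∧
    Sr 0 c x ≤ M * exp x

theorem cosh_le_exp {x : ℝ} (hx : 0 ≤ x) : cosh x ≤ exp x := by
  rw [cosh_eq]
  have := exp_le_exp.2 (show -x ≤ x by linarith)
  linarith

theorem good_of_bounds {c : ℕ → ℝ} {m M : ℝ} (hm : 0 < m) (hM : 0 ≤ M)
    (h : ∀ x, 0 ≤ x → m * cosh x ≤ Sr 0 c x ∧ Sr 0 c x ≤ M * cosh x ∧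
      |Sr 1 (fun k => c (k + 1)) x| ≤ M * sinh x) : Good c := by
  refine ⟨M / m + M, fun x hx => ?_⟩
  obtain ⟨h1, h2, h3⟩ := h x hx
  have hc := cosh_pos x
  have h0 : 0 < Sr 0 c x := lt_of_lt_of_le (by positivity) h1
  have hq : 0 ≤ M / m := by positivity
  refine ⟨h0, ?_, ?_⟩
  · have h4 : M * sinh x ≤ M / m * (m * cosh x) := by
      rw [← mul_assoc, div_mul_cancel₀ _ hm.ne']
      exact mul_le_mul_of_nonneg_left (sinh_lt_cosh x).le hM
    have h5 := mul_le_mul_of_nonneg_left h1 hq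
    nlinarith [mul_nonneg hM h0.le]
  · have h4 := mul_le_mul_of_nonneg_left (cosh_le_exp hx) hM
    nlinarith [mul_nonneg hq (exp_pos x).le]

theorem Sr_sq_one (u x : ℝ) : u * Sr 1 (fun k => (u ^ 2) ^ k) x = sinh (u * x) := by
  rw [sinh_eq_tsum, Sr, ← tsum_mul_left]
  refine tsum_congr (fun k => ?_)
  rw [mul_pow, ← pow_mul]
  ring

theorem ae_geo {θ : Measure ℝ} {R : ℝ} (hR : 1 ≤ R) (hI : ∀ᵐ t ∂θ, t ∈ Icc (-R) 1) :
    ∀ᵐ t ∂θ, Geo (fun k => t ^ k) 1 R := by
  filter_upwards [hI] with t ht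
  exact geo_pow hR (abs_le.2 ⟨ht.1, ht.2.trans hR⟩)

theorem good_of_le {A B C : ℝ} (hA : 0 < A) (hB : 0 < B) (hC : 0 < C) (hAC : A ≤ C)
    (hBC : B ≤ C) : Good (cf A B C) ∧
      ∀ x, 0 ≤ x → Sr 1 (fun k => cf A B C (k + 1)) x ≤ Sr 0 (cf A B C) x := by
  obtain ⟨θ, hθ, hI, hc⟩ := cf_meas hA.le hB.le hC hAC hBC
  have hg : ∀ᵐ t ∂θ, Geo (fun k => t ^ k) 1 1 :=
    ae_geo le_rfl (hI.mono (fun t ht => ⟨by linarith [ht.1], ht.2⟩))
  have hg' : ∀ᵐ t ∂θ, Geo (fun k => t ^ (k + 1)) (1 * 1) 1 := hg.mono (fun t ht => ht.succ)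
  have key : ∀ x, 0 ≤ x → 2 * B ≤ Sr 0 (cf A B C) x ∧ Sr 0 (cf A B C) x ≤ 2 * B * cosh x ∧
      0 ≤ Sr 1 (fun k => cf A B C (k + 1)) x ∧
      Sr 1 (fun k => cf A B C (k + 1)) x ≤ Sr 0 (cf A B C) x := by
    intro x hx
    obtain ⟨i0, e0⟩ := Sr_integral θ (fun k t => t ^ k) (fun k => by fun_prop) hg 0 x
    obtain ⟨i1, e1⟩ := Sr_integral θ (fun k t => t ^ (k + 1)) (fun k => by fun_prop) hg' 1 x
    have hp : ∀ᵐ t ∂θ, 1 ≤ Sr 0 (fun k => t ^ k) x ∧ Sr 0 (fun k => t ^ k) x ≤ cosh x ∧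
        0 ≤ Sr 1 (fun k => t ^ (k + 1)) x ∧
        Sr 1 (fun k => t ^ (k + 1)) x ≤ Sr 0 (fun k => t ^ k) x := by
      filter_upwards [hI] with t ht
      obtain ⟨u, hu, hu1, rfl⟩ : ∃ u, 0 ≤ u ∧ u ≤ 1 ∧ t = u ^ 2 :=
        ⟨√t, Real.sqrt_nonneg _, Real.sqrt_le_one.2 ht.2, (Real.sq_sqrt ht.1).symm⟩
      have e : Sr 1 (fun k => (u ^ 2) ^ (k + 1)) x = u * sinh (u * x) := by
        rw [← Sr_sq_one, ← mul_assoc, ← sq, ← Sr_mul]
        simp only [pow_succ' (u ^ 2)]
      have h1 : 0 ≤ sinh (u * x) := sinh_nonneg_iff.2 (by positivity)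
      rw [e, Sr_sq]
      refine ⟨one_le_cosh _, cosh_le_cosh.2 ?_, by positivity, ?_⟩
      · rw [abs_of_nonneg (by positivity), abs_of_nonneg hx]
        exact mul_le_of_le_one_left hx hu1
      · exact (mul_le_of_le_one_left h1 hu1).trans (sinh_lt_cosh _).le
    have E0 : Sr 0 (cf A B C) x = 2 * B * ∫ t, Sr 0 (fun k => t ^ k) x ∂θ := by
      rw [funext hc, Sr_mul, e0]
    have E1 : Sr 1 (fun k => cf A B C (k + 1)) x
        = 2 * B * ∫ t, Sr 1 (fun k => t ^ (k + 1)) x ∂θ := by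
      simp only [hc]
      rw [Sr_mul, e1]
    have b1 := integral_mono_ae (integrable_const (1 : ℝ)) i0 (hp.mono (fun t ht => ht.1))
    have b2 := integral_mono_ae i0 (integrable_const (cosh x)) (hp.mono (fun t ht => ht.2.1))
    have b3 := integral_nonneg_of_ae (hp.mono (fun t ht => ht.2.2.1))
    have b4 := integral_mono_ae i1 i0 (hp.mono (fun t ht => ht.2.2.2))
    simp only [integral_const, probReal_univ, smul_eq_mul, mul_one, one_mul] at b1 b2
    rw [E0, E1]
    have hB2 : 0 < 2 * B := by positivity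
    exact ⟨le_mul_of_one_le_right hB2.le b1, mul_le_mul_of_nonneg_left b2 hB2.le,
      mul_nonneg hB2.le b3, mul_le_mul_of_nonneg_left b4 hB2.le⟩
  refine ⟨⟨2 * B + 1, fun x hx => ?_⟩, fun x hx => (key x hx).2.2.2⟩
  obtain ⟨h1, h2, h3, h4⟩ := key x hx
  have h0 : 0 < Sr 0 (cf A B C) x := lt_of_lt_of_le (by positivity) h1
  refine ⟨h0, ?_, ?_⟩
  · rw [abs_of_nonneg h3]
    nlinarith [mul_pos hB h0]
  · have := mul_le_mul_of_nonneg_left (cosh_le_exp hx) hB.le
    nlinarith [exp_pos x]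

theorem rep_formula {c : ℕ → ℝ} {s m R Ω : ℝ} {θ : Measure ℝ} [IsProbabilityMeasure θ]
    {ω : ℝ → ℝ} (hR : 1 ≤ R) (hI : ∀ᵐ t ∂θ, t ∈ Icc (-R) 1) (hω : Measurable ω)
    (hΩ : ∀ᵐ t ∂θ, |ω t| ≤ Ω) (h0 : c 0 = 2 * s - m)
    (hc : ∀ k, c (k + 1) = 2 * s - ∫ t, ω t * t ^ k ∂θ) (x : ℝ) :
    Integrable (fun t => ω t * Sr 2 (fun k => t ^ k) x) θ ∧
    Integrable (fun t => ω t * Sr 1 (fun k => t ^ k) x) θ ∧
    Sr 0 c x = 2 * s * cosh x - m - ∫ t, ω t * Sr 2 (fun k => t ^ k) x ∂θ ∧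
    Sr 1 (fun k => c (k + 1)) x = 2 * s * sinh x - ∫ t, ω t * Sr 1 (fun k => t ^ k) x ∂θ := by
  have hg : ∀ᵐ t ∂θ, Geo (fun k => -ω t * t ^ k) Ω R := by
    filter_upwards [ae_geo hR hI, hΩ] with t ht h1
    refine ⟨hR, fun k => ?_⟩
    have h2 := ht.2 k
    rw [one_mul] at h2
    rw [abs_mul, abs_neg]
    exact mul_le_mul h1 h2 (abs_nonneg _) ((abs_nonneg _).trans h1)
  have hg2 := geo_integral θ (fun k t => -ω t * t ^ k) hg
  have e : (fun k => c (k + 1)) = fun k => 2 * s + ∫ t, -ω t * t ^ k ∂θ := by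
    funext k
    simp only [hc, neg_mul, integral_neg]
    ring
  have key : ∀ i, Integrable (fun t => ω t * Sr i (fun k => t ^ k) x) θ ∧
      Sr i (fun k => c (k + 1)) x = 2 * s * Sr i (fun _ => 1) x
        - ∫ t, ω t * Sr i (fun k => t ^ k) x ∂θ := by
    intro i
    obtain ⟨i1, e1⟩ := Sr_integral θ (fun k t => -ω t * t ^ k) (fun k => by fun_prop) hg i x
    simp only [Sr_mul] at i1 e1
    refine ⟨i1.neg.congr (Eventually.of_forall (fun t => by simp)), ?_⟩
    rw [e, Sr_add (geo_const _) hg2, Sr_const, e1]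
    simp only [neg_mul, integral_neg]
    ring
  have hgc : Geo c (|c 0| + (|2 * s| + Ω)) R := by
    have hΩ0 := hg2.nonneg
    refine ⟨hR, fun k => ?_⟩
    cases k with
    | zero => simp only [pow_zero, mul_one]; linarith [abs_nonneg (2 * s)]
    | succ k =>
      have h1 := hg2.2 k
      have h2 := abs_add_le (2 * s) (∫ t, -ω t * t ^ k ∂θ)
      have h3 : R ^ k ≤ R ^ (k + 1) := pow_le_pow_right₀ hR (by omega)
      have h4 : 1 ≤ R ^ (k + 1) := one_le_pow₀ hR
      rw [congrFun e k]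
      nlinarith [abs_nonneg (c 0), abs_nonneg (2 * s), mul_le_mul_of_nonneg_left h3 hΩ0,
        mul_le_mul_of_nonneg_left h4 (abs_nonneg (2 * s))]
  refine ⟨(key 2).1, (key 1).1, ?_, ?_⟩
  · rw [hgc.split0, (key 2).2, Sr_one_two, h0]
    ring
  · rw [(key 1).2, Sr_one_one]

theorem good_of_rep {c : ℕ → ℝ} {s m R Ω L : ℝ} {θ : Measure ℝ} [IsProbabilityMeasure θ]
    {ω : ℝ → ℝ} (hR : 1 ≤ R) (hI : ∀ᵐ t ∂θ, t ∈ Icc (-R) 1) (hω : Measurable ω)
    (hΩ : ∀ᵐ t ∂θ, |ω t| ≤ Ω) (h0 : c 0 = 2 * s - m)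
    (hc : ∀ k, c (k + 1) = 2 * s - ∫ t, ω t * t ^ k ∂θ) (hm : 0 ≤ m) (hs : m < 2 * s)
    (hωm : ∀ᵐ t ∂θ, ω t ≤ m)
    (hL : ∀ x, 0 ≤ x → -(L * (cosh x - 1)) ≤ ∫ t, ω t * Sr 2 (fun k => t ^ k) x ∂θ) :
    Good c ∧ ∀ x, 0 ≤ x → Sr 0 c x ≤ 2 * s * cosh x - m + L * (cosh x - 1) := by
  have hΩ0 : 0 ≤ Ω := by
    obtain ⟨t, ht⟩ := hΩ.exists
    exact (abs_nonneg _).trans ht
  refine ⟨good_of_bounds (m := 2 * s - m) (M := 2 * s + Ω) (by linarith) (by linarith)
    (fun x hx => ?_), fun x hx => ?_⟩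
  · obtain ⟨i2, i1, e0, e1⟩ := rep_formula hR hI hω hΩ h0 hc x
    have hk : ∀ᵐ t ∂θ, _ := hI.mono (fun t ht => ker_two ht.2 hx)
    have b1 := integral_mono_ae i2 (integrable_const (m * (cosh x - 1))) (by
      filter_upwards [hk, hωm] with t ht h1
      exact (mul_le_mul_of_nonneg_right h1 ht.1).trans (mul_le_mul_of_nonneg_left ht.2.1 hm))
    have b2 := norm_integral_le_of_norm_le_const (μ := θ)
      (f := fun t => ω t * Sr 2 (fun k => t ^ k) x) (C := Ω * (cosh x - 1)) (by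
      filter_upwards [hk, hΩ] with t ht h1
      rw [Real.norm_eq_abs, abs_mul, abs_of_nonneg ht.1]
      exact mul_le_mul h1 ht.2.1 ht.1 hΩ0)
    have b3 := norm_integral_le_of_norm_le_const (μ := θ)
      (f := fun t => ω t * Sr 1 (fun k => t ^ k) x) (C := Ω * sinh x) (by
      filter_upwards [hk, hΩ] with t ht h1
      rw [Real.norm_eq_abs, abs_mul]
      exact mul_le_mul h1 ht.2.2.2 (abs_nonneg _) hΩ0)
    simp only [integral_const, probReal_univ, smul_eq_mul, mul_one, one_mul, Real.norm_eq_abs]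
      at b1 b2 b3
    have h1 := abs_le.1 b2
    have h2 := abs_le.1 b3
    have h3 : 0 ≤ 2 * s * sinh x := mul_nonneg (by linarith) (sinh_nonneg_iff.2 hx)
    rw [e0, e1]
    refine ⟨by linarith, by linarith, abs_le.2 ⟨by linarith, by linarith⟩⟩
  · obtain ⟨-, -, e0, -⟩ := rep_formula hR hI hω hΩ h0 hc x
    rw [e0]
    linarith [hL x hx]

theorem gg_phi {μ m : ℝ} (hμ : -1 < μ) (n : ℕ) :
    gg (-m / 2) ((1 - m) / 2) (μ + 1) (n + 1) = (n + 1 - m) / (2 * (μ + n + 1)) := by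
  obtain ⟨k, rfl | rfl⟩ := Nat.even_or_odd' n
  · have hk : (0 : ℝ) ≤ k := Nat.cast_nonneg k
    have h1 : 0 < μ + 1 + 2 * k := by linarith
    have h2 : 0 < μ + 2 * k + 1 := by linarith
    rw [gg_odd]
    push_cast
    field_simp
    ring
  · have hk : (0 : ℝ) ≤ k := Nat.cast_nonneg k
    have h1 : 0 < μ + 1 + 2 * k + 1 := by linarith
    have h2 : 0 < μ + (2 * k + 1) + 1 := by linarith
    rw [show 2 * k + 1 + 1 = 2 * k + 2 by ring, gg_even]
    push_cast
    field_simp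
    ring

theorem gg_phi_sign {μ m : ℝ} (hμ : -1 < μ) (n : ℕ) (h : m ≤ n + 1 ∨ (n : ℝ) + 2 ≤ m) :
    0 ≤ gg (-m / 2) ((1 - m) / 2) (μ + 1) (n + 1) * gg (-m / 2) ((1 - m) / 2) (μ + 1) (n + 2) := by
  have hn : (0 : ℝ) ≤ n := Nat.cast_nonneg n
  rw [gg_phi hμ n, gg_phi hμ (n + 1), div_mul_div_comm]
  push_cast
  refine div_nonneg ?_ (mul_nonneg (by linarith) (by linarith))
  rcases h with h | h
  · exact mul_nonneg (by linarith) (by linarith)
  · exact mul_nonneg_of_nonpos_of_nonpos (by linarith) (by linarith)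

theorem good_phi_big {μ ν : ℝ} (hμ : -1 < μ) (hρ : 0 < μ + ν) (hν : μ + 1 < ν) :
    Good (cf ((μ + ν + 1) / 2) ((μ + ν) / 2) (μ + 1)) ∧ ∀ x, 0 ≤ x →
      Sr 0 (cf ((μ + ν + 1) / 2) ((μ + ν) / 2) (μ + 1)) x ≤ 2 * (ν - 1 / 2) * cosh x - (ν - μ - 1)
        + (ν - μ - 1) * max ((ν - μ - 2) / (2 * (μ + 1))) 0 * (cosh x - 1) := by
  obtain ⟨m, rfl⟩ : ∃ m, ν = m + μ + 1 := ⟨ν - μ - 1, by ring⟩
  have hm : 0 < m := by linarith
  have hC : 0 < μ + 1 := by linarith
  rw [show m + μ + 1 - μ - 1 = m by ring, show m + μ + 1 - μ - 2 = m - 1 by ring]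
  set K := (m - 1) / (2 * (μ + 1)) with hK
  have hK' : (1 - m) / 2 / (μ + 1) = -K := by
    rw [hK]
    field_simp
    ring
  have h0 : cf ((μ + (m + μ + 1) + 1) / 2) ((μ + (m + μ + 1)) / 2) (μ + 1) 0
      = 2 * (m + μ + 1 - 1 / 2) - m := by
    rw [cf_zero _ _ hC]
    ring
  have hc : ∀ k, cf ((μ + (m + μ + 1) + 1) / 2) ((μ + (m + μ + 1)) / 2) (μ + 1) (k + 1)
      = 2 * (m + μ + 1 - 1 / 2)
        - m * PowerSeries.coeff (k + 1) (WW (-m / 2) ((1 - m) / 2) (μ + 1) 0) := by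
    intro k
    rw [cf_succ _ _ hC, show μ + 1 - (μ + (m + μ + 1) + 1) / 2 = -m / 2 by ring,
      show μ + 1 - (μ + (m + μ + 1)) / 2 = (1 - m) / 2 by ring, coeff_yy_succ]
    ring
  have hle := gg_le_one (a := -m / 2) (b := (1 - m) / 2) (by linarith) (by linarith) hC
  have hfl := Nat.floor_le hm.le
  have hfl' := Nat.lt_floor_add_one m
  obtain ⟨N, hN | hN⟩ := Nat.even_or_odd' ⌊m⌋₊
  · rw [hN] at hfl hfl'
    push_cast at hfl hfl'
    obtain ⟨R, θ, hR, hθ, hI, hW⟩ := frac_even_meas (gg_zero _ _ _) hle (fun k => by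
      refine gg_phi_sign hμ (2 * k) ?_
      push_cast
      rcases le_or_gt N k with h | h
      · have : (N : ℝ) ≤ k := by exact_mod_cast h
        left; linarith
      · have : (k : ℝ) + 1 ≤ N := by exact_mod_cast h
        right; linarith) (gg_bound _ _ hC) (WW_frac _ _ hC)
    have hm1 : ∫ t, t ∂θ = -K := by
      have h1 := hW 1
      rw [WW_succ _ _ hC, hK'] at h1
      simp only [pow_one] at h1
      rw [← h1]
      have h2 := (WW_frac (-m / 2) ((1 - m) / 2) hC).2 0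
      have h3 := (frac_low (WW_frac (-m / 2) ((1 - m) / 2) hC)).1
      rw [one_mul, mul_assoc] at h2
      rw [zero_add] at h2
      rw [h2, map_add, h3]
      simp
    refine good_of_rep (ω := fun t => m * t) (Ω := m * R) hR hI (by fun_prop) ?_ h0 (fun k => ?_)
      hm.le (by linarith) ?_ (fun x hx => ?_)
    · filter_upwards [hI] with t ht
      rw [abs_mul, abs_of_pos hm]
      exact mul_le_mul_of_nonneg_left (abs_le.2 ⟨ht.1, ht.2.trans hR⟩) hm.le
    · rw [hc, hW, ← integral_const_mul]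
      simp only [pow_succ', mul_assoc]
    · filter_upwards [hI] with t ht
      exact mul_le_of_le_one_right hm.le ht.2
    · have it : Integrable (fun t : ℝ => t) θ := Integrable.of_bound (by fun_prop) R (by
        filter_upwards [hI] with t ht
        exact abs_le.2 ⟨ht.1, ht.2.trans hR⟩)
      have i2 := (Sr_integral θ (fun k t => t ^ (k + 1)) (fun k => by fun_prop)
        ((ae_geo hR hI).mono (fun t ht => ht.succ)) 2 x).1
      simp only [pow_succ', Sr_mul] at i2
      have b := integral_mono_ae (it.mul_const (x ^ 2 / 2)) i2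
        (hI.mono (fun t ht => (ker_two ht.2 hx).2.2.1))
      rw [integral_mul_const, hm1] at b
      simp only [mul_assoc]
      rw [integral_const_mul]
      have h1 := half_sq_le x
      have h2 : K * (x ^ 2 / 2) ≤ max K 0 * (cosh x - 1) :=
        (mul_le_mul_of_nonneg_right (le_max_left K 0) (by positivity)).trans
          (mul_le_mul_of_nonneg_left h1 (le_max_right K 0))
      nlinarith
  · rw [hN] at hfl hfl'
    push_cast at hfl hfl'
    have hN0 : (0 : ℝ) ≤ N := Nat.cast_nonneg N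
    have hK0 : 0 ≤ K := div_nonneg (by linarith) (by linarith)
    obtain ⟨R, θ, hR, hθ, hI, hW⟩ := frac_odd_meas (gg_zero _ _ _) hle (fun k => by
      refine gg_phi_sign hμ (2 * k + 1) ?_
      push_cast
      rcases le_or_gt N k with h | h
      · have : (N : ℝ) ≤ k := by exact_mod_cast h
        left; linarith
      · have : (k : ℝ) + 1 ≤ N := by exact_mod_cast h
        right; linarith) (gg_bound _ _ hC) (WW_frac _ _ hC)
    refine good_of_rep (ω := fun _ => -(m * K)) (Ω := m * K) hR hI (by fun_prop) ?_ h0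
      (fun k => ?_) hm.le (by linarith) ?_ (fun x hx => ?_)
    · exact Eventually.of_forall (fun t => by rw [abs_neg, abs_of_nonneg (by positivity)])
    · rw [hc, WW_succ _ _ hC, hK', hW, integral_const_mul]
      ring
    · exact Eventually.of_forall (fun t => by nlinarith [mul_nonneg hm.le hK0])
    · have i2 := (Sr_integral θ (fun k t => t ^ k) (fun k => by fun_prop) (ae_geo hR hI) 2 x).1
      have b := integral_mono_ae i2 (integrable_const (cosh x - 1))
        (hI.mono (fun t ht => (ker_two ht.2 hx).2.1))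
      simp only [integral_const, probReal_univ, smul_eq_mul, one_mul] at b
      rw [integral_const_mul, max_eq_left hK0]
      nlinarith [mul_le_mul_of_nonneg_left b (mul_nonneg hm.le hK0)]

theorem dip_phi {μ ν : ℝ} (hμ : -1 < μ) (hρ : 0 < μ + ν) (hν : μ + 1 < ν) :
    ∃ x, 0 ≤ x ∧ exp (-x) * Sr 0 (cf ((μ + ν + 1) / 2) ((μ + ν) / 2) (μ + 1)) x < ν - 1 / 2 := by
  have h := (good_phi_big hμ hρ hν).2
  set s := ν - 1 / 2 with hs
  set m := ν - μ - 1 with hm
  set L := max ((ν - μ - 2) / (2 * (μ + 1))) 0 with hL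
  have hm0 : 0 < m := by linarith
  have hms : m < 2 * s := by linarith
  have key : ∀ u, 0 < u → u ≤ 1 → s * u ^ 2 - m * u + m * L * (1 - u) ^ 2 / 2 < 0 →
      ∃ x, 0 ≤ x ∧ exp (-x) * Sr 0 (cf ((μ + ν + 1) / 2) ((μ + ν) / 2) (μ + 1)) x < s := by
    intro u hu hu1 hq
    have hx : 0 ≤ -log u := neg_nonneg.2 (log_nonpos hu.le hu1)
    refine ⟨-log u, hx, ?_⟩
    have h1 := mul_le_mul_of_nonneg_left (h _ hx) hu.le
    rw [cosh_eq, neg_neg, exp_log hu, exp_neg, exp_log hu] at h1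
    rw [neg_neg, exp_log hu]
    have e : u * (2 * s * ((u⁻¹ + u) / 2) - m + m * L * ((u⁻¹ + u) / 2 - 1))
        = s + (s * u ^ 2 - m * u + m * L * (1 - u) ^ 2 / 2) := by
      field_simp
      ring
    linarith
  rcases le_or_gt ((ν - μ - 2) / (2 * (μ + 1))) 0 with hK | hK
  · have hL0 : L = 0 := max_eq_right hK
    have hs0 : 0 < s := by linarith
    refine key (m / (2 * s)) (by positivity) ((div_le_one (by positivity)).2 hms.le) ?_
    rw [hL0]
    have e : s * (m / (2 * s)) ^ 2 - m * (m / (2 * s)) + m * 0 * (1 - m / (2 * s)) ^ 2 / 2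
        = -(m ^ 2 / (4 * s)) := by
      field_simp
      ring
    rw [e, neg_lt_zero]
    positivity
  · have hL0 : L * (2 * (μ + 1)) = ν - μ - 2 := by
      rw [hL, max_eq_left hK.le, div_mul_cancel₀ _ (by linarith)]
    have hL1 : 0 < L := lt_max_of_lt_left hK
    refine key (L / (1 + L)) (by positivity) ((div_le_one (by positivity)).2 (by linarith)) ?_
    have e : s * (L / (1 + L)) ^ 2 - m * (L / (1 + L)) + m * L * (1 - L / (1 + L)) ^ 2 / 2
        = -(L * (m * (1 + 2 * L) - 2 * s * L) / (2 * (1 + L) ^ 2)) := by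
      field_simp
      ring
    have h1 : 0 < m * (1 + 2 * L) - 2 * s * L := by
      have h2 : (m * (1 + 2 * L) - 2 * s * L) * (2 * (μ + 1)) = μ + ν := by
        rw [hm, hs]
        linear_combination (-(2 * μ + 1)) * hL0
      by_contra h3
      nlinarith [mul_nonneg (neg_nonneg.2 (not_lt.1 h3)) (show 0 ≤ 2 * (μ + 1) by linarith)]
    rw [e, neg_lt_zero]
    positivity

theorem xi_bounds {μ : ℝ} (hμ : -1 / 4 < μ) (k : ℕ) :
    4 * μ - 1 ≤ cf (μ + 1 / 2) (2 * μ + 1 / 2) (μ + 1) k ∧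
      cf (μ + 1 / 2) (2 * μ + 1 / 2) (μ + 1) k ≤ 4 * μ + 1 := by
  obtain ⟨θ, hθ, hI, -, h⟩ := xi_rep hμ
  have b := norm_integral_le_of_norm_le_const (μ := θ) (f := fun t => (tau k).eval t) (C := 1)
    (hI.mono (fun t ht => abs_tau_le k ht))
  simp only [probReal_univ, mul_one, Real.norm_eq_abs] at b
  rw [h]
  constructor <;> linarith [abs_le.1 b]

theorem good_xi_big {μ : ℝ} (hμ : 1 / 4 < μ) :
    Good (cf (μ + 1 / 2) (2 * μ + 1 / 2) (μ + 1)) ∧ ∀ x, 0 ≤ x →
      (4 * μ - 1) * Sr 1 (fun k => cf (μ + 1 / 2) (2 * μ + 1 / 2) (μ + 1) (k + 1)) x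
        ≤ (4 * μ + 1) * Sr 0 (cf (μ + 1 / 2) (2 * μ + 1 / 2) (μ + 1)) x := by
  have hb := xi_bounds (show -1 / 4 < μ by linarith)
  obtain ⟨R, hg⟩ := cf_geo (μ + 1 / 2) (2 * μ + 1 / 2) (show 0 < μ + 1 by linarith)
  have key : ∀ x, 0 ≤ x → (4 * μ - 1) * cosh x ≤ Sr 0 (cf (μ + 1 / 2) (2 * μ + 1 / 2) (μ + 1)) x ∧
      Sr 0 (cf (μ + 1 / 2) (2 * μ + 1 / 2) (μ + 1)) x ≤ (4 * μ + 1) * cosh x ∧
      |Sr 1 (fun k => cf (μ + 1 / 2) (2 * μ + 1 / 2) (μ + 1) (k + 1)) x|
        ≤ (4 * μ + 1) * sinh x := by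
    intro x hx
    refine ⟨?_, ?_, ?_⟩
    · rw [← Sr_one_zero, ← Sr_const]
      exact Sr_mono (geo_const _) hg 0 hx (fun k => (hb k).1)
    · rw [← Sr_one_zero, ← Sr_const]
      exact Sr_mono hg (geo_const _) 0 hx (fun k => (hb k).2)
    · rw [abs_of_nonneg (Sr_nonneg _ hx (fun k => by linarith [(hb (k + 1)).1])), ← Sr_one_one,
        ← Sr_const]
      exact Sr_mono hg.succ (geo_const _) 1 hx (fun k => (hb (k + 1)).2)
  refine ⟨good_of_bounds (by linarith) (by linarith) key, fun x hx => ?_⟩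
  obtain ⟨h1, -, h3⟩ := key x hx
  have h4 := (le_abs_self _).trans h3
  have h5 := (sinh_lt_cosh x).le
  have h6 : 0 ≤ 4 * μ - 1 := by linarith
  have h7 : 0 ≤ 4 * μ + 1 := by linarith
  nlinarith [mul_le_mul_of_nonneg_left h4 h6, mul_le_mul_of_nonneg_left h1 h7,
    mul_le_mul_of_nonneg_left h5 (mul_nonneg h6 h7)]

end Pool.Agent.P.MP_ede858_pr
end

-- part Pool.Agent.P.MP_ede858_pr.Cpp
section

set_option autoImplicit false

open Set Filter Topology MeasureTheory ProbabilityTheory Real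
open scoped ENNReal

namespace Pool.Agent.P.MP_ede858_pr

/-! Laplace transforms with values in `[0, ∞]`, uniqueness, and compound Poisson laws. -/

/-- The Laplace transform as a Lebesgue integral. -/
noncomputable def elap (P : Measure ℝ) (s : ℝ) : ℝ≥0∞ :=
  ∫⁻ x, ENNReal.ofReal (exp (-(s * x))) ∂P

theorem elap_eq {P : Measure ℝ} {s : ℝ} (h : Integrable (fun x => exp (-(s * x))) P) :
    elap P s = ENNReal.ofReal (lap P s) :=
  (ofReal_integral_eq_lintegral_ofReal h (Eventually.of_forall (fun _ => (exp_pos _).le))).symm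

theorem elap_zero (P : Measure ℝ) : elap P 0 = P univ := by
  simp [elap]

theorem elap_conv (P Q : Measure ℝ) [SFinite Q] (s : ℝ) :
    elap (Measure.conv P Q) s = elap P s * elap Q s := by
  unfold elap
  rw [Measure.lintegral_conv (by fun_prop), ← lintegral_mul_const _ (by fun_prop)]
  refine lintegral_congr (fun x => ?_)
  rw [← lintegral_const_mul _ (by fun_prop)]
  refine lintegral_congr (fun y => ?_)
  rw [← ENNReal.ofReal_mul (exp_pos _).le, ← exp_add]
  congr 2
  ring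

theorem elap_map (P : Measure ℝ) (c s : ℝ) : elap (P.map (fun x => c * x)) s = elap P (c * s) := by
  unfold elap
  rw [lintegral_map (by fun_prop) (by fun_prop)]
  refine lintegral_congr (fun x => ?_)
  congr 3
  ring

theorem integrable_exp_of_nonneg {P : Measure ℝ} [IsFiniteMeasure P] (h : ∀ᵐ x ∂P, 0 ≤ x) {s : ℝ}
    (hs : 0 ≤ s) : Integrable (fun x => exp (-(s * x))) P := by
  refine Integrable.of_bound (by fun_prop) 1 ?_
  filter_upwards [h] with x hx
  rw [Real.norm_of_nonneg (exp_pos _).le, exp_le_one_iff, neg_nonpos]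
  positivity

theorem elap_anti {P : Measure ℝ} (h : ∀ᵐ x ∂P, 0 ≤ x) {s t : ℝ} (hst : s ≤ t) :
    elap P t ≤ elap P s := by
  refine lintegral_mono_ae ?_
  filter_upwards [h] with x hx
  exact ENNReal.ofReal_le_ofReal (exp_le_exp.2 (by nlinarith))

theorem nonneg_of_elap {Q : Measure ℝ} {M : ℝ≥0∞} (hM : M ≠ ∞) (h : ∀ s, 0 ≤ s → elap Q s ≤ M) :
    ∀ᵐ x ∂Q, 0 ≤ x := by
  have h1 : ∀ ε : ℝ, 0 < ε → Q {x | x ≤ -ε} = 0 := by
    intro ε hε
    have h2 : ∀ n : ℕ, (n : ℝ≥0∞) * Q {x | x ≤ -ε} ≤ M := by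
      intro n
      have h3 := mul_meas_ge_le_lintegral (μ := Q)
        (f := fun x => ENNReal.ofReal (exp (-(n / ε * x)))) (by fun_prop) (n : ℝ≥0∞)
      refine le_trans ?_ (h3.trans (h (n / ε) (by positivity)))
      refine mul_le_mul_right (measure_mono (fun x hx => ?_)) _
      have hx' : x ≤ -ε := hx
      simp only [mem_ofPred_eq]
      rw [← ENNReal.ofReal_natCast]
      refine ENNReal.ofReal_le_ofReal (le_trans ?_ (add_one_le_exp _))
      have : (n : ℝ) / ε * ε = n := by field_simp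
      have h4 : (0 : ℝ) ≤ n / ε := by positivity
      nlinarith
    by_contra h0
    have h4 := ENNReal.Tendsto.mul_const (b := Q {x | x ≤ -ε}) ENNReal.tendsto_nat_nhds_top
      (Or.inl ENNReal.top_ne_zero)
    rw [ENNReal.top_mul h0] at h4
    exact hM (top_le_iff.1 (le_of_tendsto' h4 h2))
  rw [ae_iff]
  refine measure_mono_null (t := ⋃ n : ℕ, {x : ℝ | x ≤ -(1 / ((n : ℝ) + 1))}) (fun x hx => ?_)
    (measure_iUnion_null (fun n => h1 _ (by positivity)))
  have hx' : 0 < -x := by simpa using hx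
  obtain ⟨n, hn⟩ := exists_nat_one_div_lt hx'
  exact mem_iUnion.2 ⟨n, by simp only [mem_ofPred_eq]; linarith⟩

theorem charFun_limit {P : Measure ℝ} [IsFiniteMeasure P] (h : ∀ᵐ x ∂P, 0 ≤ x) (t : ℝ) :
    Tendsto (fun n : ℕ => complexMGF id P (-((1 / ((n : ℝ) + 1) : ℝ) : ℂ) + t * Complex.I)) atTop
      (𝓝 (charFun P t)) := by
  rw [← complexMGF_id_mul_I]
  unfold complexMGF
  refine tendsto_integral_of_dominated_convergence (fun _ => 1) (fun n => by fun_prop)
    (integrable_const _) (fun n => ?_) (Eventually.of_forall (fun x => ?_))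
  · filter_upwards [h] with x hx
    rw [Complex.norm_exp, exp_le_one_iff]
    simp only [id, Complex.mul_re, Complex.add_re, Complex.neg_re, Complex.ofReal_re,
      Complex.I_re, Complex.ofReal_im, Complex.I_im, mul_zero, zero_mul, sub_zero, add_zero]
    have : 0 ≤ 1 / ((n : ℝ) + 1) * x := by positivity
    linarith
  · have h1 : Tendsto (fun n : ℕ => ((1 / ((n : ℝ) + 1) : ℝ) : ℂ)) atTop (𝓝 0) := by
      have := (Complex.continuous_ofReal.tendsto 0).comp
        (tendsto_one_div_add_atTop_nhds_zero_nat (𝕜 := ℝ))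
      simpa only [Complex.ofReal_zero, Function.comp_def] using this
    have h2 := ((h1.neg.add_const (t * Complex.I)).mul_const ((id x : ℝ) : ℂ)).cexp
    simpa only [neg_zero, zero_add] using h2

theorem lap_unique {P Q : Measure ℝ} [IsFiniteMeasure P] [IsFiniteMeasure Q]
    (hP : ∀ᵐ x ∂P, 0 ≤ x) (hQ : ∀ᵐ x ∂Q, 0 ≤ x) (h : ∀ s, 0 ≤ s → lap P s = lap Q s) : P = Q := by
  have hA : ∀ {V : Measure ℝ} [IsFiniteMeasure V], (∀ᵐ x ∂V, 0 ≤ x) →
      AnalyticOnNhd ℂ (complexMGF id V) {z | z.re < 0} := by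
    intro V _ hV
    refine analyticOnNhd_complexMGF.mono (fun z hz => ?_)
    refine interior_maximal (t := Iio 0) (fun u hu => ?_) isOpen_Iio hz
    have := integrable_exp_of_nonneg hV (s := -u) (neg_nonneg.2 (le_of_lt hu))
    simpa [integrableExpSet] using this
  have hE : EqOn (complexMGF id P) (complexMGF id Q) {z | z.re < 0} := by
    refine AnalyticOnNhd.eqOn_of_preconnected_of_frequently_eq (hA hP) (hA hQ)
      (convex_halfSpace_re_lt 0).isPreconnected (z₀ := ((-1 : ℝ) : ℂ)) (by simp) ?_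
    have h_real : ∃ᶠ (x : ℝ) in 𝓝[≠] (-1), complexMGF id P x = complexMGF id Q x := by
      refine Eventually.frequently ?_
      filter_upwards [nhdsWithin_le_nhds (gt_mem_nhds (show (-1 : ℝ) < 0 by norm_num))] with y hy
      have := h (-y) (by linarith)
      rw [complexMGF_ofReal, complexMGF_ofReal]
      simpa [lap, mgf] using this
    rw [frequently_iff_seq_forall] at h_real ⊢
    obtain ⟨xs, hx_tendsto, hx_eq⟩ := h_real
    refine ⟨fun n => xs n, ?_, fun n => ?_⟩
    · rw [tendsto_nhdsWithin_iff] at hx_tendsto ⊢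
      constructor
      · rw [tendsto_ofReal_iff]
        exact hx_tendsto.1
      · filter_upwards [hx_tendsto.2] with n hn
        exact fun h0 => hn (Complex.ofReal_injective h0)
    · exact hx_eq n
  refine Measure.ext_of_charFun (funext (fun t => ?_))
  refine tendsto_nhds_unique (charFun_limit hP t) ((charFun_limit hQ t).congr (fun n => ?_))
  refine (hE ?_).symm
  simp only [mem_ofPred_eq, Complex.mul_re, Complex.add_re, Complex.neg_re, Complex.ofReal_re,
    Complex.I_re, Complex.ofReal_im, Complex.I_im, mul_zero, zero_mul, sub_zero, add_zero]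
  have : 0 < 1 / ((n : ℝ) + 1) := by positivity
  linarith

theorem elap_unique {P Q : Measure ℝ} [IsFiniteMeasure P] (hP : ∀ᵐ x ∂P, 0 ≤ x)
    (h : ∀ s, 0 ≤ s → elap P s = elap Q s) : P = Q := by
  have hu : P univ = Q univ := by rw [← elap_zero, ← elap_zero, h 0 le_rfl]
  have : IsFiniteMeasure Q := ⟨by rw [← hu]; exact measure_lt_top _ _⟩
  have hQ : ∀ᵐ x ∂Q, 0 ≤ x := nonneg_of_elap (measure_ne_top P univ) (fun s hs => by
    rw [← h s hs, ← elap_zero]
    exact elap_anti hP hs)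
  refine lap_unique hP hQ (fun s hs => ?_)
  have h1 := h s hs
  rw [elap_eq (integrable_exp_of_nonneg hP hs), elap_eq (integrable_exp_of_nonneg hQ hs)] at h1
  exact (ENNReal.ofReal_eq_ofReal_iff (integral_nonneg (fun _ => (exp_pos _).le))
    (integral_nonneg (fun _ => (exp_pos _).le))).1 h1

theorem exists_compound (N : Measure ℝ) [IsFiniteMeasure N] (hN : ∀ᵐ x ∂N, 0 ≤ x) :
    ∃ Q : Measure ℝ, IsProbabilityMeasure Q ∧
      ∀ s, 0 ≤ s → elap Q s = ENNReal.ofReal (exp (lap N s - lap N 0)) := by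
  let pw : ℕ → Measure ℝ := fun j => (fun V => Measure.conv V N)^[j] (Measure.dirac 0)
  have hpw : ∀ j s, elap (pw j) s = elap N s ^ j := by
    intro j s
    induction j with
    | zero => simp [pw, elap]
    | succ j ih =>
      simp only [pw, Function.iterate_succ_apply'] at ih ⊢
      rw [elap_conv, ih, pow_succ]
  let Q : Measure ℝ := Measure.sum
    (fun j : ℕ => ENNReal.ofReal (exp (-lap N 0) / (j.factorial : ℝ)) • pw j)
  have hQ : ∀ s, 0 ≤ s → elap Q s = ENNReal.ofReal (exp (lap N s - lap N 0)) := by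
    intro s hs
    have h0 : 0 ≤ lap N s := integral_nonneg (fun _ => (exp_pos _).le)
    have h1 : elap Q s = ∑' j : ℕ, ENNReal.ofReal
        (exp (-lap N 0) * (lap N s ^ j / (j.factorial : ℝ))) := by
      simp only [elap, Q]
      rw [lintegral_sum_measure]
      refine tsum_congr (fun j => ?_)
      rw [lintegral_smul_measure, smul_eq_mul]
      have h2 := hpw j s
      rw [elap_eq (integrable_exp_of_nonneg hN hs), ← ENNReal.ofReal_pow h0, elap] at h2
      rw [h2, ← ENNReal.ofReal_mul (by positivity)]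
      congr 1
      ring
    have h3 : HasSum (fun n : ℕ => lap N s ^ n / (n.factorial : ℝ)) (exp (lap N s)) := by
      rw [Real.exp_eq_exp_ℝ]
      exact NormedSpace.expSeries_div_hasSum_exp _
    rw [h1, ← ENNReal.ofReal_tsum_of_nonneg (fun j => by positivity)
      (h3.mul_left _).summable, (h3.mul_left _).tsum_eq, ← exp_add]
    congr 2
    ring
  refine ⟨Q, ⟨?_⟩, hQ⟩
  rw [← elap_zero, hQ 0 le_rfl, sub_self, exp_zero, ENNReal.ofReal_one]

end Pool.Agent.P.MP_ede858_pr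
end

-- part Pool.Agent.P.MP_ede858_pr.SD
section

set_option autoImplicit false

open Set Filter Topology MeasureTheory ProbabilityTheory Real

namespace Pool.Agent.P.MP_ede858_pr

/-! Self-decomposability in terms of the canonical function. -/

/-- The derivative of the canonical function. -/
noncomputable def kd (A B C r b x : ℝ) : ℝ :=
  exp (-(b * x)) * (r * Sr 1 (fun k => cf A B C (k + 1)) (r * x) - b * Sr 0 (cf A B C) (r * x))

theorem kf_deriv (A B r b : ℝ) {C : ℝ} (hC : 0 < C) (x : ℝ) :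
    HasDerivAt (kf A B C r b) (kd A B C r b x) x := by
  obtain ⟨R, hg⟩ := cf_geo A B hC
  have h1 := ((hasDerivAt_id x).const_mul b).neg.exp
  have h2 := (hg.hasDerivAt0 (r * x)).comp x ((hasDerivAt_id x).const_mul r)
  refine (h1.mul h2).congr_deriv ?_
  simp only [kd, id, Pi.neg_apply, Function.comp_apply]
  ring

theorem kd_continuous (A B r b : ℝ) {C : ℝ} (hC : 0 < C) : Continuous (kd A B C r b) := by
  obtain ⟨R, hg⟩ := cf_geo A B hC
  have h0 := hg.continuous 0
  have h1 := hg.succ.continuous 1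
  unfold kd
  fun_prop

theorem good_kf {A B C r b : ℝ} (hr : 0 < r) (hb : r < b) (hg : Good (cf A B C)) :
    ∃ M, 0 ≤ M ∧ ∀ x, 0 ≤ x → 0 < kf A B C r b x ∧ kf A B C r b x ≤ M * exp (-(b - r) * x) ∧
      |kd A B C r b x| ≤ M * exp (-(b - r) * x) := by
  obtain ⟨M, hM⟩ := hg
  have hM0 : 0 ≤ M := by
    have := (hM 0 le_rfl).1.trans_le (hM 0 le_rfl).2.2
    simpa using this.le
  have hb0 : 0 < b := hr.trans hb
  refine ⟨M + (r * M + b) * M, by positivity, fun x hx => ?_⟩
  obtain ⟨h1, h2, h3⟩ := hM (r * x) (by positivity)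
  have e : exp (-(b - r) * x) = exp (-(b * x)) * exp (r * x) := by
    rw [← exp_add]
    congr 1
    ring
  have hp := exp_pos (-(b * x))
  have hq := exp_pos (r * x)
  rw [e, kf, lev_eq, kd]
  refine ⟨by positivity, ?_, ?_⟩
  · have h4 : Sr 0 (cf A B C) (r * x) ≤ (M + (r * M + b) * M) * exp (r * x) := by
      have : 0 ≤ (r * M + b) * M * exp (r * x) := by positivity
      linarith
    nlinarith [mul_le_mul_of_nonneg_left h4 hp.le]
  · rw [abs_mul, abs_of_pos hp]
    have h4 : |r * Sr 1 (fun k => cf A B C (k + 1)) (r * x) - b * Sr 0 (cf A B C) (r * x)|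
        ≤ (r * M + b) * Sr 0 (cf A B C) (r * x) := by
      refine (abs_sub _ _).trans ?_
      rw [abs_mul, abs_mul, abs_of_pos hr, abs_of_pos hb0, abs_of_pos h1]
      nlinarith [mul_le_mul_of_nonneg_left h2 hr.le]
    have h5 : (r * M + b) * Sr 0 (cf A B C) (r * x) ≤ (M + (r * M + b) * M) * exp (r * x) := by
      have := mul_le_mul_of_nonneg_left h3 (show 0 ≤ r * M + b by positivity)
      have : 0 ≤ M * exp (r * x) := by positivity
      nlinarith
    nlinarith [mul_le_mul_of_nonneg_left (h4.trans h5) hp.le]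

theorem integrableOn_of_exp_bound {f : ℝ → ℝ} {M ε s : ℝ}
    (hm : AEStronglyMeasurable f (volume.restrict (Ioi 0)))
    (hf : ∀ x, 0 < x → |f x| ≤ M * exp (-ε * x)) (hs : -ε < s) :
    IntegrableOn (fun x => exp (-(s * x)) * f x) (Ioi 0) := by
  refine ((integrableOn_exp_mul_Ioi (show -(s + ε) < 0 by linarith) 0).const_mul M).mono'
    (AEStronglyMeasurable.mul (by fun_prop) hm) ?_
  filter_upwards [ae_restrict_mem measurableSet_Ioi] with x hx
  rw [Real.norm_eq_abs, abs_mul, abs_of_pos (exp_pos _),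
    show -(s + ε) * x = -(s * x) + -ε * x by ring, exp_add]
  nlinarith [mul_le_mul_of_nonneg_left (hf x hx) (exp_pos (-(s * x))).le]

theorem Setup.key_all {P : Measure ℝ} {A B C r b s : ℝ} (h : Setup P A B C r b)
    (hg : Good (cf A B C)) (hs : r - b < s) :
    ∫ x, x * exp (-(s * x)) ∂P = Gt A B C r b s * lap P s := by
  obtain ⟨M, -, hM⟩ := good_kf h.hr h.hb hg
  obtain ⟨R, hR⟩ := cf_geo A B h.hC
  have hc := kf_continuous A B r b h.hC
  have h0 : ∀ x, 0 < x → 0 ≤ kf A B C r b x := fun x hx => (hM x hx.le).1.le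
  have hE : ExpInt (law (kf A B C r b)) (r - b) := by
    intro u hu
    rw [law_integrable hc.aemeasurable h0]
    exact integrableOn_of_exp_bound (M := M) (ε := b - r) hc.aestronglyMeasurable
      (fun x hx => by rw [abs_of_nonneg (h0 x hx)]; exact (hM x hx.le).2.1) (by linarith)
  have hG : ∀ u, Gt A B C r b u = lap (law (kf A B C r b)) u :=
    fun u => (law_integral hc.aemeasurable h0 _).symm
  have hA : AnalyticOnNhd ℝ (fun u => deriv (lap P) u + lap (law (kf A B C r b)) u * lap P u)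
      (Ioi (r - b)) := h.int.analytic.deriv.add (hE.analytic.mul h.int.analytic)
  have h1 : r ≤ r * R := le_mul_of_one_le_right h.hr.le hR.1
  have hb0 : 0 < b := h.hr.trans h.hb
  have h2 := hA.eqOn_zero_of_preconnected_of_eventuallyEq_zero isPreconnected_Ioi
    (z₀ := r * R) (show r - b < r * R by linarith) (by
      filter_upwards [lt_mem_nhds (show r * R - b < r * R by linarith)] with u hu
      rw [(h.int.hasDerivAt (by linarith)).deriv, h.key_large hR (by linarith), hG]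
      simp) hs
  simp only [Pi.zero_apply] at h2
  rw [(h.int.hasDerivAt hs).deriv, ← hG] at h2
  linarith

theorem Setup.log_deriv {P : Measure ℝ} {A B C r b s : ℝ} (h : Setup P A B C r b)
    (hg : Good (cf A B C)) (hs : r - b < s) :
    HasDerivAt (fun u => log (lap P u)) (-Gt A B C r b s) s := by
  have := h.prob
  have hp := h.int.pos hs
  refine ((h.int.hasDerivAt hs).log hp.ne').congr_deriv ?_
  rw [h.key_all hg hs]
  field_simp

theorem Setup.sd_of_kd {P : Measure ℝ} {A B C r b : ℝ} (h : Setup P A B C r b)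
    (hg : Good (cf A B C)) (hk : ∀ x, 0 < x → kd A B C r b x ≤ 0) : IsSD P := by
  have := h.prob
  intro c hc0 hc1
  obtain ⟨M, hM0, hM⟩ := good_kf h.hr h.hb hg
  have hb : r - b < 0 := by linarith [h.hb]
  have hc := kf_continuous A B r b h.hC
  have hd := kf_deriv A B r b h.hC
  have hci : 1 < c⁻¹ := (one_lt_inv₀ hc0).2 hc1
  set n : ℝ → ℝ := fun x => (kf A B C r b x - kf A B C r b (c⁻¹ * x)) / x with hn
  have hnm : Measurable n := by
    have := hc.measurable
    fun_prop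
  have hanti : AntitoneOn (kf A B C r b) (Ioi 0) :=
    antitoneOn_of_deriv_nonpos (convex_Ioi 0) hc.continuousOn
      (fun x _ => (hd x).differentiableAt.differentiableWithinAt) (fun x hx => by
        rw [(hd x).deriv]
        exact hk x (interior_subset hx))
  have hle : ∀ x, 0 < x → x ≤ c⁻¹ * x := fun x hx => le_mul_of_one_le_left hx.le hci.le
  have hn0 : ∀ x, 0 < x → 0 ≤ n x := fun x hx =>
    div_nonneg (sub_nonneg.2 (hanti hx (hx.trans_le (hle x hx)) (hle x hx))) hx.le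
  have hn1 : ∀ x, 0 < x → |n x| ≤ (c⁻¹ - 1) * M * exp (-(b - r) * x) := by
    intro x hx
    have h1 := norm_image_sub_le_of_norm_deriv_le_segment' (a := x) (b := c⁻¹ * x)
      (f := kf A B C r b) (C := M * exp (-(b - r) * x)) (fun y _ => (hd y).hasDerivWithinAt)
      (fun y hy => ((hM y (hx.le.trans hy.1)).2.2).trans (mul_le_mul_of_nonneg_left
        (exp_le_exp.2 (by nlinarith [hy.1])) hM0)) (c⁻¹ * x) ⟨hle x hx, le_rfl⟩
    simp only [hn]
    rw [abs_div, abs_of_pos hx, div_le_iff₀ hx, abs_sub_comm]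
    rw [Real.norm_eq_abs] at h1
    linarith
  have hE : ExpInt (law n) (r - b) := by
    intro u hu
    rw [law_integrable hnm.aemeasurable hn0]
    exact integrableOn_of_exp_bound hnm.aestronglyMeasurable hn1 (by linarith)
  have : IsFiniteMeasure (law n) := by
    constructor
    rw [← elap_zero, elap_eq (hE 0 hb)]
    exact ENNReal.ofReal_lt_top
  obtain ⟨Q, hQ, hQ'⟩ := exists_compound (law n) ((law_pos n).mono (fun x hx => hx.le))
  have hki : ∀ u, r - b < u → IntegrableOn (fun x => exp (-(u * x)) * kf A B C r b x) (Ioi 0) :=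
    fun u hu => integrableOn_of_exp_bound (M := M) (ε := b - r) hc.aestronglyMeasurable
      (fun x hx => by rw [abs_of_pos (hM x hx.le).1]; exact (hM x hx.le).2.1) (by linarith)
  have hN : ∀ u, 0 < u → ∫ x, x * exp (-(u * x)) ∂(law n)
      = Gt A B C r b u - c * Gt A B C r b (c * u) := by
    intro u hu
    have hcu : r - b < c * u := hb.trans (by positivity)
    have e : ∀ x, exp (-(c * u * (c⁻¹ * x))) = exp (-(u * x)) := by
      intro x
      congr 2
      field_simp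
    have i2 := (integrableOn_Ioi_comp_mul_left_iff
      (fun y => exp (-(c * u * y)) * kf A B C r b y) 0 (inv_pos.2 hc0)).2
      (by simpa using hki _ hcu)
    have e2 := integral_comp_mul_left_Ioi (fun y => exp (-(c * u * y)) * kf A B C r b y) 0
      (inv_pos.2 hc0)
    simp only [e, inv_inv, mul_zero, smul_eq_mul] at i2 e2
    rw [law_integral hnm.aemeasurable hn0, Gt, Gt, ← e2, ← integral_sub (hki u (hb.trans hu)) i2]
    refine setIntegral_congr_fun measurableSet_Ioi (fun x hx => ?_)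
    have hx' : x ≠ 0 := ne_of_gt hx
    simp only [hn]
    field_simp
  have hD : ∀ u, 0 ≤ u → HasDerivAt
      (fun u => log (lap P u) - log (lap P (c * u)) - lap (law n) u)
      (-Gt A B C r b u - -Gt A B C r b (c * u) * (c * 1) - -∫ x, x * exp (-(u * x)) ∂(law n)) u :=
    fun u hu => ((h.log_deriv hg (hb.trans_le hu)).sub
      ((h.log_deriv hg (hb.trans_le (by positivity))).comp u
        ((hasDerivAt_id u).const_mul c))).sub (hE.hasDerivAt (hb.trans_le hu))
  refine ⟨Q, hQ, elap_unique (h.pos.mono (fun x hx => hx.le)) (fun s hs => ?_)⟩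
  have h1 := eq_of_deriv_zero (F := fun u => log (lap P u) - log (lap P (c * u)) - lap (law n) u)
    hs (fun u hu => (hD u hu.1).continuousAt.continuousWithinAt) (fun u hu => by
      refine (hD u hu.le).congr_deriv ?_
      rw [hN u hu]
      ring)
  simp only [mul_zero, sub_self, zero_sub] at h1
  have hcs : r - b < c * s := hb.trans_le (by positivity)
  have p1 := h.int.pos (hb.trans_le hs)
  have p2 := h.int.pos hcs
  rw [elap_conv, elap_map, hQ' s hs, elap_eq (h.int s (hb.trans_le hs)), elap_eq (h.int _ hcs),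
    ← ENNReal.ofReal_mul p2.le]
  congr 1
  rw [← exp_log p1, ← exp_log p2, ← exp_add]
  congr 1
  linarith

theorem deriv_nonpos_of_left {φ : ℝ → ℝ} {d : ℝ} (h : HasDerivAt φ d 1) (h1 : φ 1 = 0)
    (h0 : ∀ c, 0 < c → c < 1 → 0 ≤ φ c) : d ≤ 0 := by
  refine le_of_tendsto (hasDerivAt_iff_tendsto_slope_left_right.1 h).1 ?_
  filter_upwards [Ioo_mem_nhdsLT (zero_lt_one' ℝ)] with c hc
  rw [slope_def_field, h1, sub_zero]
  exact div_nonpos_of_nonneg_of_nonpos (h0 c hc.1 hc.2) (by linarith [hc.2])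

theorem Setup.kd_of_sd {P : Measure ℝ} {A B C r b : ℝ} (h : Setup P A B C r b)
    (hg : Good (cf A B C)) (hS : IsSD P) {x0 : ℝ} (hx0 : 0 < x0) : kd A B C r b x0 ≤ 0 := by
  have := h.prob
  obtain ⟨M, hM0, hM⟩ := good_kf h.hr h.hb hg
  have hb : r - b < 0 := by linarith [h.hb]
  have hc := kf_continuous A B r b h.hC
  have hc' := kd_continuous A B r b h.hC
  have hd := kf_deriv A B r b h.hC
  have hP0 : ∀ᵐ x ∂P, 0 ≤ x := h.pos.mono (fun x hx => hx.le)
  have hki : ∀ u, 0 ≤ u → IntegrableOn (fun x => exp (-(u * x)) * kf A B C r b x) (Ioi 0) :=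
    fun u hu => integrableOn_of_exp_bound (M := M) (ε := b - r) hc.aestronglyMeasurable
      (fun x hx => by rw [abs_of_pos (hM x hx.le).1]; exact (hM x hx.le).2.1) (by linarith)
  have hdi : ∀ u, 0 ≤ u → IntegrableOn (fun x => exp (-(u * x)) * kd A B C r b x) (Ioi 0) :=
    fun u hu => integrableOn_of_exp_bound (M := M) (ε := b - r) hc'.aestronglyMeasurable
      (fun x hx => (hM x hx.le).2.2) (by linarith)
  have hdi0 : IntegrableOn (kd A B C r b) (Ioi 0) := by simpa using hdi 0 le_rfl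
  have hpos : ∀ c, 0 < c → c < 1 → ∀ p : Polynomial ℝ, (∀ y ∈ Icc (0 : ℝ) 1, 0 ≤ p.eval y) →
      0 ≤ ∑ n ∈ Finset.range (p.natDegree + 1), p.coeff n * (lap P n / lap P (c * n)) := by
    intro c hc0 hc1 p hp
    obtain ⟨Q, hQ, hPQ⟩ := hS c hc0 hc1
    have h1 : ∀ s, 0 ≤ s → elap P s = elap P (c * s) * elap Q s := by
      intro s _
      conv_lhs => rw [hPQ]
      rw [elap_conv, elap_map]
    have hcs : ∀ s, 0 ≤ s → r - b < c * s := fun s hs => hb.trans_le (by positivity)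
    have hQ0 : ∀ᵐ x ∂Q, 0 ≤ x := nonneg_of_elap ENNReal.one_ne_top (fun s hs => by
      have h2 := elap_anti hP0 (show c * s ≤ s by nlinarith)
      rw [h1 s hs] at h2
      have h3 : elap P (c * s) ≠ 0 := by
        rw [elap_eq (h.int _ (hcs s hs))]
        exact (ENNReal.ofReal_pos.2 (h.int.pos (hcs s hs))).ne'
      have h4 : elap P (c * s) ≠ ⊤ := by
        rw [elap_eq (h.int _ (hcs s hs))]
        exact ENNReal.ofReal_ne_top
      rw [← ENNReal.mul_le_mul_iff_right h3 h4, mul_one]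
      exact h2)
    have hQ1 : ∀ s, 0 ≤ s → lap P s / lap P (c * s) = lap Q s := by
      intro s hs
      have h2 := h1 s hs
      have p2 := h.int.pos (hcs s hs)
      have q0 : 0 ≤ lap Q s := integral_nonneg (fun _ => (exp_pos _).le)
      rw [elap_eq (h.int s (hb.trans_le hs)), elap_eq (h.int _ (hcs s hs)),
        elap_eq (integrable_exp_of_nonneg hQ0 hs), ← ENNReal.ofReal_mul p2.le,
        ENNReal.ofReal_eq_ofReal_iff (h.int.pos (hb.trans_le hs)).le (by positivity)] at h2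
      rw [h2]
      field_simp
    have e : ∀ (n : ℕ) (x : ℝ), exp (-x) ^ n = exp (-((n : ℝ) * x)) := by
      intro n x
      rw [← exp_nat_mul]
      ring_nf
    have h5 : 0 ≤ ∫ x, p.eval (exp (-x)) ∂Q := integral_nonneg_of_ae (by
      filter_upwards [hQ0] with x hx
      exact hp _ ⟨(exp_pos _).le, exp_le_one_iff.2 (by linarith)⟩)
    simp only [Polynomial.eval_eq_sum_range, e] at h5
    rw [integral_finsetSum _ (fun n _ =>
      (integrable_exp_of_nonneg hQ0 (Nat.cast_nonneg n)).const_mul _)] at h5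
    simp only [hQ1 _ (Nat.cast_nonneg _)]
    simpa only [integral_const_mul, lap] using h5
  have hibp : ∀ n : ℕ, ∫ x in Ioi 0, exp (-((n : ℝ) * x)) * kd A B C r b x
      = n * Gt A B C r b n - kf A B C r b 0 := by
    intro n
    have hn : (0 : ℝ) ≤ n := Nat.cast_nonneg n
    have t0 : Tendsto (fun x => exp (-((n : ℝ) * x)) * kf A B C r b x) atTop (𝓝 0) := by
      have t1 : Tendsto (fun x => M * exp (-(b - r) * x)) atTop (𝓝 (M * 0)) :=
        (tendsto_exp_atBot.comp (tendsto_id.const_mul_atTop_of_neg (by linarith))).const_mul M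
      rw [mul_zero] at t1
      refine squeeze_zero' ?_ ?_ t1
      · filter_upwards [eventually_ge_atTop 0] with x hx
        exact mul_nonneg (exp_pos _).le (hM x hx).1.le
      · filter_upwards [eventually_ge_atTop 0] with x hx
        refine le_trans (mul_le_of_le_one_left (hM x hx).1.le ?_) (hM x hx).2.1
        rw [exp_le_one_iff, neg_nonpos]
        positivity
    have h1 := integral_Ioi_of_hasDerivAt_of_tendsto' (a := 0)
      (f := fun x => exp (-((n : ℝ) * x)) * kf A B C r b x)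
      (f' := fun x => exp (-((n : ℝ) * x)) * kd A B C r b x
        - n * (exp (-((n : ℝ) * x)) * kf A B C r b x))
      (fun x _ => by
        refine (((hasDerivAt_id x).const_mul (n : ℝ)).neg.exp.mul (hd x)).congr_deriv ?_
        simp only [id, Pi.neg_apply]
        ring) ((hdi n hn).sub ((hki n hn).const_mul _)) t0
    rw [integral_sub (hdi n hn) ((hki n hn).const_mul _), integral_const_mul] at h1
    simp only [mul_zero, neg_zero, exp_zero, one_mul] at h1
    rw [Gt]
    linarith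
  have := pos_transfer (f := fun x => -kd A B C r b x) hc'.neg.continuousOn hdi0.neg
    (fun p hp hp1 => ?_) hx0
  · linarith
  have hs1 : ∑ n ∈ Finset.range (p.natDegree + 1), p.coeff n = 0 := by
    rw [Polynomial.eval_eq_sum_range] at hp1
    simpa using hp1
  have hD : HasDerivAt (fun c => ∑ n ∈ Finset.range (p.natDegree + 1),
      p.coeff n * (lap P n / lap P (c * n)))
      (∑ n ∈ Finset.range (p.natDegree + 1), p.coeff n * (n * Gt A B C r b n)) 1 := by
    refine HasDerivAt.fun_sum (fun n _ => HasDerivAt.const_mul _ ?_)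
    have hn : r - b < (n : ℝ) := hb.trans_le (Nat.cast_nonneg n)
    have p1 := h.int.pos hn
    have d1 : HasDerivAt (fun c : ℝ => lap P (c * n))
        ((-∫ x, x * exp (-((n : ℝ) * x)) ∂P) * (1 * n)) 1 := by
      have d0 := h.int.hasDerivAt hn
      rw [← one_mul (n : ℝ)] at d0
      simpa only [one_mul, Function.comp_def, id] using
        d0.comp (1 : ℝ) ((hasDerivAt_id (1 : ℝ)).mul_const (n : ℝ))
    refine ((hasDerivAt_const (1 : ℝ) (lap P n)).div d1 (by simpa using p1.ne')).congr_deriv ?_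
    rw [h.key_all hg hn]
    simp only [one_mul]
    field_simp
    ring
  have h6 := deriv_nonpos_of_left hD (by
    rw [← hs1]
    refine Finset.sum_congr rfl (fun n _ => ?_)
    have p1 := h.int.pos (hb.trans_le (Nat.cast_nonneg n))
    rw [one_mul, div_self p1.ne', mul_one]) (fun c h0 h1 => hpos c h0 h1 p hp)
  simp only [mul_neg]
  rw [integral_neg, poly_integral hdi0]
  simp only [hibp, mul_sub, Finset.sum_sub_distrib, ← Finset.sum_mul, hs1]
  linarith

theorem Setup.sd_iff {P : Measure ℝ} {A B C r b : ℝ} (h : Setup P A B C r b)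
    (hg : Good (cf A B C)) : IsSD P ↔ ∀ y, 0 < y →
      r * Sr 1 (fun k => cf A B C (k + 1)) y ≤ b * Sr 0 (cf A B C) y := by
  have hr := h.hr
  constructor
  · intro hS y hy
    have h1 := h.kd_of_sd hg hS (show 0 < y / r by positivity)
    rw [kd, mul_div_cancel₀ _ hr.ne'] at h1
    have h2 := nonpos_of_mul_nonpos_right h1 (exp_pos _)
    linarith
  · intro H
    refine h.sd_of_kd hg (fun x hx => ?_)
    exact mul_nonpos_of_nonneg_of_nonpos (exp_pos _).le (sub_nonpos.2 (H _ (by positivity)))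

end Pool.Agent.P.MP_ede858_pr
end

-- part Pool.Agent.P.MP_ede858_pr.Kap
section

set_option autoImplicit false

open Set Filter Topology MeasureTheory ProbabilityTheory Real

namespace Pool.Agent.P.MP_ede858_pr

/-! The threshold `kap`. -/

theorem lev_hasDerivAt (A B : ℝ) {C : ℝ} (hC : 0 < C) (x : ℝ) :
    HasDerivAt (lev A B C) (Sr 1 (fun k => cf A B C (k + 1)) x) x := by
  obtain ⟨R, hg⟩ := cf_geo A B hC
  exact hg.hasDerivAt0 x

theorem kap_isLUB {A B C : ℝ} (hC : 0 < C) (hg : Good (cf A B C)) :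
    IsLUB {y : ℝ | ∃ x : ℝ, 0 < x ∧ y = deriv (lev A B C) x / lev A B C x} (kap A B C) := by
  obtain ⟨M, hM⟩ := hg
  refine isLUB_csSup ⟨_, 1, one_pos, rfl⟩ ⟨M, ?_⟩
  rintro y ⟨x, hx, rfl⟩
  obtain ⟨h1, h2, -⟩ := hM x hx.le
  rw [(lev_hasDerivAt A B hC x).deriv, lev_eq, div_le_iff₀ h1]
  exact (le_abs_self _).trans h2

theorem kap_le_iff {A B C r b : ℝ} (hC : 0 < C) (hg : Good (cf A B C)) (hr : 0 < r) :
    kap A B C * r ≤ b ↔ ∀ y, 0 < y →
      r * Sr 1 (fun k => cf A B C (k + 1)) y ≤ b * Sr 0 (cf A B C) y := by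
  rw [← le_div_iff₀ hr, isLUB_le_iff (kap_isLUB hC hg)]
  obtain ⟨M, hM⟩ := hg
  constructor
  · intro h y hy
    have h1 := h ⟨y, hy, rfl⟩
    rw [(lev_hasDerivAt A B hC y).deriv, lev_eq, div_le_div_iff₀ (hM y hy.le).1 hr] at h1
    linarith
  · rintro h y ⟨x, hx, rfl⟩
    rw [(lev_hasDerivAt A B hC x).deriv, lev_eq, div_le_div_iff₀ (hM x hx.le).1 hr]
    linarith [h x hx]

theorem Setup.sd_iff_kap {P : Measure ℝ} {A B C r b : ℝ} (h : Setup P A B C r b)
    (hg : Good (cf A B C)) : IsSD P ↔ kap A B C * r ≤ b := by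
  rw [h.sd_iff hg, kap_le_iff h.hC hg h.hr]

theorem L0_tendsto {A B C : ℝ} (hA : 0 < A) (hB : 0 < B) (hC : 0 < C) (hs : 0 ≤ A + B - C) :
    Tendsto (fun u : ℝ => L0 A B C (u ^ 2)) (𝓝[<] 1) atTop := by
  have hp := hyp_pos hA hB hC
  have h1 : ∀ k : ℕ, hyp A B C 1 * (1 / ((k : ℝ) + 1)) ≤ hyp A B C (k + 1) := by
    intro k
    induction k with
    | zero => simp
    | succ k ih =>
      have hk : (0 : ℝ) ≤ k := Nat.cast_nonneg k
      have h2 := hyp_succ A B hC (k + 1)
      push_cast at h2 ⊢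
      rw [mul_one_div, div_le_iff₀ (by positivity)] at ih ⊢
      have h3 : 0 < C + (k + 1) := by positivity
      refine le_of_mul_le_mul_right ?_ h3
      have h4 : (k + 1) * (C + (k + 1)) ≤ (A + (k + 1)) * (B + (k + 1)) := by
        nlinarith [mul_pos hA hB, mul_nonneg hs (show (0 : ℝ) ≤ k + 1 by positivity)]
      have h5 := mul_le_mul_of_nonneg_left h4 (hp (k + 1)).le
      have h6 := mul_le_mul_of_nonneg_right ih h3.le
      nlinarith
  have h2 : Tendsto (fun N => ∑ k ∈ Finset.range N, hyp A B C (k + 1)) atTop atTop := by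
    refine tendsto_atTop_mono (fun N => Finset.sum_le_sum (fun k _ => h1 k)) ?_
    simp only [← Finset.mul_sum]
    exact tendsto_sum_range_one_div_nat_succ_atTop.const_mul_atTop (hp 1)
  rw [tendsto_atTop]
  intro T
  obtain ⟨N, hN⟩ := (h2.eventually_gt_atTop T).exists
  have h3 : Tendsto (fun u : ℝ => ∑ k ∈ Finset.range (N + 1), hyp A B C k * (u ^ 2) ^ k) (𝓝 1)
      (𝓝 (∑ k ∈ Finset.range (N + 1), hyp A B C k * ((1 : ℝ) ^ 2) ^ k)) :=
    Continuous.tendsto (by fun_prop) 1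
  have h4 : T < ∑ k ∈ Finset.range (N + 1), hyp A B C k * ((1 : ℝ) ^ 2) ^ k := by
    rw [Finset.sum_range_succ']
    simp only [one_pow, mul_one]
    linarith [hp 0]
  filter_upwards [nhdsWithin_le_nhds (h3.eventually (lt_mem_nhds h4)),
    Ioo_mem_nhdsLT (zero_lt_one' ℝ)] with u hu hu1
  refine hu.le.trans ?_
  exact (summable_hyp hA hB hC (sq_nonneg u) (pow_lt_one₀ hu1.1.le hu1.2 two_ne_zero)).sum_le_tsum
    _ (fun k _ => mul_nonneg (hp k).le (by positivity))

theorem L1_lower {A B C s : ℝ} (hA : 0 < A) (hB : 0 < B) (hC : 0 < C) (hs : s < A + B - C) :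
    ∃ C0, ∀ w, 0 ≤ w → w < 1 → 2 * s * L0 A B C w - C0 ≤ (1 - w) * L1 A B C w := by
  have hp := hyp_pos hA hB hC
  set v : ℕ → ℝ := fun k => 2 * (B + k) * hyp A B C k
    - prev 0 (fun j : ℕ => 2 * (B + j) * hyp A B C j) k - 2 * s * hyp A B C k with hv
  obtain ⟨N, hN⟩ : ∃ N : ℕ, ∀ k, N ≤ k → 0 ≤ v k := by
    obtain ⟨N, hN⟩ := exists_nat_ge ((C + s * A - A * B - A) / (A + B - C - s))
    refine ⟨N + 1, fun k hk => ?_⟩
    obtain ⟨j, rfl⟩ : ∃ j, k = j + 1 := ⟨k - 1, by omega⟩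
    have hj : (N : ℝ) ≤ j := by exact_mod_cast (by omega : N ≤ j)
    have hj0 : (0 : ℝ) ≤ j := Nat.cast_nonneg j
    have h1 := hyp_succ A B hC j
    have h2 : C + s * A - A * B - A ≤ j * (A + B - C - s) :=
      (div_le_iff₀ (by linarith)).1 (hN.trans hj)
    have h3 : 0 < A + j := by positivity
    refine le_of_mul_le_mul_right ?_ h3
    simp only [hv, prev_succ]
    push_cast
    have h4 := mul_nonneg (hp (j + 1)).le (sub_nonneg.2 h2)
    nlinarith
  refine ⟨∑ k ∈ Finset.range N, |v k|, fun w hw hw1 => ?_⟩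
  have s0 := (summable_hyp hA hB hC hw hw1).hasSum
  have s1 := (summable_hyp1 hA hB hC hw hw1).hasSum
  have s2 : HasSum (fun k => prev 0 (fun j : ℕ => 2 * (B + j) * hyp A B C j) k * w ^ k)
      (w * L1 A B C w) := by
    rw [← hasSum_nat_add_iff' 1]
    simp only [prev_succ, Finset.range_one, Finset.sum_singleton, prev_zero, zero_mul, sub_zero]
    exact (s1.mul_left w).congr_fun (fun k => by ring)
  have s3 : HasSum (fun k => v k * w ^ k)
      (L1 A B C w - w * L1 A B C w - 2 * s * L0 A B C w) :=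
    ((s1.sub s2).sub (s0.mul_left (2 * s))).congr_fun (fun k => by simp only [hv]; ring)
  have h5 := sum_le_hasSum (Finset.range N) (fun k hk =>
    mul_nonneg (hN k (by simpa using hk)) (pow_nonneg hw k)) s3
  have h6 : -∑ k ∈ Finset.range N, |v k| ≤ ∑ k ∈ Finset.range N, v k * w ^ k := by
    rw [← Finset.sum_neg_distrib]
    refine Finset.sum_le_sum (fun k _ => ?_)
    have h7 := neg_abs_le (v k * w ^ k)
    rw [abs_mul, abs_of_nonneg (pow_nonneg hw k)] at h7
    have h8 := mul_le_of_le_one_right (abs_nonneg (v k)) (pow_le_one₀ (n := k) hw hw1.le)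
    linarith
  linarith

theorem Setup.one_lt_kap {P : Measure ℝ} {A B C r b : ℝ} (h : Setup P A B C r b)
    (hg : Good (cf A B C)) {x0 : ℝ} (hx0 : 0 ≤ x0)
    (hdip : exp (-x0) * Sr 0 (cf A B C) x0 < A + B - C) : 1 < kap A B C := by
  have := h.prob
  by_contra hk
  have hle := (kap_le_iff (r := 1) (b := 1) h.hC hg one_pos).1 (by linarith [not_lt.1 hk])
  simp only [one_mul] at hle
  obtain ⟨R, hR⟩ := cf_geo A B h.hC
  obtain ⟨M', -, hM'⟩ := good_kf h.hr h.hb hg
  have hg' := hg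
  obtain ⟨M, hM⟩ := hg'
  have hr := h.hr
  set l := exp (-x0) * Sr 0 (cf A B C) x0 with hl
  have hl0 : 0 < l := mul_pos (exp_pos _) (hM x0 hx0).1
  have hM0 : 0 ≤ M := by
    have := (hM 0 le_rfl).1.trans_le (hM 0 le_rfl).2.2
    simpa using this.le
  have hd : ∀ y, HasDerivAt (fun y => exp (-y) * Sr 0 (cf A B C) y)
      (exp (-y) * (Sr 1 (fun k => cf A B C (k + 1)) y - Sr 0 (cf A B C) y)) y := fun y => by
    refine ((hasDerivAt_id y).neg.exp.mul (hR.hasDerivAt0 y)).congr_deriv ?_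
    simp only [id, Pi.neg_apply]
    ring
  have hanti : AntitoneOn (fun y => exp (-y) * Sr 0 (cf A B C) y) (Ici 0) :=
    antitoneOn_of_deriv_nonpos (convex_Ici 0)
      (fun y _ => (hd y).continuousAt.continuousWithinAt)
      (fun y _ => (hd y).differentiableAt.differentiableWithinAt) (fun y hy => by
        rw [interior_Ici] at hy
        rw [(hd y).deriv]
        exact mul_nonpos_of_nonneg_of_nonpos (exp_pos _).le (sub_nonpos.2 (hle y hy)))
  set D := M * exp (2 * x0) with hD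
  have hD0 : 0 ≤ D := by positivity
  have hb : ∀ y, 0 ≤ y → Sr 0 (cf A B C) y ≤ l * exp y + D * exp (-y) := by
    intro y hy
    rcases le_total x0 y with h1 | h1
    · have h2 : exp (-y) * Sr 0 (cf A B C) y ≤ l := hanti hx0 hy h1
      have h3 := mul_le_mul_of_nonneg_left h2 (exp_pos y).le
      rw [← mul_assoc, ← exp_add, add_neg_cancel, exp_zero, one_mul] at h3
      have : 0 ≤ D * exp (-y) := by positivity
      linarith
    · have h2 : M * exp y ≤ D * exp (-y) := by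
        rw [hD, mul_assoc, ← exp_add]
        exact mul_le_mul_of_nonneg_left (exp_le_exp.2 (by linarith)) hM0
      have : 0 ≤ l * exp y := by positivity
      linarith [(hM y hy).2.2]
  have hG : ∀ σ, r < σ → Gt A B C r b (σ - b) ≤ l / (σ - r) + D / (σ + r) := by
    intro σ hσ
    have n1 : -(σ - r) < 0 := by linarith
    have n2 : -(σ + r) < 0 := by linarith
    have i0 : IntegrableOn (fun x => exp (-((σ - b) * x)) * kf A B C r b x) (Ioi 0) :=
      integrableOn_of_exp_bound (M := M') (ε := b - r)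
        (kf_continuous A B r b h.hC).aestronglyMeasurable
        (fun x hx => by rw [abs_of_pos (hM' x hx.le).1]; exact (hM' x hx.le).2.1) (by linarith)
    have i1 := (integrableOn_exp_mul_Ioi n1 0).const_mul l
    have i2 := (integrableOn_exp_mul_Ioi n2 0).const_mul D
    have h1 : Gt A B C r b (σ - b)
        ≤ ∫ x in Ioi 0, (l * exp (-(σ - r) * x) + D * exp (-(σ + r) * x)) := by
      refine setIntegral_mono_on i0 (i1.add i2) measurableSet_Ioi (fun x hx => ?_)
      have hx' : 0 < x := hx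
      have h2 := mul_le_mul_of_nonneg_left (hb (r * x) (by positivity)) (exp_pos (-(σ * x))).le
      rw [kf, lev_eq, ← mul_assoc, ← exp_add, show -((σ - b) * x) + -(b * x) = -(σ * x) by ring,
        show -(σ - r) * x = -(σ * x) + r * x by ring,
        show -(σ + r) * x = -(σ * x) + -(r * x) by ring, exp_add, exp_add]
      linarith
    rw [integral_add i1 i2, integral_const_mul, integral_const_mul, integral_exp_mul_Ioi n1,
      integral_exp_mul_Ioi n2] at h1
    simp only [mul_zero, exp_zero, neg_div_neg_eq] at h1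
    simpa only [mul_one_div] using h1
  have hW : ∀ u, 0 < u → u < 1 → (1 - u ^ 2) * L1 A B C (u ^ 2)
      ≤ (l * (1 + u) + D * (1 - u)) * L0 A B C (u ^ 2) := by
    intro u hu hu1
    have hσ : r < r / u := (lt_div_iff₀ hu).2 (by nlinarith)
    have hs : r - b < r / u - b := by linarith
    have h1 := h.ser _ hs
    rw [h.key_all hg hs, sub_add_cancel, show r / (r / u) = u by field_simp] at h1
    have p1 := h.int.pos hs
    have h2 : r / u * Gt A B C r b (r / u - b) * L0 A B C (u ^ 2) = L1 A B C (u ^ 2) := by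
      apply mul_left_cancel₀ p1.ne'
      linear_combination h1
    have h3 := L0_pos h.hA h.hB h.hC (sq_nonneg u) (pow_lt_one₀ hu.le hu1 two_ne_zero)
    have h4 : 0 < 1 - u := by linarith
    have h5 : (1 - u ^ 2) * (r / u) * (l / (r / u - r) + D / (r / u + r))
        = l * (1 + u) + D * (1 - u) := by
      have e1 : r / u - r = r * (1 - u) / u := by field_simp
      have e2 : r / u + r = r * (1 + u) / u := by field_simp
      rw [e1, e2]
      field_simp
      ring
    have h6 : 0 ≤ (1 - u ^ 2) * (r / u) := mul_nonneg (by nlinarith) (by positivity)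
    have h7 := mul_le_mul_of_nonneg_right (mul_le_mul_of_nonneg_left (hG _ hσ) h6) h3.le
    rw [h5] at h7
    rw [← h2]
    linarith
  set s := (l + (A + B - C)) / 2 with hs
  have hls : l < s := by linarith
  obtain ⟨C0, hC0⟩ := L1_lower h.hA h.hB h.hC (show s < A + B - C by linarith)
  have t1 : Tendsto (fun u : ℝ => l * (1 + u) + D * (1 - u)) (𝓝 1) (𝓝 (l * (1 + 1) + D * (1 - 1))) :=
    Continuous.tendsto (by fun_prop) 1
  have t2 := (L0_tendsto h.hA h.hB h.hC (by linarith)).eventually_gt_atTop (C0 / (s - l))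
  have t3 : ∀ᶠ u in 𝓝[<] (1 : ℝ), l * (1 + u) + D * (1 - u) < l + s :=
    (t1.eventually (gt_mem_nhds (show l * (1 + 1) + D * (1 - 1) < l + s by linarith))).filter_mono
      nhdsWithin_le_nhds
  have t4 : ∀ᶠ u in 𝓝[<] (1 : ℝ), u ∈ Ioo (0 : ℝ) 1 := Ioo_mem_nhdsLT (zero_lt_one' ℝ)
  obtain ⟨u, ⟨h1, h2⟩, hu⟩ := ((t3.and t2).and t4).exists
  have hu1 : u ^ 2 < 1 := pow_lt_one₀ hu.1.le hu.2 two_ne_zero
  have h3 := L0_pos h.hA h.hB h.hC (sq_nonneg u) hu1
  have h4 := hW u hu.1 hu.2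
  have h5 := hC0 _ (sq_nonneg u) hu1
  have h6 := mul_le_mul_of_nonneg_right h1.le h3.le
  rw [div_lt_iff₀ (by linarith)] at h2
  nlinarith

theorem kap_le_one {A B C : ℝ} (hA : 0 < A) (hB : 0 < B) (hC : 0 < C) (hAC : A ≤ C)
    (hBC : B ≤ C) : kap A B C ≤ 1 := by
  obtain ⟨hg, h⟩ := good_of_le hA hB hC hAC hBC
  have := (kap_le_iff (r := 1) (b := 1) hC hg one_pos).2 (fun y hy => by
    simpa using h y hy.le)
  linarith

theorem good_phi {μ ν : ℝ} (hμ : -1 < μ) (hρ : 0 < μ + ν) :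
    Good (cf ((μ + ν + 1) / 2) ((μ + ν) / 2) (μ + 1)) := by
  rcases le_or_gt ν (μ + 1) with h | h
  · exact (good_of_le (by linarith) (by linarith) (by linarith) (by linarith) (by linarith)).1
  · exact (good_phi_big hμ hρ h).1

theorem good_xi {μ : ℝ} (hμ : -1 / 4 < μ) : Good (cf (μ + 1 / 2) (2 * μ + 1 / 2) (μ + 1)) := by
  rcases le_or_gt μ (1 / 2) with h | h
  · exact (good_of_le (by linarith) (by linarith) (by linarith) (by linarith) (by linarith)).1
  · exact (good_xi_big (by linarith)).1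

theorem one_lt_kap_phi {μ ν : ℝ} (hμ : -1 < μ) (hρ : 0 < μ + ν) :
    1 < kap ((μ + ν + 1) / 2) ((μ + ν) / 2) (μ + 1) ↔ μ + 1 < ν := by
  constructor
  · intro h
    by_contra h1
    have := kap_le_one (A := (μ + ν + 1) / 2) (B := (μ + ν) / 2) (C := μ + 1) (by linarith)
      (by linarith) (by linarith) (by linarith [not_lt.1 h1]) (by linarith [not_lt.1 h1])
    linarith
  · intro h
    obtain ⟨x, hx, hd⟩ := dip_phi hμ hρ h
    exact (setup_phi hμ hρ one_pos one_lt_two).one_lt_kap (good_phi hμ hρ) hx (by linarith)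

theorem kap_phi_two {μ : ℝ} (hμ : -1 < μ) :
    kap ((μ + (μ + 2) + 1) / 2) ((μ + (μ + 2)) / 2) (μ + 1)
      = (2 * μ + 3) / √((2 * μ + 3) ^ 2 - 1) := by
  have hC : 0 < μ + 1 := by linarith
  have hg := good_phi (ν := μ + 2) hμ (by linarith)
  obtain ⟨R, hR⟩ := cf_geo ((μ + (μ + 2) + 1) / 2) ((μ + (μ + 2)) / 2) hC
  set q := 2 * μ + 3 with hq
  have hq1 : 1 < q := by linarith
  have hc : (fun k => cf ((μ + (μ + 2) + 1) / 2) ((μ + (μ + 2)) / 2) (μ + 1) (k + 1))
      = fun _ => q := by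
    funext k
    rw [cf_succ _ _ hC, coeff_yy_succ, WW_succ _ _ hC]
    ring
  have h0 : ∀ x, lev ((μ + (μ + 2) + 1) / 2) ((μ + (μ + 2)) / 2) (μ + 1) x = q * cosh x - 1 := by
    intro x
    rw [lev_eq, hR.split0, hc, Sr_const, Sr_one_two, cf_zero _ _ hC]
    ring
  have h1 : ∀ x, deriv (lev ((μ + (μ + 2) + 1) / 2) ((μ + (μ + 2)) / 2) (μ + 1)) x
      = q * sinh x := by
    intro x
    rw [(lev_hasDerivAt _ _ hC x).deriv, hc, Sr_const, Sr_one_one]
  have hp : 0 < q ^ 2 - 1 := by nlinarith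
  set p := √(q ^ 2 - 1) with hp'
  have hp0 : 0 < p := Real.sqrt_pos.2 hp
  have hp2 : p ^ 2 = q ^ 2 - 1 := Real.sq_sqrt hp.le
  refine (kap_isLUB hC hg).unique (IsGreatest.isLUB ⟨⟨arsinh p, arsinh_pos_iff.2 hp0, ?_⟩, ?_⟩)
  · rw [h0, h1, sinh_arsinh, cosh_arsinh, hp2, show 1 + (q ^ 2 - 1) = q ^ 2 by ring,
      Real.sqrt_sq (by linarith), show q * q - 1 = p ^ 2 by rw [hp2]; ring]
    field_simp
  · rintro y ⟨x, hx, rfl⟩
    have c1 := one_le_cosh x
    have c2 := cosh_sq x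
    have h2 : 0 < q * cosh x - 1 := by nlinarith
    rw [h0, h1, div_le_div_iff₀ h2 hp0]
    have h3 : sinh x * p + 1 ≤ q * cosh x := by
      apply le_of_sq_le_sq _ (by linarith)
      rw [mul_pow q, c2]
      nlinarith [sq_nonneg (sinh x - p)]
    nlinarith

theorem kap_xi_le {μ : ℝ} (hμ : 1 / 4 < μ) :
    kap (μ + 1 / 2) (2 * μ + 1 / 2) (μ + 1) ≤ (4 * μ + 1) / (4 * μ - 1) := by
  obtain ⟨hg, h⟩ := good_xi_big hμ
  rw [le_div_iff₀ (by linarith)]
  exact (kap_le_iff (by linarith) hg (by linarith)).2 (fun y hy => h y hy.le)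

end Pool.Agent.P.MP_ede858_pr
end

-- part Pool.Agent.P.MP_ede858_pr.Xi
section

set_option autoImplicit false

open Set Filter Topology MeasureTheory Real

namespace Pool.Agent.P.MP_ede858_pr

/-! For the squared Bessel family the threshold exceeds one as soon as `μ > 1 / 2`. -/

theorem dip_xi_small {μ : ℝ} (h1 : 1 / 2 < μ) (h2 : μ ≤ 1) :
    ∃ x, 0 ≤ x ∧ exp (-x) * Sr 0 (cf (μ + 1 / 2) (2 * μ + 1 / 2) (μ + 1)) x < 2 * μ := by
  have hC : 0 < μ + 1 := by linarith
  obtain ⟨θ, hθ, hI, hW⟩ := frac_unit_meas (gg_zero (1 / 2 - μ) (1 / 2) (μ + 1))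
    (gg_le_one (by linarith) (by linarith) hC) (gg_nonneg (by linarith) (by linarith) hC)
    (WW_frac _ _ hC)
  have hI' : ∀ᵐ t ∂θ, t ∈ Icc (-1 : ℝ) 1 := hI.mono (fun t ht => ⟨by linarith [ht.1], ht.2⟩)
  have hm1 : ∫ t, t ∂θ = 1 / 2 / (μ + 1) := by
    have h3 := hW 1
    have g1 := gg_odd (1 / 2 - μ) (1 / 2) (μ + 1) 0
    simp only [Nat.cast_zero, add_zero, mul_zero, zero_add] at g1
    rw [(frac_low (WW_frac _ _ hC)).2.1, al, gg_zero, zero_add, g1] at h3
    simp only [pow_one] at h3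
    rw [← h3]
    ring
  have hp : 0 < (2 * μ - 1) * (1 / 2 / (μ + 1)) := mul_pos (by linarith) (by positivity)
  set p := (2 * μ - 1) * (1 / 2 / (μ + 1)) with hp'
  set x := 8 / p + 1 with hx
  have hx1 : 1 ≤ x := by have : 0 < 8 / p := by positivity
                         linarith
  have hx0 : 0 ≤ x := by linarith
  obtain ⟨-, -, e0, -⟩ := rep_formula (c := cf (μ + 1 / 2) (2 * μ + 1 / 2) (μ + 1)) (s := 2 * μ)
    (m := -1) (Ω := 2 * μ - 1) (ω := fun t => (2 * μ - 1) * t) le_rfl hI' (by fun_prop) (by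
      filter_upwards [hI'] with t ht
      rw [abs_mul, abs_of_pos (by linarith)]
      exact mul_le_of_le_one_right (by linarith) (abs_le.2 ht))
    (by rw [cf_zero _ _ hC]; ring) (fun k => by
      rw [cf_succ _ _ hC, show μ + 1 - (μ + 1 / 2) = 1 / 2 by ring,
        show μ + 1 - (2 * μ + 1 / 2) = 1 / 2 - μ by ring, yy_symm, coeff_yy_succ, hW]
      simp only [pow_succ', mul_assoc]
      rw [integral_const_mul]
      ring) x
  have it : Integrable (fun t : ℝ => t) θ := Integrable.of_bound (by fun_prop) 1 (by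
    filter_upwards [hI'] with t ht
    exact abs_le.2 ht)
  have i2 := (Sr_integral θ (fun k t => t ^ (k + 1)) (fun k => by fun_prop)
    ((ae_geo le_rfl hI').mono (fun t ht => ht.succ)) 2 x).1
  simp only [pow_succ', Sr_mul] at i2
  have b := integral_mono_ae (it.mul_const (x ^ 2 / 2)) i2
    (hI.mono (fun t ht => (ker_two ht.2 hx0).2.2.1))
  rw [integral_mul_const, hm1] at b
  simp only [mul_assoc] at e0
  rw [integral_const_mul] at e0
  have b2 := mul_le_mul_of_nonneg_left b (show 0 ≤ 2 * μ - 1 by linarith)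
  rw [← mul_assoc, ← hp'] at b2
  have b3 : 4 ≤ p * (x ^ 2 / 2) := by
    have e : p * x = 8 + p := by rw [hx]; field_simp
    nlinarith
  refine ⟨x, hx0, ?_⟩
  have e1 : exp (-x) * exp x = 1 := by rw [← exp_add]; simp
  have e2 : exp (-x) ≤ 1 := exp_le_one_iff.2 (by linarith)
  have e3 := exp_pos (-x)
  rw [e0, cosh_eq]
  have b4 : 2 * μ * exp (-x) + 1 - (2 * μ - 1) * ∫ t, t * Sr 2 (fun k => t ^ k) x ∂θ < 0 := by
    nlinarith
  have b5 := mul_neg_of_pos_of_neg e3 b4
  nlinarith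

theorem yy_conv (a b c : ℝ) (k : ℕ) :
    ∑ i ∈ Finset.range (k + 1), hyp a b c i * PowerSeries.coeff (k - i) (yy a b c)
      = k * hyp a b c k := by
  have h : FF a b c * yy a b c = th (FF a b c) := by
    rw [yy]
    linear_combination th (FF a b c) * FF_mul_inv a b c
  have h2 := congrArg (PowerSeries.coeff k) h
  rw [PowerSeries.coeff_mul, coeff_th, Finset.Nat.sum_antidiagonal_eq_sum_range_succ
    (fun i j => PowerSeries.coeff i (FF a b c) * PowerSeries.coeff j (yy a b c))] at h2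
  simpa only [coeff_FF] using h2

theorem hyp_succ' (a b : ℝ) {c : ℝ} (hc : 0 < c) (k : ℕ) :
    hyp a b c (k + 1) = hyp a b c k * ((a + k) * (b + k)) / ((c + k) * (k + 1)) := by
  rw [eq_div_iff (by positivity)]
  exact hyp_succ a b hc k

theorem dip_xi_mid {μ : ℝ} (h1 : 1 ≤ μ) (h2 : μ ≤ 22) :
    exp (-4) * Sr 0 (cf (μ + 1 / 2) (2 * μ + 1 / 2) (μ + 1)) 4 < 2 * μ := by
  have hC : 0 < μ + 1 := by linarith
  have p2 : 0 < μ + 2 := by linarith
  have p3 : 0 < μ + 3 := by linarith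
  have p4 : 0 < μ + 4 := by linarith
  have p5 : 0 < μ + 5 := by linarith
  set y : ℕ → ℝ := fun k => PowerSeries.coeff k (yy (1 / 2) (1 / 2 - μ) (μ + 1)) with hy
  set f := hyp (1 / 2) (1 / 2 - μ) (μ + 1) with hf
  have f0 : f 0 = 1 := hyp_zero _ _ _
  have f1 : f 1 = (1 - 2 * μ) / (4 * (μ + 1)) := by
    have := hyp_succ' (1 / 2) (1 / 2 - μ) hC 0
    rw [← hf, f0] at this
    rw [this]
    push_cast
    field_simp
    ring
  have f2 : f 2 = 3 * (1 - 2 * μ) * (3 - 2 * μ) / (32 * (μ + 1) * (μ + 2)) := by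
    have := hyp_succ' (1 / 2) (1 / 2 - μ) hC 1
    rw [← hf, f1] at this
    rw [this, show μ + 1 + ((1 : ℕ) : ℝ) = μ + 2 by push_cast; ring]
    push_cast
    field_simp
    ring
  have f3 : f 3 = 5 * (1 - 2 * μ) * (3 - 2 * μ) * (5 - 2 * μ)
      / (128 * (μ + 1) * (μ + 2) * (μ + 3)) := by
    have := hyp_succ' (1 / 2) (1 / 2 - μ) hC 2
    rw [← hf, f2] at this
    rw [this, show μ + 1 + ((2 : ℕ) : ℝ) = μ + 3 by push_cast; ring]
    push_cast
    field_simp
    ring
  have f4 : f 4 = 35 * (1 - 2 * μ) * (3 - 2 * μ) * (5 - 2 * μ) * (7 - 2 * μ)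
      / (2048 * (μ + 1) * (μ + 2) * (μ + 3) * (μ + 4)) := by
    have := hyp_succ' (1 / 2) (1 / 2 - μ) hC 3
    rw [← hf, f3] at this
    rw [this, show μ + 1 + ((3 : ℕ) : ℝ) = μ + 4 by push_cast; ring]
    push_cast
    field_simp
    ring
  have f5 : f 5 = 63 * (1 - 2 * μ) * (3 - 2 * μ) * (5 - 2 * μ) * (7 - 2 * μ) * (9 - 2 * μ)
      / (8192 * (μ + 1) * (μ + 2) * (μ + 3) * (μ + 4) * (μ + 5)) := by
    have := hyp_succ' (1 / 2) (1 / 2 - μ) hC 4
    rw [← hf, f4] at this
    rw [this, show μ + 1 + ((4 : ℕ) : ℝ) = μ + 5 by push_cast; ring]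
    push_cast
    field_simp
    ring
  have y0 : y 0 = 0 := coeff_yy_zero _ _ _
  have cv : ∀ k, ∑ i ∈ Finset.range (k + 1), f i * y (k - i) = k * f k :=
    yy_conv (1 / 2) (1 / 2 - μ) (μ + 1)
  have c1 := cv 1
  have c2 := cv 2
  have c3 := cv 3
  have c4 := cv 4
  have c5 := cv 5
  simp only [Finset.sum_range_succ, Finset.range_zero, Finset.sum_empty, zero_add, Nat.reduceSub,
    Nat.sub_zero, f0, y0, one_mul, mul_zero, add_zero, Nat.cast_ofNat, Nat.cast_one]
    at c1 c2 c3 c4 c5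
  have y1 : y 1 = (1 / 2 - μ) / (2 * (μ + 1)) := by
    rw [c1, f1]
    field_simp
    ring
  have y2 : y 2 = (7 / 8 - μ - 2 * μ ^ 2 + μ ^ 3) / (2 * (μ + 1) ^ 2 * (μ + 2)) := by
    rw [show y 2 = 2 * f 2 - f 1 * y 1 by linarith, f1, f2, y1]
    field_simp
    ring
  have y3 : y 3 = (39 / 16 - 1 / 2 * μ - 37 / 4 * μ ^ 2 - 3 / 2 * μ ^ 3 + 11 / 2 * μ ^ 4 - μ ^ 5)
      / (2 * (μ + 1) ^ 3 * (μ + 2) * (μ + 3)) := by
    rw [show y 3 = 3 * f 3 - f 1 * y 2 - f 2 * y 1 by linarith, f1, f2, f3, y1, y2]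
    field_simp
    ring
  have y4 : y 4 = (2373 / 128 + 2987 / 128 * μ - 147 / 2 * μ ^ 2 - 241 / 2 * μ ^ 3
      + 35 / 2 * μ ^ 4 + 143 / 2 * μ ^ 5 - 2 * μ ^ 6 - 9 * μ ^ 7 + μ ^ 8)
      / (2 * (μ + 1) ^ 4 * (μ + 2) ^ 2 * (μ + 3) * (μ + 4)) := by
    rw [show y 4 = 4 * f 4 - f 1 * y 3 - f 2 * y 2 - f 3 * y 1 by linarith, f1, f2, f3, f4, y1,
      y2, y3]
    field_simp
    ring
  have y5 : y 5 = (22845 / 256 + 51049 / 256 * μ - 17313 / 64 * μ ^ 2 - 62037 / 64 * μ ^ 3
      - 6107 / 16 * μ ^ 4 + 10233 / 16 * μ ^ 5 + 1323 / 4 * μ ^ 6 - 679 / 4 * μ ^ 7 - 39 * μ ^ 8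
      + 33 / 2 * μ ^ 9 - μ ^ 10)
      / (2 * (μ + 1) ^ 5 * (μ + 2) ^ 2 * (μ + 3) * (μ + 4) * (μ + 5)) := by
    rw [show y 5 = 5 * f 5 - f 1 * y 4 - f 2 * y 3 - f 3 * y 2 - f 4 * y 1 by linarith, f1, f2,
      f3, f4, f5, y1, y2, y3, y4]
    field_simp
    ring
  have hc : ∀ k, cf (μ + 1 / 2) (2 * μ + 1 / 2) (μ + 1) (k + 1) = 4 * μ + 2 * y (k + 1) := by
    intro k
    rw [cf_succ _ _ hC, show μ + 1 - (μ + 1 / 2) = 1 / 2 by ring,
      show μ + 1 - (2 * μ + 1 / 2) = 1 / 2 - μ by ring]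
    ring
  obtain ⟨R, hg⟩ := cf_geo (μ + 1 / 2) (2 * μ + 1 / 2) hC
  have hb := xi_bounds (show -1 / 4 < μ by linarith)
  have s1 := sum_le_hasSum (Finset.range 6) (fun k _ => by
    rw [← sub_div, ← sub_mul]
    exact div_nonneg (mul_nonneg (sub_nonneg.2 (hb k).2) (by positivity)) (by positivity))
    (((geo_const (4 * μ + 1)).hasSum 0 4).sub (hg.hasSum 0 4))
  rw [Sr_const, Sr_one_zero] at s1
  simp only [Finset.sum_range_succ, Finset.range_zero, Finset.sum_empty, zero_add,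
    cf_zero _ _ hC, hc 0, hc 1, hc 2, hc 3, hc 4] at s1
  norm_num [Nat.factorial] at s1
  have x1 : exp 4 < 54.5982 := by
    rw [show (4 : ℝ) = ((4 : ℕ) : ℝ) * 1 by norm_num, exp_nat_mul]
    exact (pow_lt_pow_left₀ exp_one_lt_d9 (exp_pos _).le (by norm_num)).trans (by norm_num)
  have x2 : 54.598 < exp 4 := by
    rw [show (4 : ℝ) = ((4 : ℕ) : ℝ) * 1 by norm_num, exp_nat_mul]
    exact lt_trans (by norm_num) (pow_lt_pow_left₀ exp_one_gt_d9 (by norm_num) (by norm_num))
  have x3 : exp (-4) * exp 4 = 1 := by rw [← exp_add]; simp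
  have x4 := exp_pos (-4)
  have x5 : exp (-4) < 0.018316 := by nlinarith
  have key : 2 * μ * 0.018316 + 27.3083 < 8 * (1 - 2 * y 1) + 32 / 3 * (1 - 2 * y 2)
      + 256 / 45 * (1 - 2 * y 3) + 512 / 315 * (1 - 2 * y 4) + 4096 / 14175 * (1 - 2 * y 5) := by
    rw [← sub_pos, y1, y2, y3, y4, y5]
    obtain ⟨v, rfl⟩ : ∃ v, μ = v + 1 := ⟨μ - 1, by ring⟩
    have v0 : 0 ≤ v := by linarith
    have v1 : 0 ≤ 21 - v := by linarith
    have q : 0 ≤ (111050141089 / 28350000 : ℝ) + (14098743511 / 47250000 : ℝ) * v + (965588681 / 141750000 : ℝ) * v ^ 2 - (74394277 / 141750000 : ℝ) * v ^ 3 - (4579 / 125000 : ℝ) * v ^ 4 := by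
      nlinarith [mul_nonneg v0 v1, mul_nonneg (pow_nonneg v0 2) v1, mul_nonneg (pow_nonneg v0 3) v1]
    have q2 : 0 < ((5049594224 / 65625 : ℝ)
        + (131727075524 / 328125 : ℝ) * v
        + (29770980584 / 39375 : ℝ) * v ^ 2
        + (6461517672611 / 8859375 : ℝ) * v ^ 3
        + (3615031177832 / 8859375 : ℝ) * v ^ 4
        + (1645829292503 / 11812500 : ℝ) * v ^ 5
        + (524670690739 / 17718750 : ℝ) * v ^ 6 + v ^ 7 * ((111050141089 / 28350000 : ℝ) + (14098743511 / 47250000 : ℝ) * v + (965588681 / 141750000 : ℝ) * v ^ 2 - (74394277 / 141750000 : ℝ) * v ^ 3 - (4579 / 125000 : ℝ) * v ^ 4))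
        / ((v + 1 + 1) ^ 5 * (v + 1 + 2) ^ 2 * (v + 1 + 3) * (v + 1 + 4) * (v + 1 + 5)) := by
      positivity
    refine q2.trans_eq ?_
    field_simp
    ring
  have b4 : 2 * μ * exp (-4) + cosh 4 - (8 * (1 - 2 * y 1) + 32 / 3 * (1 - 2 * y 2)
      + 256 / 45 * (1 - 2 * y 3) + 512 / 315 * (1 - 2 * y 4) + 4096 / 14175 * (1 - 2 * y 5))
      < 0 := by
    rw [cosh_eq]
    nlinarith
  have b5 := mul_neg_of_pos_of_neg x4 b4
  have b6 := mul_le_mul_of_nonneg_left s1 x4.le
  have b7 : exp (-4) * (4 * μ * cosh 4) = 2 * μ + 2 * μ * exp (-4) * exp (-4) := by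
    rw [cosh_eq]
    linear_combination 2 * μ * x3
  nlinarith

end Pool.Agent.P.MP_ede858_pr
end

-- part Pool.Agent.P.MP_ede858_pr.Xi2
section

set_option autoImplicit false

open Set Filter Topology MeasureTheory Real

namespace Pool.Agent.P.MP_ede858_pr

/-! The squared Bessel family for large `μ`. -/

theorem jv_mono {d e d' e' : ℕ → ℝ} (hd0 : ∀ k, 0 ≤ d k) (he0 : ∀ k, 0 ≤ e k)
    (hd : ∀ k, d k ≤ d' k) (he : ∀ k, e k ≤ e' k) (n : ℕ) : ∀ k,
    0 ≤ jv d e (Polynomial.X ^ n) k ∧ jv d e (Polynomial.X ^ n) k ≤ jv d' e' (Polynomial.X ^ n) k := by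
  induction n with
  | zero =>
    intro k
    rw [pow_zero, jv_one, jv_one]
    refine ⟨?_, le_rfl⟩
    unfold e0
    split_ifs <;> simp
  | succ n ih =>
    intro k
    rw [pow_succ', jv_X_mul, jv_X_mul, jac_apply, jac_apply]
    have h0 : 0 ≤ prev 0 (jv d e (Polynomial.X ^ n)) k ∧ prev 0 (jv d e (Polynomial.X ^ n)) k
        ≤ prev 0 (jv d' e' (Polynomial.X ^ n)) k := by
      cases k with
      | zero => simp
      | succ k => simpa using ih k
    have h1 := mul_le_mul (hd k) (ih k).2 (ih k).1 ((hd0 k).trans (hd k))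
    have h2 := mul_le_mul (he k) (ih (k + 1)).2 (ih (k + 1)).1 ((he0 k).trans (he k))
    have h3 := mul_nonneg (hd0 k) (ih k).1
    have h4 := mul_nonneg (he0 k) (ih (k + 1)).1
    constructor <;> linarith [h0.1, h0.2]

theorem al_gq {μ : ℝ} (hμ : 0 ≤ μ) (n : ℕ) :
    0 ≤ al (gq μ) n ∧ al (gq μ) n ≤ (2 * n + 3) * (1 / (4 * (μ + 1))) := by
  have hn : (0 : ℝ) ≤ n := Nat.cast_nonneg n
  have h0 : 0 ≤ gq μ n ∧ gq μ n ≤ 1 := by
    unfold gq
    split_ifs with h
    · exact ⟨le_rfl, zero_le_one⟩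
    · have : (1 : ℝ) ≤ n := by exact_mod_cast Nat.one_le_iff_ne_zero.2 h
      exact ⟨by positivity, (div_le_one (by positivity)).2 (by linarith)⟩
  have h1 : 0 ≤ gq μ (n + 1) ∧ gq μ (n + 1) ≤ (2 * n + 3) * (1 / (4 * (μ + 1))) := by
    simp only [gq, Nat.succ_ne_zero, if_false]
    push_cast
    refine ⟨by positivity, ?_⟩
    rw [mul_one_div, show 2 * ((n : ℝ) + 1) + 1 = 2 * n + 3 by ring]
    exact div_le_div_of_nonneg_left (by positivity) (by positivity) (by linarith)
  unfold al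
  exact ⟨mul_nonneg (by linarith [h0.2]) h1.1,
    (mul_le_of_le_one_left h1.1 (by linarith [h0.1])).trans h1.2⟩

theorem six_bound {μ : ℝ} (hμ : 0 ≤ μ) :
    jv (cd (prev 0 (gq μ))) (ce (prev 0 (gq μ))) (Polynomial.X ^ 6) 0 ≤ 599 / (μ + 1) ^ 6 := by
  set l := 1 / (4 * (μ + 1)) with hl
  have hl0 : 0 < l := by positivity
  have a := al_gq hμ
  have g0 : gq μ 0 = 0 := by simp [gq]
  have b0 : ∀ k, 0 ≤ al (prev 0 (gq μ)) k := by
    intro k
    cases k with
    | zero => rw [al_prev_zero g0]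
    | succ k => rw [al_prev_succ]; exact (a k).1
  have h := (jv_mono (d := cd (prev 0 (gq μ))) (e := ce (prev 0 (gq μ)))
    (d' := fun k => (prev 0 (fun j : ℕ => 4 * (j : ℝ) + 5) k + (4 * k + 3)) * l)
    (e' := fun k => (4 * k + 3) * l * ((4 * k + 5) * l))
    (fun k => add_nonneg (b0 _) (b0 _)) (fun k => mul_nonneg (b0 _) (b0 _)) (fun k => by
      have h1 := (a (2 * k)).2
      rw [cd, al_prev_succ, add_mul]
      push_cast at h1
      refine add_le_add ?_ (by linarith)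
      cases k with
      | zero => rw [Nat.mul_zero, al_prev_zero g0]; simp
      | succ k =>
        have h2 := (a (2 * k + 1)).2
        rw [show 2 * (k + 1) = 2 * k + 1 + 1 by ring, al_prev_succ, prev_succ]
        push_cast at h2
        linarith) (fun k => by
      have h1 := (a (2 * k)).2
      have h2 := (a (2 * k + 1)).2
      push_cast at h1 h2
      rw [ce, al_prev_succ, al_prev_succ]
      exact mul_le_mul (by linarith) (by linarith) (a _).1 (by positivity)) 6 0).2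
  refine h.trans ?_
  have e : jv (fun k => (prev 0 (fun j : ℕ => 4 * (j : ℝ) + 5) k + (4 * k + 3)) * l)
      (fun k => (4 * k + 3) * l * ((4 * k + 5) * l)) (Polynomial.X ^ 6) 0 = 2450304 * l ^ 6 := by
    simp only [pow_succ' Polynomial.X, jv_X_mul, pow_zero, jv_one, jac_apply, prev_zero, prev_succ,
      e0, Nat.succ_ne_zero, if_true, if_false]
    push_cast
    ring
  rw [e, hl, div_pow, mul_pow, one_pow, mul_one_div, div_le_div_iff₀ (by positivity)
    (by positivity)]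
  have : 0 < (μ + 1) ^ 6 := by positivity
  nlinarith

theorem Sr_tau {t : ℝ} (ht : t ∈ Icc (0 : ℝ) 1) (x : ℝ) :
    Sr 0 (fun k => (tau k).eval t) x = cosh (x * √t) * cos (x * √(1 - t)) := by
  have c0 := Real.sqrt_nonneg t
  have c1 : √t ≤ 1 := Real.sqrt_le_one.2 ht.2
  set φ := arccos √t with hφ
  have hc : cos φ = √t := cos_arccos (by linarith) c1
  have hs : sin φ = √(1 - t) := by rw [hφ, sin_arccos, Real.sq_sqrt ht.1]
  have ht2 : 2 * t - 1 = cos (2 * φ) := by rw [cos_two_mul, hc, Real.sq_sqrt ht.1]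
  have h1 : ∀ k : ℕ, (tau k).eval t = cos (((2 * k : ℕ) : ℝ) * φ) := by
    intro k
    unfold tau
    rw [Polynomial.eval_comp]
    simp only [Polynomial.eval_sub, Polynomial.eval_mul, Polynomial.eval_ofNat, Polynomial.eval_X,
      Polynomial.eval_one]
    rw [ht2, Polynomial.Chebyshev.T_real_cos]
    congr 1
    push_cast
    ring
  have h2 := Complex.hasSum_re (Complex.hasSum_cosh (x * Complex.exp (φ * Complex.I)))
  have h3 : (Complex.cosh (x * Complex.exp (φ * Complex.I))).re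
      = cosh (x * √t) * cos (x * √(1 - t)) := by
    rw [← hc, ← hs, Complex.exp_mul_I, mul_add, ← mul_assoc, Complex.cosh_add,
      Complex.cosh_mul_I, Complex.sinh_mul_I, ← Complex.ofReal_cos, ← Complex.ofReal_sin,
      ← Complex.ofReal_mul, ← Complex.ofReal_mul, ← Complex.ofReal_cosh, ← Complex.ofReal_sinh,
      ← Complex.ofReal_cos, ← Complex.ofReal_sin]
    simp only [Complex.add_re, Complex.mul_re, Complex.ofReal_re, Complex.ofReal_im,
      Complex.mul_im, Complex.I_re, Complex.I_im, mul_zero, zero_mul, sub_zero, add_zero, mul_one]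
  rw [← h3, ← h2.tsum_eq]
  refine tsum_congr (fun k => ?_)
  beta_reduce
  rw [h1, add_zero, mul_pow, ← Complex.exp_nat_mul, ← mul_assoc, ← Complex.ofReal_natCast,
    ← Complex.ofReal_mul, ← Complex.ofReal_pow, ← Complex.ofReal_natCast, Complex.div_ofReal_re,
    Complex.re_ofReal_mul, Complex.exp_ofReal_mul_I_re, mul_comm]

theorem dip_of_majorant {μ x β : ℝ} (hμ : 0 ≤ μ) (hβ : 0 ≤ β)
    (h : ∀ t ∈ Icc (0 : ℝ) 1, cosh (x * √t) * cos (x * √(1 - t)) ≤ -(1 / 2) + β * t ^ 6)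
    (h2 : β * (599 / (μ + 1) ^ 6) + 2 * μ * exp (-x) < 1 / 2) :
    exp (-x) * Sr 0 (cf (μ + 1 / 2) (2 * μ + 1 / 2) (μ + 1)) x < 2 * μ := by
  obtain ⟨θ, hθ, hI, h6, hc⟩ := xi_rep (show -1 / 4 < μ by linarith)
  have hg : ∀ᵐ t ∂θ, Geo (fun k => (tau k).eval t) 1 1 :=
    hI.mono (fun t ht => ⟨le_rfl, fun k => by simpa using abs_tau_le k ht⟩)
  obtain ⟨i0, e0⟩ := Sr_integral θ (fun k t => (tau k).eval t) (fun k => by fun_prop) hg 0 x
  have i6 : Integrable (fun t : ℝ => t ^ 6) θ := Integrable.of_bound (by fun_prop) 1 (by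
    filter_upwards [hI] with t ht
    rw [Real.norm_of_nonneg (pow_nonneg ht.1 6)]
    exact pow_le_one₀ ht.1 ht.2)
  have b := integral_mono_ae i0 ((integrable_const (-(1 / 2) : ℝ)).add (i6.const_mul β)) (by
    filter_upwards [hI] with t ht
    rw [Sr_tau ht]
    exact h t ht)
  simp only [Pi.add_apply] at b
  rw [integral_add (integrable_const _) (i6.const_mul β), integral_const_mul, h6] at b
  simp only [integral_const, probReal_univ, smul_eq_mul, one_mul] at b
  have b2 := mul_le_mul_of_nonneg_left (six_bound hμ) hβ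
  rw [funext hc, Sr_add (geo_const _) (geo_integral θ _ hg), Sr_const, Sr_one_zero, e0, cosh_eq]
  have e1 : exp (-x) * exp x = 1 := by rw [← exp_add]; simp
  have b4 : 2 * μ * exp (-x) + ∫ t, Sr 0 (fun k => (tau k).eval t) x ∂θ < 0 := by linarith
  have b5 := mul_neg_of_pos_of_neg (exp_pos (-x)) b4
  linear_combination b5 + 2 * μ * e1

theorem phase (n : ℕ) {t : ℝ} (ht : t ∈ Icc (0 : ℝ) 1) {x : ℝ} (hx : x = (2 * n + 1) * π + 1) :
    (x * (1 - √(1 - t)) ≤ 2 → cosh (x * √t) * cos (x * √(1 - t)) ≤ -(1 / 2)) ∧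
    (x * (1 - √(1 - t)) ≤ 1 + π / 2 → cosh (x * √t) * cos (x * √(1 - t)) ≤ 0) := by
  have hx0 : 0 ≤ x := by rw [hx]; positivity
  have s1 : √(1 - t) ≤ 1 := Real.sqrt_le_one.2 (by linarith [ht.1])
  have u1 : 0 ≤ x * (1 - √(1 - t)) := mul_nonneg hx0 (by linarith)
  have e : cos (x * √(1 - t)) = -cos (1 - x * (1 - √(1 - t))) := by
    rw [show x * √(1 - t) = 1 - x * (1 - √(1 - t)) + π + n * (2 * π) by linear_combination hx,
      cos_add_nat_mul_two_pi, cos_add_pi]
  have c1 := one_le_cosh (x * √t)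
  rw [e]
  set u := 1 - x * (1 - √(1 - t)) with hu
  constructor
  · intro h
    have h1 := one_sub_sq_div_two_le_cos (x := u)
    have h2 : u ^ 2 ≤ 1 := by
      rw [sq_le_one_iff_abs_le_one, abs_le]
      constructor <;> linarith
    nlinarith
  · intro h
    have h1 : 0 ≤ cos u := cos_nonneg_of_mem_Icc ⟨by linarith, by linarith [pi_gt_three]⟩
    nlinarith

theorem one_sub_sqrt_le {t : ℝ} (ht : t ∈ Icc (0 : ℝ) 1) : 1 - √(1 - t) ≤ t := by
  have : 1 - t ≤ √(1 - t) := Real.le_sqrt_of_sq_le (by nlinarith [ht.1, ht.2])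
  linarith

theorem dip_xi_second {μ : ℝ} (h1 : 22 ≤ μ) (h2 : μ ≤ 2000) :
    exp (-(3 * π + 1)) * Sr 0 (cf (μ + 1 / 2) (2 * μ + 1 / 2) (μ + 1)) (3 * π + 1) < 2 * μ := by
  have p1 := pi_gt_d4
  have p2 := pi_lt_d4
  set x := 3 * π + 1 with hx
  have x1 : 10.4245 < x := by linarith
  have x2 : x < 10.4248 := by linarith
  refine dip_of_majorant (β := 74000) (by linarith) (by norm_num) (fun t ht => ?_) ?_
  · obtain ⟨a1, a2⟩ := phase 1 ht (x := x) (by rw [hx]; norm_num)
    have t6 : 0 ≤ t ^ 6 := pow_nonneg ht.1 6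
    by_cases b1 : x * (1 - √(1 - t)) ≤ 2
    · linarith [a1 b1]
    have s0 := Real.sqrt_nonneg (1 - t)
    have s1 : √(1 - t) ≤ 1 := Real.sqrt_le_one.2 (by linarith [ht.1])
    by_cases b2 : x * (1 - √(1 - t)) ≤ 1 + π / 2
    · have t1 : 0.19 ≤ t := by nlinarith [one_sub_sqrt_le ht, not_le.1 b1]
      have t2 : (0.19 : ℝ) ^ 6 ≤ t ^ 6 := pow_le_pow_left₀ (by norm_num) t1 6
      norm_num at t2
      linarith [a2 b2]
    have s2 : √(1 - t) ≤ 0.7535 := by nlinarith [not_le.1 b2]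
    have s3 := Real.sq_sqrt (show 0 ≤ 1 - t by linarith [ht.2])
    have c0 := Real.sqrt_nonneg t
    have c1 : √t ≤ 1 := Real.sqrt_le_one.2 ht.2
    have c2 : 0.657 ≤ √t := Real.le_sqrt_of_sq_le (by nlinarith)
    have c3 : √t ^ 12 = t ^ 6 := by
      rw [show 12 = 2 * 6 by norm_num, pow_mul, Real.sq_sqrt ht.1]
    set c := √t
    have e1 : exp (c - 0.657) ≤ c / 0.657 := by
      have h3 := add_one_le_exp (-(c - 0.657))
      have h4 : exp (c - 0.657) * exp (-(c - 0.657)) = 1 := by rw [← exp_add]; simp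
      have h5 := exp_pos (c - 0.657)
      rw [le_div_iff₀ (by norm_num)]
      have h6 : 0.657 ≤ c * (-(c - 0.657) + 1) := by nlinarith
      nlinarith [mul_le_mul_of_nonneg_left h3 (mul_nonneg c0 h5.le)]
    have e2 : exp 6.85 ≤ 954 := by
      have h3 : exp 7 < 1096.64 := by
        rw [show (7 : ℝ) = ((7 : ℕ) : ℝ) * 1 by norm_num, exp_nat_mul]
        exact (pow_lt_pow_left₀ exp_one_lt_d9 (exp_pos _).le (by norm_num)).trans (by norm_num)
      have h4 := add_one_le_exp (0.15 : ℝ)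
      have h5 : exp 6.85 * exp 0.15 = exp 7 := by rw [← exp_add]; norm_num
      nlinarith [exp_pos 6.85]
    have e3 : exp (x * c) ≤ 954 * (t ^ 6 / 0.657 ^ 12) := by
      have h3 : exp (x * c) ≤ exp 6.85 * exp (c - 0.657) ^ 12 := by
        rw [← exp_nat_mul, ← exp_add]
        refine exp_le_exp.2 ?_
        push_cast
        nlinarith
      rw [← c3, ← div_pow]
      exact h3.trans (mul_le_mul e2 (pow_le_pow_left₀ (exp_pos _).le e1 12) (by positivity)
        (by norm_num))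
    have e4 : 1 ≤ t ^ 6 / 0.657 ^ 12 := by
      rw [← c3, ← div_pow]
      exact one_le_pow₀ ((one_le_div (by norm_num)).2 c2)
    have e5 : cosh (x * c) * cos (x * √(1 - t)) ≤ cosh (x * c) :=
      mul_le_of_le_one_right (cosh_pos _).le (cos_le_one _)
    have e6 : exp (-(x * c)) ≤ 1 := exp_le_one_iff.2 (neg_nonpos.2 (by positivity))
    have e7 : 478 * (t ^ 6 / 0.657 ^ 12) ≤ 74000 * t ^ 6 := by
      rw [← mul_div_assoc, div_le_iff₀ (by norm_num)]
      nlinarith
    rw [cosh_eq] at e5 ⊢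
    linarith
  · have a1 : 599 / (μ + 1) ^ 6 ≤ 599 / 23 ^ 6 :=
      div_le_div_of_nonneg_left (by norm_num) (by norm_num)
        (pow_le_pow_left₀ (by norm_num) (by linarith) 6)
    have a2 : 22026 < exp x := by
      have h3 : 22026 < exp 10 := by
        rw [show (10 : ℝ) = ((10 : ℕ) : ℝ) * 1 by norm_num, exp_nat_mul]
        exact lt_trans (by norm_num) (pow_lt_pow_left₀ exp_one_gt_d9 (by norm_num) (by norm_num))
      exact h3.trans (exp_lt_exp.2 (by linarith))
    have a3 : exp (-x) * exp x = 1 := by rw [← exp_add]; simp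
    have a4 := exp_pos (-x)
    have a5 : exp (-x) ≤ 1 / 22026 := by
      rw [le_div_iff₀ (by norm_num)]
      nlinarith
    have a6 : 2 * μ * exp (-x) ≤ 2 * 2000 * (1 / 22026) :=
      mul_le_mul (by linarith) a5 a4.le (by norm_num)
    norm_num at a1 a6 ⊢
    linarith

theorem dip_xi_large {μ : ℝ} (h1 : 2000 ≤ μ) :
    ∃ x, 0 ≤ x ∧ exp (-x) * Sr 0 (cf (μ + 1 / 2) (2 * μ + 1 / 2) (μ + 1)) x < 2 * μ := by
  have p1 := pi_gt_d4
  have p2 := pi_lt_d4
  have hμ : 0 < 14 * μ := by linarith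
  set L := log (14 * μ) with hL
  have eL : exp L = 14 * μ := exp_log hμ
  have L1 : 5 ≤ L := by
    rw [← exp_le_exp, eL]
    have h3 : exp 5 < 149 := by
      rw [show (5 : ℝ) = ((5 : ℕ) : ℝ) * 1 by norm_num, exp_nat_mul]
      exact (pow_lt_pow_left₀ exp_one_lt_d9 (exp_pos _).le (by norm_num)).trans (by norm_num)
    linarith
  have q0 : 0 ≤ (L - π - 1) / (2 * π) := div_nonneg (by linarith) (by positivity)
  have n1 := Nat.le_ceil ((L - π - 1) / (2 * π))
  have n2 := Nat.ceil_lt_add_one q0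
  set n := ⌈(L - π - 1) / (2 * π)⌉₊
  rw [div_le_iff₀ (by positivity)] at n1
  rw [← sub_lt_iff_lt_add, lt_div_iff₀ (by positivity)] at n2
  set x := (2 * (n : ℝ) + 1) * π + 1 with hx
  have x1 : L ≤ x := by linarith
  have x2 : x ≤ L + 7 := by linarith
  have x0 : 0 < x := by linarith
  have ex1 : 14 * μ ≤ exp x := eL ▸ exp_le_exp.2 x1
  have ex2 : exp x ≤ 15358 * μ := by
    have h3 : exp 7 < 1097 := by
      rw [show (7 : ℝ) = ((7 : ℕ) : ℝ) * 1 by norm_num, exp_nat_mul]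
      exact (pow_lt_pow_left₀ exp_one_lt_d9 (exp_pos _).le (by norm_num)).trans (by norm_num)
    have h4 := exp_le_exp.2 x2
    rw [exp_add L, eL] at h4
    nlinarith
  refine ⟨x, x0.le, dip_of_majorant (β := (exp x + 1) * (x / 2) ^ 6) (by linarith)
    (by positivity) (fun t ht => ?_) ?_⟩
  · obtain ⟨a1, -⟩ := phase n ht hx
    have t6 : 0 ≤ t ^ 6 := pow_nonneg ht.1 6
    by_cases b1 : x * (1 - √(1 - t)) ≤ 2
    · have : 0 ≤ (exp x + 1) * (x / 2) ^ 6 * t ^ 6 := by positivity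
      linarith [a1 b1]
    have t1 : 1 ≤ x / 2 * t := by nlinarith [one_sub_sqrt_le ht, not_le.1 b1]
    have t2 : 1 ≤ (x / 2 * t) ^ 6 := one_le_pow₀ t1
    have c1 : √t ≤ 1 := Real.sqrt_le_one.2 ht.2
    have e5 : cosh (x * √t) * cos (x * √(1 - t)) ≤ cosh (x * √t) :=
      mul_le_of_le_one_right (cosh_pos _).le (cos_le_one _)
    have e6 : cosh (x * √t) ≤ exp x :=
      (cosh_le_exp (by positivity)).trans (exp_le_exp.2 (mul_le_of_le_one_right x0.le c1))
    rw [mul_assoc, ← mul_pow]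
    nlinarith [exp_pos x]
  · have a1 := pow_div_factorial_le_exp x x0.le 6
    norm_num [Nat.factorial] at a1
    have a2 : (x / 2) ^ 6 ≤ 12 * (15358 * μ) := by
      rw [div_pow]
      linarith
    have a3 : (exp x + 1) * (x / 2) ^ 6 ≤ 15359 * μ * (12 * (15358 * μ)) :=
      mul_le_mul (by linarith) a2 (by positivity) (by positivity)
    have a4 : 599 / (μ + 1) ^ 6 ≤ 599 / (2000 ^ 4 * μ ^ 2) := by
      refine div_le_div_of_nonneg_left (by norm_num) (by positivity) ?_
      have h3 : (2000 : ℝ) ^ 4 ≤ (μ + 1) ^ 4 := pow_le_pow_left₀ (by norm_num) (by linarith) 4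
      have h4 : μ ^ 2 ≤ (μ + 1) ^ 2 := pow_le_pow_left₀ (by linarith) (by linarith) 2
      calc (2000 : ℝ) ^ 4 * μ ^ 2 ≤ (μ + 1) ^ 4 * (μ + 1) ^ 2 :=
            mul_le_mul h3 h4 (by positivity) (by positivity)
        _ = (μ + 1) ^ 6 := by ring
    have a5 := mul_le_mul a3 a4 (by positivity) (by positivity)
    have a6 : 15359 * μ * (12 * (15358 * μ)) * (599 / (2000 ^ 4 * μ ^ 2))
        = 15359 * 12 * 15358 * 599 / 2000 ^ 4 := by
      have : μ ≠ 0 := by linarith
      field_simp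
    have a7 : exp (-x) * exp x = 1 := by rw [← exp_add]; simp
    have a8 : 2 * μ * exp (-x) ≤ 1 / 7 := by
      nlinarith [mul_le_mul_of_nonneg_left ex1 (exp_pos (-x)).le]
    rw [a6] at a5
    norm_num at a5
    linarith

theorem one_lt_kap_xi {μ : ℝ} (hμ : -1 / 4 < μ) :
    1 < kap (μ + 1 / 2) (2 * μ + 1 / 2) (μ + 1) ↔ 1 / 2 < μ := by
  constructor
  · intro h
    by_contra h1
    have := kap_le_one (A := μ + 1 / 2) (B := 2 * μ + 1 / 2) (C := μ + 1) (by linarith)
      (by linarith) (by linarith) (by linarith) (by linarith [not_lt.1 h1])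
    linarith
  · intro h
    have hd : ∃ x, 0 ≤ x ∧
        exp (-x) * Sr 0 (cf (μ + 1 / 2) (2 * μ + 1 / 2) (μ + 1)) x < 2 * μ := by
      rcases le_total μ 1 with h1 | h1
      · exact dip_xi_small h h1
      rcases le_total μ 22 with h2 | h2
      · exact ⟨4, by norm_num, dip_xi_mid h1 h2⟩
      rcases le_total μ 2000 with h3 | h3
      · exact ⟨3 * π + 1, by positivity, dip_xi_second h2 h3⟩
      · exact dip_xi_large h3
    obtain ⟨x, hx, hd⟩ := hd
    exact (setup_xi hμ one_pos (show 2 * 1 < (3 : ℝ) by norm_num)).one_lt_kap (good_xi hμ) hx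
      (by linarith)

end Pool.Agent.P.MP_ede858_pr
end

-- part Pool.Agent.P.MP_ede858_pr.Fin
section

set_option autoImplicit false

open Set Filter Topology MeasureTheory Real

namespace Pool.Agent.P.MP_ede858_pr

/-! The final statements. -/

theorem lev_facts {A B C : ℝ} (hC : 0 < C) (hg : Good (cf A B C)) :
    (∀ x, 0 ≤ x → 0 < lev A B C x) ∧ Differentiable ℝ (lev A B C) ∧
      IsLUB {y : ℝ | ∃ x : ℝ, 0 < x ∧ y = deriv (lev A B C) x / lev A B C x} (kap A B C) := by
  refine ⟨fun x hx => ?_, fun x => (lev_hasDerivAt A B hC x).differentiableAt, kap_isLUB hC hg⟩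
  obtain ⟨M, hM⟩ := hg
  exact (hM x hx).1

theorem lev_phi_three {μ : ℝ} (hμ : -1 < μ) (x : ℝ) :
    lev ((μ + (μ + 3) + 1) / 2) ((μ + (μ + 3)) / 2) (μ + 1) x
      = (2 * μ + 5) * cosh x - 2 * cos (x / √(2 * μ + 2)) := by
  have hC : 0 < μ + 1 := by linarith
  have hp : 0 < 2 * μ + 2 := by linarith
  have hW : WW (-1) (-1 / 2) (μ + 1) 1 = WW (-1) (-1 / 2) (μ + 1) 0 := by
    have h := (WW_frac (-1) (-1 / 2) hC).2 0
    have g2 := gg_even (-1) (-1 / 2) (μ + 1) 0
    simp only [Nat.cast_zero, add_zero, mul_zero, zero_add, neg_add_cancel, zero_div] at g2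
    simpa [al, g2] using h
  have h1 : ∀ k, PowerSeries.coeff k (WW (-1) (-1 / 2) (μ + 1) 0)
      = (-((1 / √(2 * μ + 2)) ^ 2)) ^ k := by
    intro k
    induction k with
    | zero => rw [(frac_low (WW_frac _ _ hC)).1, pow_zero]
    | succ k ih =>
      rw [WW_succ _ _ hC, hW, ih, pow_succ' _ k, div_pow, Real.sq_sqrt hp.le]
      congr 1
      field_simp
  have hc : cf ((μ + (μ + 3) + 1) / 2) ((μ + (μ + 3)) / 2) (μ + 1)
      = fun k => (2 * μ + 5) + -2 * (-((1 / √(2 * μ + 2)) ^ 2)) ^ k := by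
    funext k
    cases k with
    | zero => rw [cf_zero _ _ hC]; ring
    | succ k =>
      rw [cf_succ _ _ hC, show μ + 1 - (μ + (μ + 3) + 1) / 2 = -1 by ring,
        show μ + 1 - (μ + (μ + 3)) / 2 = -1 / 2 by ring, coeff_yy_succ, h1]
      ring
  have hg : Geo (fun k => -2 * (-((1 / √(2 * μ + 2)) ^ 2)) ^ k) 2
      (max 1 |(-((1 / √(2 * μ + 2)) ^ 2))|) := ⟨le_max_left _ _, fun k => by
    rw [abs_mul, abs_pow, abs_neg (2 : ℝ), abs_two]
    exact mul_le_mul_of_nonneg_left (pow_le_pow_left₀ (abs_nonneg _) (le_max_right _ _) k)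
      (by norm_num)⟩
  rw [lev_eq, hc, Sr_add (geo_const _) hg, Sr_const, Sr_one_zero, Sr_mul, Sr_neg_sq,
    one_div_mul_eq_div]
  ring

theorem sd_phi {μ ν a b : ℝ} (hμ : -1 < μ) (hρ : 0 < μ + ν) (ha : 0 < a) (hb : a < b) :
    IsSD (nlaw (fun x => x ^ (ν - 1) * exp (-b * x) * besselI μ (a * x)))
      ↔ kap ((μ + ν + 1) / 2) ((μ + ν) / 2) (μ + 1) * a ≤ b :=
  (setup_phi hμ hρ ha hb).sd_iff_kap (good_phi hμ hρ)

theorem sd_xi {μ a b : ℝ} (hμ : -1 / 4 < μ) (ha : 0 < a) (hb : 2 * a < b) :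
    IsSD (nlaw (fun x => x ^ (2 * μ) * exp (-b * x) * besselI μ (a * x) ^ 2))
      ↔ kap (μ + 1 / 2) (2 * μ + 1 / 2) (μ + 1) * (2 * a) ≤ b :=
  (setup_xi hμ ha hb).sd_iff_kap (good_xi hμ)

end Pool.Agent.P.MP_ede858_pr
end
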